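import Pool.Agent.H1.CK.Sec

/-! # Uniform local facts (module U) -/

namespace Pool.H1.Lor

open Filter Topology Set Module

variable {W : Type*} [NormedAddCommGroup W] [NormedSpace ℝ W]
  {F : Type*} [NormedAddCommGroup F] [InnerProductSpace ℝ F]

/-- Timelike tangent vectors exist everywhere if they exist at one point. -/
theorem timelike_everywhere (B : Form W) {K : ℝ} {y z : W} (hy : OnQ B.b K y)
    (h : ∃ τ, Tan B.b K y τ ∧ B.b τ τ < 0) (hz : z ∈ Om B.b K) :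
    ∃ τ, Tan B.b K (nrm B.b K z) τ ∧ B.b τ τ < 0 := by
  obtain ⟨τ, hτ, hτ'⟩ := h
  -- enough to have `K b(z,τ) = 0`
  suffices H : ∃ τ, K * B.b z τ = 0 ∧ B.b τ τ < 0 by
    obtain ⟨τ, h1, h2⟩ := H
    refine ⟨τ, ?_, h2⟩
    unfold Tan nrm
    simp only [map_smul, smul_apply, smul_eq_mul]
    linear_combination (nf B.b K z)⁻¹ * h1
  by_cases hK : K = 0
  · exact ⟨τ, by simp [hK], hτ'⟩
  have hyy : K * B.b y y = 1 := by
    unfold OnQ at hy; rwa [dl_ne hK, add_zero] at hy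
  have hzz : 0 < K * B.b z z := by
    have : 0 < K * B.b z z + dl K := hz
    rwa [dl_ne hK, add_zero] at this
  have hyτ : B.b y τ = 0 := (mul_eq_zero.1 hτ).resolve_left hK
  rcases lt_or_gt_of_ne hK with h0 | h0
  · -- `K < 0`
    have hyneg : B.b y y < 0 := by
      by_contra hcon
      have : K * B.b y y ≤ 0 := mul_nonpos_of_nonpos_of_nonneg h0.le (not_lt.1 hcon)
      linarith
    by_cases h1 : B.b z τ = 0
    · exact ⟨τ, by rw [h1, mul_zero], hτ'⟩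
    refine ⟨B.b z τ • y - B.b z y • τ, ?_, ?_⟩
    · simp only [map_sub, map_smul, smul_eq_mul]
      ring
    · have hsq : 0 < (B.b z τ) ^ 2 := by positivity
      have e : B.b (B.b z τ • y - B.b z y • τ) (B.b z τ • y - B.b z y • τ) =
          (B.b z τ) ^ 2 * B.b y y + (B.b z y) ^ 2 * B.b τ τ := by
        simp only [map_sub, map_smul, sub_apply, smul_apply, smul_eq_mul]
        rw [B.symm τ y, hyτ]
        ring
      rw [e]
      have e1 : (B.b z τ) ^ 2 * B.b y y < 0 := mul_neg_of_pos_of_neg hsq hyneg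
      have e2 : (B.b z y) ^ 2 * B.b τ τ ≤ 0 :=
        mul_nonpos_of_nonneg_of_nonpos (sq_nonneg _) hτ'.le
      linarith
  · -- `K > 0`
    have hzpos : 0 < B.b z z := pos_of_mul_pos_right hzz h0.le
    refine ⟨τ - (B.b z τ / B.b z z) • z, ?_, ?_⟩
    · simp only [map_sub, map_smul, smul_eq_mul]
      field_simp
      ring
    · have e : B.b (τ - (B.b z τ / B.b z z) • z) (τ - (B.b z τ / B.b z z) • z) =
          B.b τ τ - (B.b z τ) ^ 2 / B.b z z := by
        simp only [map_sub, map_smul, sub_apply, smul_apply, smul_eq_mul]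
        rw [B.symm τ z]
        field_simp
        ring
      rw [e]
      have : 0 ≤ (B.b z τ) ^ 2 / B.b z z := by positivity
      linarith

/-- Locally uniform bounds for continuous homogeneous positive functions. -/
theorem U_bounds [FiniteDimensional ℝ W] {X : Type*} [TopologicalSpace X] {x₀ : X}
    {N : X → W → ℝ} {k : ℕ} (hk : k ≠ 0)
    (hc : ∀ w, ContinuousAt (fun q : X × W => N q.1 q.2) (x₀, w))
    (hpos : ∀ w, w ≠ 0 → 0 < N x₀ w) (hhom : ∀ x (c : ℝ) w, N x (c • w) = |c| ^ k * N x w) :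
    ∃ C : ℝ, 0 < C ∧ ∀ᶠ x in 𝓝 x₀, ∀ w, ‖w‖ ^ k ≤ C * N x w ∧ N x w ≤ C * ‖w‖ ^ k := by
  have : ProperSpace W := FiniteDimensional.proper ℝ W
  have hS : IsCompact (Metric.sphere (0 : W) 1) := isCompact_sphere 0 1
  have hcont : ContinuousOn (N x₀) (Metric.sphere (0 : W) 1) := by
    intro w _
    have h1 : ContinuousAt (fun w : W => (x₀, w)) w :=
      (Continuous.prodMk continuous_const continuous_id).continuousAt
    exact (ContinuousAt.comp (g := fun q : X × W => N q.1 q.2) (hc w) h1).continuousWithinAt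
  obtain ⟨m, hm0, hm⟩ := hS.exists_forall_le' hcont (a := 0) (fun w hw => hpos w (by
    rintro rfl; simp at hw))
  obtain ⟨C₁, hC₁⟩ := hS.exists_bound_of_continuousOn hcont
  have hev : ∀ᶠ x in 𝓝 x₀, ∀ w ∈ Metric.sphere (0 : W) 1, m / 2 < N x w ∧ N x w < C₁ + 1 := by
    refine hS.eventually_forall_of_forall_eventually
      (P := fun x w => m / 2 < N x w ∧ N x w < C₁ + 1) fun w hw => ?_
    have h1 : m / 2 < N x₀ w := by have := hm w hw; linarith
    have h2 : N x₀ w < C₁ + 1 := by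
      have := hC₁ w hw
      have := (le_abs_self (N x₀ w)).trans (by simpa using this)
      linarith
    filter_upwards [(hc w).eventually (lt_mem_nhds h1), (hc w).eventually (gt_mem_nhds h2)]
      with q h3 h4 using ⟨h3, h4⟩
  refine ⟨2 / m + |C₁| + 1, by positivity, ?_⟩
  filter_upwards [hev] with x hx w
  by_cases hw : w = 0
  · have h0 : N x w = 0 := by
      have := hhom x 0 w
      simp only [zero_smul, abs_zero, ne_eq, hk, not_false_eq_true, zero_pow, zero_mul] at this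
      rwa [hw]
    rw [h0, hw]
    simp [hk]
  · have hw0 : 0 < ‖w‖ := norm_pos_iff.2 hw
    have hu : ‖w‖⁻¹ • w ∈ Metric.sphere (0 : W) 1 := by
      rw [mem_sphere_zero_iff_norm, norm_smul, norm_inv, norm_norm, inv_mul_cancel₀ hw0.ne']
    obtain ⟨h1, h2⟩ := hx _ hu
    have h3 : N x w = ‖w‖ ^ k * N x (‖w‖⁻¹ • w) := by
      have := hhom x ‖w‖ (‖w‖⁻¹ • w)
      rw [smul_smul, mul_inv_cancel₀ hw0.ne', one_smul, abs_norm] at this
      exact this
    have hp : 0 < ‖w‖ ^ k := by positivity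
    set n := N x (‖w‖⁻¹ • w) with hn
    have hn0 : 0 < n := lt_trans (by positivity) h1
    rw [h3]
    constructor
    · have h4 : 1 ≤ (2 / m + |C₁| + 1) * n := by
        have h5 : 1 ≤ 2 / m * n := by
          rw [div_mul_eq_mul_div, le_div_iff₀ hm0]
          linarith
        have h6 : 0 ≤ |C₁| * n := by positivity
        nlinarith
      calc ‖w‖ ^ k = ‖w‖ ^ k * 1 := (mul_one _).symm
        _ ≤ ‖w‖ ^ k * ((2 / m + |C₁| + 1) * n) := by gcongr
        _ = (2 / m + |C₁| + 1) * (‖w‖ ^ k * n) := by ring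
    · have h4 : n ≤ 2 / m + |C₁| + 1 := by
        have h5 : 0 < 2 / m := by positivity
        have := le_abs_self C₁
        linarith
      calc ‖w‖ ^ k * n ≤ ‖w‖ ^ k * (2 / m + |C₁| + 1) := by gcongr
        _ = (2 / m + |C₁| + 1) * ‖w‖ ^ k := by ring

/-- Locally uniform upper bounds for continuous homogeneous functions. -/
theorem U_upper [FiniteDimensional ℝ W] {X : Type*} [TopologicalSpace X] {x₀ : X}
    {N : X → W → ℝ} {k : ℕ} (hk : k ≠ 0)
    (hc : ∀ w, ContinuousAt (fun q : X × W => N q.1 q.2) (x₀, w))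
    (hhom : ∀ x (c : ℝ) w, N x (c • w) = |c| ^ k * N x w) :
    ∃ C : ℝ, 0 < C ∧ ∀ᶠ x in 𝓝 x₀, ∀ w, N x w ≤ C * ‖w‖ ^ k := by
  have : ProperSpace W := FiniteDimensional.proper ℝ W
  have hS : IsCompact (Metric.sphere (0 : W) 1) := isCompact_sphere 0 1
  have hcont : ContinuousOn (N x₀) (Metric.sphere (0 : W) 1) := by
    intro w _
    have h1 : ContinuousAt (fun w : W => (x₀, w)) w :=
      (Continuous.prodMk continuous_const continuous_id).continuousAt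
    exact (ContinuousAt.comp (g := fun q : X × W => N q.1 q.2) (hc w) h1).continuousWithinAt
  obtain ⟨C₁, hC₁⟩ := hS.exists_bound_of_continuousOn hcont
  have hev : ∀ᶠ x in 𝓝 x₀, ∀ w ∈ Metric.sphere (0 : W) 1, N x w < C₁ + 1 := by
    refine hS.eventually_forall_of_forall_eventually
      (P := fun x w => N x w < C₁ + 1) fun w hw => ?_
    have h2 : N x₀ w < C₁ + 1 := by
      have := hC₁ w hw
      have := (le_abs_self (N x₀ w)).trans (by simpa using this)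
      linarith
    exact (hc w).eventually (gt_mem_nhds h2)
  refine ⟨|C₁| + 1, by positivity, ?_⟩
  filter_upwards [hev] with x hx w
  by_cases hw : w = 0
  · have h0 : N x w = 0 := by
      have := hhom x 0 w
      simp only [zero_smul, abs_zero, ne_eq, hk, not_false_eq_true, zero_pow, zero_mul] at this
      rwa [hw]
    rw [h0, hw]
    simp [hk]
  · have hw0 : 0 < ‖w‖ := norm_pos_iff.2 hw
    have hu : ‖w‖⁻¹ • w ∈ Metric.sphere (0 : W) 1 := by
      rw [mem_sphere_zero_iff_norm, norm_smul, norm_inv, norm_norm, inv_mul_cancel₀ hw0.ne']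
    have h1 := hx _ hu
    have h3 : N x w = ‖w‖ ^ k * N x (‖w‖⁻¹ • w) := by
      have := hhom x ‖w‖ (‖w‖⁻¹ • w)
      rw [smul_smul, mul_inv_cancel₀ hw0.ne', one_smul, abs_norm] at this
      exact this
    have hp : 0 < ‖w‖ ^ k := by positivity
    rw [h3]
    have h4 : N x (‖w‖⁻¹ • w) ≤ |C₁| + 1 := by
      have := le_abs_self C₁
      linarith
    calc ‖w‖ ^ k * N x (‖w‖⁻¹ • w) ≤ ‖w‖ ^ k * (|C₁| + 1) := by gcongr
      _ = (|C₁| + 1) * ‖w‖ ^ k := by ring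

/-- Tangential part of `τ` at a point `p` of the space form. -/
noncomputable def U_tp (b : W →L[ℝ] W →L[ℝ] ℝ) (K : ℝ) (τ p : W) : W := τ - (K * b p τ) • p

theorem U_tp_tan {b : W →L[ℝ] W →L[ℝ] ℝ} {K : ℝ} {p : W} (hp : OnQ b K p) (τ : W) :
    Tan b K p (U_tp b K τ p) := by
  unfold OnQ at hp
  unfold Tan U_tp
  simp only [map_sub, map_smul, smul_eq_mul]
  linear_combination (-(K * b p τ)) * hp + b p τ * mul_dl K

theorem U_tp_self {b : W →L[ℝ] W →L[ℝ] ℝ} {K : ℝ} {y τ : W} (h : Tan b K y τ) :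
    U_tp b K τ y = τ := by
  unfold Tan at h
  unfold U_tp
  rw [h, zero_smul, sub_zero]

theorem U_tp_continuous (b : W →L[ℝ] W →L[ℝ] ℝ) (K : ℝ) (τ : W) : Continuous (U_tp b K τ) := by
  unfold U_tp
  fun_prop

theorem U_Bh_continuousAt (B : Form W) {K : ℝ} {y τ : W} (hτ : Tan B.b K y τ)
    (hτ' : B.b τ τ < 0) (w : W) :
    ContinuousAt (fun q : W × W => Bh B.b K q.1 (U_tp B.b K τ q.1) q.2 q.2) (y, w) := by
  have htc := U_tp_continuous B.b K τ
  have hbc : Continuous fun p => B.b (U_tp B.b K τ p) (U_tp B.b K τ p) := by fun_prop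
  unfold Bh
  have h1 : B.b (U_tp B.b K τ (y, w).1) (U_tp B.b K τ (y, w).1) ≠ 0 := by
    simp only [U_tp_self hτ]; exact hτ'.ne
  have h2 : ContinuousAt (fun q : W × W => 2 / (-(B.b (U_tp B.b K τ q.1) (U_tp B.b K τ q.1))))
      (y, w) := by
    refine continuousAt_const.div ?_ (neg_ne_zero.2 h1)
    exact (hbc.comp continuous_fst).neg.continuousAt
  refine ContinuousAt.add (Continuous.continuousAt (by fun_prop)) (h2.mul
    (Continuous.continuousAt ?_))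
  have h3 : Continuous fun q : W × W => U_tp B.b K τ q.1 := htc.comp continuous_fst
  fun_prop

theorem U_Bh_hom (b : W →L[ℝ] W →L[ℝ] ℝ) (K : ℝ) (y τ : W) (c : ℝ) (w : W) :
    Bh b K y τ (c • w) (c • w) = |c| ^ 2 * Bh b K y τ w w := by
  unfold Bh
  simp only [map_smul, smul_apply, smul_eq_mul, sq_abs]
  ring

theorem U_Bh_act {b : W →L[ℝ] W →L[ℝ] ℝ} {K : ℝ} (A : Iso b K) (y τ w : W) :
    Bh b K (A.act y) (A.L τ) (A.L w) (A.L w) = Bh b K y τ w w := by
  have h2 : (|K| - K) * (b (A.L w) (A.act y) * b (A.L w) (A.act y)) =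
      (|K| - K) * (b w y * b w y) := by
    by_cases hK : K = 0
    · simp [hK]
    · have : A.act y = A.L y := by unfold Iso.act; rw [A.a_eq_zero hK, add_zero]
      rw [this, A.isom]
  unfold Bh
  rw [h2, A.isom, A.isom, A.isom]

/-- Near `y` the form `Bh` is uniformly positive definite and bounded. -/
theorem U_Bh [FiniteDimensional ℝ W] (B : Form W) {K : ℝ} {y τ : W} (hy : OnQ B.b K y)
    (hl : LorAt B.b K y) (hτ : Tan B.b K y τ) (hτ' : B.b τ τ < 0) :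
    ∃ C : ℝ, 0 < C ∧ ∀ᶠ p in 𝓝 y, B.b (U_tp B.b K τ p) (U_tp B.b K τ p) < 0 ∧
      ∀ w, ‖w‖ ^ 2 ≤ C * Bh B.b K p (U_tp B.b K τ p) w w ∧
        Bh B.b K p (U_tp B.b K τ p) w w ≤ C * ‖w‖ ^ 2 := by
  have htc := U_tp_continuous B.b K τ
  have hbc : Continuous fun p => B.b (U_tp B.b K τ p) (U_tp B.b K τ p) := by fun_prop
  have h0 : ∀ᶠ p in 𝓝 y, B.b (U_tp B.b K τ p) (U_tp B.b K τ p) < 0 := by
    refine (hbc.tendsto y).eventually (gt_mem_nhds ?_)
    rw [U_tp_self hτ]; exact hτ'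
  obtain ⟨C, hC, hev⟩ := U_bounds (N := fun p w => Bh B.b K p (U_tp B.b K τ p) w w) (x₀ := y)
    two_ne_zero (by
      exact U_Bh_continuousAt B hτ hτ') (by
      intro w hw
      simp only [U_tp_self hτ]
      exact (Bh_self_pos B.symm hy hl hτ hτ' w hw).1) (by
      intro p c w
      exact U_Bh_hom _ _ _ _ c w)
  exact ⟨C, hC, h0.and hev⟩

/-- A nonzero vector in the kernel of two functionals (one if `K = 0`). -/
theorem U_exists_ker [FiniteDimensional ℝ W] (B : Form W) {K : ℝ}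
    (hdim : 2 + (if K = 0 then 0 else 1) ≤ finrank ℝ W) (y t : W) :
    ∃ e : W, e ≠ 0 ∧ Tan B.b K y e ∧ B.b t e = 0 := by
  by_cases hK : K = 0
  · rw [if_pos hK] at hdim
    have h1 : ¬ Function.Injective (B.b t : W →ₗ[ℝ] ℝ) := by
      intro hinj
      have := LinearMap.finrank_le_finrank_of_injective hinj
      rw [Module.finrank_self] at this
      omega
    rw [← LinearMap.ker_eq_bot, Submodule.eq_bot_iff] at h1
    push Not at h1
    obtain ⟨e, he1, he2⟩ := h1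
    exact ⟨e, he2, by simp [Tan, hK], he1⟩
  · rw [if_neg hK] at hdim
    have h1 : ¬ Function.Injective ((K • B.b y : W →L[ℝ] ℝ).prod (B.b t) : W →ₗ[ℝ] ℝ × ℝ) := by
      intro hinj
      have := LinearMap.finrank_le_finrank_of_injective hinj
      rw [Module.finrank_prod, Module.finrank_self] at this
      omega
    rw [← LinearMap.ker_eq_bot, Submodule.eq_bot_iff] at h1
    push Not at h1
    obtain ⟨e, he1, he2⟩ := h1
    have he3 : (K * B.b y e, B.b t e) = ((0, 0) : ℝ × ℝ) := he1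
    rw [Prod.mk.injEq] at he3
    exact ⟨e, he2, he3.1, he3.2⟩

/-- A null vector on whose orthogonal the form adapted to `τ` is dominated by the form adapted to
`t`. -/
theorem U_null [FiniteDimensional ℝ W] (B : Form W) {K : ℝ}
    (hdim : 2 + (if K = 0 then 0 else 1) ≤ finrank ℝ W) {y τ t : W}
    (hl : LorAt B.b K y) (hτ : Tan B.b K y τ) (hτ' : B.b τ τ < 0)
    (ht : Tan B.b K y t) (ht' : B.b t t < 0) :
    ∃ ν : W, ν ≠ 0 ∧ B.b ν ν = 0 ∧ Tan B.b K y ν ∧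
      ∀ w, B.b ν w = 0 → Bh B.b K y τ w w ≤ Bh B.b K y t w w := by
  -- normalise
  set s : ℝ := (Real.sqrt (-(B.b τ τ)))⁻¹ with hs
  set s' : ℝ := (Real.sqrt (-(B.b t t)))⁻¹ with hs'
  have hs0 : 0 < s := inv_pos.2 (Real.sqrt_pos.2 (by linarith))
  have hs0' : 0 < s' := inv_pos.2 (Real.sqrt_pos.2 (by linarith))
  have hs2 : s ^ 2 = 1 / (-(B.b τ τ)) := by
    rw [hs, inv_pow, Real.sq_sqrt (by linarith), one_div]
  have hs2' : s' ^ 2 = 1 / (-(B.b t t)) := by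
    rw [hs', inv_pow, Real.sq_sqrt (by linarith), one_div]
  have hne := hτ'.ne
  have hne' := ht'.ne
  have e1 : s ^ 2 * B.b τ τ = -1 := by rw [hs2, div_neg, neg_mul, one_div, inv_mul_cancel₀ hne]
  have e1' : s' ^ 2 * B.b t t = -1 := by
    rw [hs2', div_neg, neg_mul, one_div, inv_mul_cancel₀ hne']
  -- reversed Cauchy-Schwarz
  set d : ℝ := s * s' * B.b τ t with hd
  have hd1 : 1 ≤ d ^ 2 := by
    set q : W := s' • t + (d * s) • τ with hq
    have hq1 : B.b τ q = 0 := by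
      rw [hq]
      simp only [map_add, map_smul, smul_eq_mul]
      rw [hd]
      linear_combination (s' * B.b τ t) * e1
    have hq2 : Tan B.b K y q := by
      unfold Tan at hτ ht ⊢
      rw [hq]
      simp only [map_add, map_smul, smul_eq_mul]
      linear_combination s' * ht + d * s * hτ
    have hq3 : 0 ≤ B.b q q := by
      by_cases h0 : q = 0
      · rw [h0]; simp
      · exact (hl τ q hτ hq2 hτ' hq1 h0).le
    have hq4 : B.b q q = d ^ 2 - 1 := by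
      rw [hq]
      simp only [map_add, map_smul, add_apply, smul_apply, smul_eq_mul]
      rw [B.symm t τ]
      linear_combination e1' + d ^ 2 * e1 - 2 * d * hd
    linarith
  have hBτ : ∀ w, Bh B.b K y τ w w =
      B.b w w + (|K| - K) * (B.b w y * B.b w y) + 2 * (s * B.b w τ) ^ 2 := by
    intro w
    unfold Bh
    rw [mul_pow, hs2]
    ring
  have hBt : ∀ w, Bh B.b K y t w w =
      B.b w w + (|K| - K) * (B.b w y * B.b w y) + 2 * (s' * B.b w t) ^ 2 := by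
    intro w
    unfold Bh
    rw [mul_pow, hs2']
    ring
  -- enough to compare the last terms
  suffices H : ∃ ν : W, ν ≠ 0 ∧ B.b ν ν = 0 ∧ Tan B.b K y ν ∧
      ∀ w, B.b ν w = 0 → (s * B.b w τ) ^ 2 ≤ (s' * B.b w t) ^ 2 by
    obtain ⟨ν, h1, h2, h3, h4⟩ := H
    refine ⟨ν, h1, h2, h3, fun w hw => ?_⟩
    rw [hBτ, hBt]
    linarith [h4 w hw]
  -- the sign
  obtain ⟨σ, hσ, hσd⟩ : ∃ σ : ℝ, σ ^ 2 = 1 ∧ σ * d = -|d| := by
    rcases le_or_gt 0 d with h | h
    · exact ⟨-1, by norm_num, by rw [abs_of_nonneg h]; ring⟩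
    · exact ⟨1, by norm_num, by rw [abs_of_neg h]; ring⟩
  have hd2 : 1 ≤ |d| := by
    rw [← sq_abs] at hd1
    by_contra hcon
    push Not at hcon
    have h0 := abs_nonneg d
    nlinarith
  set r : ℝ := Real.sqrt (d ^ 2 - 1) with hr
  have hr0 : 0 ≤ r := Real.sqrt_nonneg _
  have hr2 : r ^ 2 = |d| ^ 2 - 1 := by rw [sq_abs, hr, Real.sq_sqrt (by linarith)]
  set l : ℝ := |d| + r with hl'
  have hl1 : 1 ≤ l := by linarith
  have hl2 : l ^ 2 - 2 * l * |d| + 1 = 0 := by rw [hl']; linear_combination hr2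
  set ν : W := (l * σ * s) • τ - s' • t with hν
  have hν0 : B.b ν ν = 0 := by
    rw [hν]
    simp only [map_sub, map_smul, sub_apply, smul_apply, smul_eq_mul]
    rw [B.symm t τ]
    linear_combination (l ^ 2 * σ ^ 2) * e1 + e1' - l ^ 2 * hσ + 2 * l * σ * hd - 2 * l * hσd - hl2
  have hνT : Tan B.b K y ν := by
    unfold Tan at hτ ht ⊢
    rw [hν]
    simp only [map_sub, map_smul, smul_eq_mul]
    linear_combination l * σ * s * hτ - s' * ht
  have hcmp : ∀ w, B.b ν w = 0 → (s * B.b w τ) ^ 2 ≤ (s' * B.b w t) ^ 2 := by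
    intro w hw
    rw [B.symm ν w, hν] at hw
    simp only [map_sub, map_smul, smul_eq_mul] at hw
    have h1 : s' * B.b w t = l * σ * (s * B.b w τ) := by linarith
    rw [h1]
    have h2 : (l * σ * (s * B.b w τ)) ^ 2 = l ^ 2 * (s * B.b w τ) ^ 2 := by
      linear_combination (l ^ 2 * (s * B.b w τ) ^ 2) * hσ
    rw [h2]
    have h3 : 1 ≤ l ^ 2 := by nlinarith
    have h4 := sq_nonneg (s * B.b w τ)
    nlinarith
  by_cases h0 : ν = 0
  · obtain ⟨e, he1, he2, he3⟩ := U_exists_ker B hdim y t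
    have he4 : 0 < B.b e e := hl t e ht he2 ht' he3 he1
    set u : ℝ := (Real.sqrt (B.b e e))⁻¹ with hu
    have hu2 : u ^ 2 * B.b e e = 1 := by
      rw [hu, inv_pow, Real.sq_sqrt he4.le, inv_mul_cancel₀ he4.ne']
    refine ⟨s' • t + u • e, ?_, ?_, ?_, fun w _ => hcmp w (by rw [h0]; simp)⟩
    · intro h1
      have h2 : B.b t (s' • t + u • e) = 0 := by rw [h1, map_zero]
      simp only [map_add, map_smul, smul_eq_mul] at h2
      rw [he3, mul_zero, add_zero] at h2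
      rcases mul_eq_zero.1 h2 with h3 | h3
      · exact hs0'.ne' h3
      · exact hne' h3
    · simp only [map_add, map_smul, add_apply, smul_apply, smul_eq_mul]
      rw [B.symm e t, he3]
      linear_combination e1' + hu2
    · unfold Tan at ht he2 ⊢
      simp only [map_add, map_smul, smul_eq_mul]
      linear_combination s' * ht + u * he2
  · exact ⟨ν, h0, hν0, hνT, hcmp⟩

namespace GX

variable {M : Type*} [TopologicalSpace M] {B : Form W} {K : ℝ} {G : GX M B K} {ξ : M → F}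

/-- Good points of a chart. -/
structure UPt (G : GX M B K) (ξ : M → F) (C : ℝ) (φ : M → W) (ψ : W → M) (p : W) : Prop where
  om : p ∈ Om B.b K
  chart : G.chart (ψ p) φ ψ
  right : φ (ψ p) = nrm B.b K p
  left : ∀ᶠ q in 𝓝 p, ψ (nrm B.b K q) = ψ q
  diff : DifferentiableAt ℝ (ξ ∘ ψ) p
  lo : ∀ w, ‖w‖ ≤ C * Nn B K ξ ψ p w
  up : ∀ w, Nn B K ξ ψ p w ≤ C * ‖w‖

theorem UPt.mono {C C' : ℝ} {φ : M → W} {ψ : W → M} {p : W} (h : G.UPt ξ C φ ψ p)
    (hC : C ≤ C') : G.UPt ξ C' φ ψ p :=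
  ⟨h.om, h.chart, h.right, h.left, h.diff,
    fun w => (h.lo w).trans (mul_le_mul_of_nonneg_right hC (Nn_nonneg h.om w)),
    fun w => (h.up w).trans (mul_le_mul_of_nonneg_right hC (norm_nonneg w))⟩

/-- Points near the centre of a chart are good. -/
theorem eventually_UPt [FiniteDimensional ℝ W] (hξ : G.Smooth ξ) (himm : G.Immersion ξ)
    {x : M} {φ : M → W} {ψ : W → M} (h : G.chart x φ ψ) :
    ∃ C : ℝ, 0 < C ∧ ∀ᶠ p in 𝓝 (φ x), G.UPt ξ C φ ψ p := by
  have hQ := G.onQ h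
  have hξ2 := hξ h
  have c1 : ContinuousAt (fderiv ℝ (ξ ∘ ψ)) (φ x) :=
    (hξ2.fderiv_right (m := 1) (by norm_num)).continuousAt
  have hd : ∀ᶠ z in 𝓝 (φ x), DifferentiableAt ℝ (ξ ∘ ψ) z := by
    have h1 : ContDiffAt ℝ 1 (ξ ∘ ψ) (φ x) := (hξ h).of_le (by norm_num)
    filter_upwards [h1.eventually (by simp)] with z hz using hz.differentiableAt (by norm_num)
  obtain ⟨C, hC, hev⟩ := U_bounds (N := fun p w => Nn B K ξ ψ p w) (x₀ := φ x) one_ne_zero (by
      intro w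
      unfold Nn
      have h1 : ContinuousAt (fun q : W × W => fderiv ℝ (ξ ∘ ψ) q.1) (φ x, w) :=
        ContinuousAt.comp (g := fderiv ℝ (ξ ∘ ψ)) (f := Prod.fst) c1 continuousAt_fst
      have h2 : ContinuousAt (fun q : W × W => fderiv ℝ (ξ ∘ ψ) q.1 q.2) (φ x, w) :=
        h1.clm_apply continuousAt_snd
      refine h2.norm.add (ContinuousAt.div (Continuous.continuousAt (by fun_prop))
        (Continuous.continuousAt (by fun_prop)) ?_)
      exact hQ.pos.ne') (by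
      intro w hw
      unfold Nn
      have hp := hQ.pos
      by_cases h1 : fderiv ℝ (ξ ∘ ψ) (φ x) w = 0
      · have h2 : K * B.b (φ x) w ≠ 0 := fun h2 => hw (himm h w h2 h1)
        have h3 : 0 < |K * B.b (φ x) w| := abs_pos.2 h2
        positivity
      · have h3 : 0 < ‖fderiv ℝ (ξ ∘ ψ) (φ x) w‖ := norm_pos_iff.2 h1
        have h4 : 0 ≤ |K * B.b (φ x) w| / (K * B.b (φ x) (φ x) + dl K) :=
          div_nonneg (abs_nonneg _) hp.le
        linarith) (by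
      intro p c w
      simp only [pow_one]
      exact Nn_smul p c w)
  refine ⟨C, hC, ?_⟩
  filter_upwards [hev, hd, eventually_pos hQ, G.eventually_good h,
    (G.eventually_good h).eventually_nhds] with p h1 h2 h3 h4 h5
  exact ⟨h3, h4.1, h4.2.1, h5.mono fun q hq => hq.2.2, h2,
    fun w => by simpa using (h1 w).1, fun w => by simpa using (h1 w).2⟩

/-- Charts with uniform bounds. -/
structure UCh (G : GX M B K) (ξ : M → F) (C : ℝ) (x : M) (φ : M → W) (ψ : W → M) : Prop where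
  chart : G.chart x φ ψ
  good : ∀ p, ‖p - φ x‖ < C⁻¹ → G.UPt ξ C φ ψ p
  tl : ∃ t, Tan B.b K (φ x) t ∧ B.b t t < 0 ∧ ∀ w, ‖w‖ ^ 2 ≤ C * Bh B.b K (φ x) t w w

theorem UCh.mono {C C' : ℝ} (hC0 : 0 < C) {x : M} {φ : M → W} {ψ : W → M} (h : G.UCh ξ C x φ ψ)
    (hC : C ≤ C') : G.UCh ξ C' x φ ψ := by
  obtain ⟨t, h1, h2, h3⟩ := h.tl
  refine ⟨h.chart, fun p hp => (h.good p (hp.trans_le ?_)).mono hC, t, h1, h2,
    fun w => (h3 w).trans (mul_le_mul_of_nonneg_right hC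
      (Bh_nonneg B.symm (G.onQ h.chart) (G.lor h.chart) h1 h2 w))⟩
  exact inv_anti₀ hC0 hC

theorem eventually_UCh [FiniteDimensional ℝ W] (hξ : G.Smooth ξ) (himm : G.Immersion ξ)
    (hT : G.TimeLike) {x : M} {φ : M → W} {ψ : W → M} (h : G.chart x φ ψ) :
    ∃ C : ℝ, 0 < C ∧ ∀ᶠ x' in 𝓝 x, G.UCh ξ C x' φ ψ := by
  have hφ : Tendsto φ (𝓝 x) (𝓝 (φ x)) := G.cont h
  obtain ⟨C₁, hC₁, h1⟩ := eventually_UPt hξ himm h
  obtain ⟨τ, hτ, hτ'⟩ := hT h
  obtain ⟨C₂, hC₂, h2⟩ := U_Bh B (G.onQ h) (G.lor h) hτ hτ'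
  obtain ⟨ε, hε, h3⟩ := Metric.eventually_nhds_iff_ball.1 h1
  have hC : 0 < C₁ + C₂ + 2 / ε := by positivity
  refine ⟨C₁ + C₂ + 2 / ε, hC, ?_⟩
  filter_upwards [G.nhds h, hφ.eventually h2, hφ.eventually (Metric.ball_mem_nhds _
    (show 0 < ε / 2 by positivity))] with x' h4 h5 h6
  refine ⟨h4, fun p hp => (h3 p ?_).mono ?_, U_tp B.b K τ (φ x'), U_tp_tan (G.onQ h4) τ, h5.1,
    fun w => ((h5.2 w).1).trans (mul_le_mul_of_nonneg_right ?_
      (Bh_nonneg B.symm (G.onQ h4) (G.lor h4) (U_tp_tan (G.onQ h4) τ) h5.1 w))⟩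
  · rw [Metric.mem_ball, dist_eq_norm]
    rw [dist_eq_norm] at h6
    have h7 : (C₁ + C₂ + 2 / ε)⁻¹ ≤ ε / 2 := by
      rw [inv_le_comm₀ hC (by positivity)]
      rw [inv_div]
      linarith
    calc ‖p - φ x‖ = ‖(p - φ x') + (φ x' - φ x)‖ := by congr 1; abel
      _ ≤ ‖p - φ x'‖ + ‖φ x' - φ x‖ := norm_add_le _ _
      _ < ε / 2 + ε / 2 := by linarith
      _ = ε := by ring
  · have : 0 < 2 / ε := by positivity
    linarith
  · have : 0 < 2 / ε := by positivity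
    linarith

theorem exists_UCh [CompactSpace M] [FiniteDimensional ℝ W] (hξ : G.Smooth ξ)
    (himm : G.Immersion ξ) (hT : G.TimeLike) :
    ∃ C : ℝ, 1 ≤ C ∧ ∀ x : M, ∃ φ ψ, G.UCh ξ C x φ ψ := by
  have h1 : ∀ x : M, ∃ C : ℝ, 0 < C ∧ ∀ᶠ x' in 𝓝 x, ∃ φ ψ, G.UCh ξ C x' φ ψ := by
    intro x
    obtain ⟨φ, ψ, h⟩ := G.exists_chart x
    obtain ⟨C, hC0, hC⟩ := eventually_UCh hξ himm hT h
    exact ⟨C, hC0, hC.mono fun x' hx' => ⟨φ, ψ, hx'⟩⟩
  choose C hC0 hC using h1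
  obtain ⟨t, ht⟩ := CompactSpace.elim_nhds_subcover
    (fun x => {x' | ∃ φ ψ, G.UCh ξ (C x) x' φ ψ}) (fun x => hC x)
  refine ⟨1 + ∑ x ∈ t, C x, by
    have : 0 ≤ ∑ x ∈ t, C x := Finset.sum_nonneg fun _ _ => (hC0 _).le
    linarith, fun x => ?_⟩
  have hx : x ∈ (⋃ y ∈ t, {x' | ∃ φ ψ, G.UCh ξ (C y) x' φ ψ}) := by
    rw [ht]; trivial
  simp only [mem_iUnion, mem_ofPred_eq] at hx
  obtain ⟨y, hy, φ, ψ, h⟩ := hx
  refine ⟨φ, ψ, h.mono (hC0 y) ?_⟩
  have h2 : C y ≤ ∑ x ∈ t, C x :=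
    Finset.single_le_sum (f := C) (fun _ _ => (hC0 _).le) hy
  linarith

omit [TopologicalSpace M] in
/-- The norm in a chart. -/
theorem Nn_pull {A : Iso B.b K} {c : ℝ} (hc : 0 < c) (hc' : K = 0 → c = 1) {ψ : W → M} {z : W}
    (hl : ∀ᶠ q in 𝓝 (c • A.act z), ψ (nrm B.b K q) = ψ q)
    (hd : DifferentiableAt ℝ (ξ ∘ ψ) (c • A.act z)) (w : W) :
    Nn B K ξ (fun z' => ψ (nrm B.b K (A.act z'))) z w =
      Nn B K ξ ψ (c • A.act z) (c • A.L w) := by
  have h1 : HasFDerivAt (fun z' => c • A.act z') (c • (A.L : W →L[ℝ] W)) z :=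
    (A.hasFDerivAt_act z).const_smul c
  have h2 : HasFDerivAt (fun z' => (ξ ∘ ψ) (c • A.act z'))
      ((fderiv ℝ (ξ ∘ ψ) (c • A.act z)).comp (c • (A.L : W →L[ℝ] W))) z :=
    HasFDerivAt.comp (g := ξ ∘ ψ) (f := fun z' => c • A.act z') z hd.hasFDerivAt h1
  have h3 : (ξ ∘ fun z' => ψ (nrm B.b K (A.act z'))) =ᶠ[𝓝 z]
      fun z' => (ξ ∘ ψ) (c • A.act z') := by
    have ht : Tendsto (fun z' => c • A.act z') (𝓝 z) (𝓝 (c • A.act z)) :=
      (A.continuous_act.const_smul c).tendsto z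
    filter_upwards [ht.eventually hl] with z' hz'
    simp only [Function.comp_apply]
    rw [← hz']
    by_cases hK : K = 0
    · rw [hc' hK, one_smul]
    · rw [nrm_smul hK hc]
  have h4 := (h2.congr_of_eventuallyEq h3).fderiv
  unfold Nn
  rw [h4]
  have e1 : ((fderiv ℝ (ξ ∘ ψ) (c • A.act z)).comp (c • (A.L : W →L[ℝ] W))) w =
      fderiv ℝ (ξ ∘ ψ) (c • A.act z) (c • A.L w) := by
    simp
  rw [e1]
  congr 1
  by_cases hK : K = 0
  · simp [hK]
  · have hact : ∀ v, A.act v = A.L v := fun v => by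
      unfold Iso.act; rw [A.a_eq_zero hK, add_zero]
    rw [hact, dl_ne hK, add_zero, add_zero]
    simp only [map_smul, smul_apply, smul_eq_mul]
    rw [A.isom, A.isom]
    rw [show K * (c * (c * B.b z w)) = c ^ 2 * (K * B.b z w) by ring,
      show K * (c * (c * B.b z z)) = c ^ 2 * (K * B.b z z) by ring, abs_mul (c ^ 2),
      abs_of_pos (by positivity : 0 < c ^ 2)]
    rw [mul_div_mul_left _ _ (by positivity : c ^ 2 ≠ 0)]

theorem isSec_pull {A : Iso B.b K} {c : ℝ} (hc : 0 < c) (hc' : K = 0 → c = 1) {φ : M → W}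
    {ψ : W → M} {z : W} {C : ℝ} (h : G.UPt ξ C φ ψ (c • A.act z)) :
    G.IsSec (fun z' => ψ (nrm B.b K (A.act z'))) z := by
  have e1 : nrm B.b K (c • A.act z) = nrm B.b K (A.act z) := by
    by_cases hK : K = 0
    · rw [hc' hK, one_smul]
    · rw [nrm_smul hK hc]
  have e2 : ψ (nrm B.b K (A.act z)) = ψ (c • A.act z) := by
    rw [← e1]; exact h.left.self_of_nhds
  have h1 := h.chart
  rw [← e2] at h1
  have h2 := h.right
  rw [← e2, e1] at h2
  have h3 := G.comp h1 A.symm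
  refine ⟨?_, A.symm.act ∘ φ, ψ ∘ A.symm.inv, h3, ?_, ?_⟩
  · have h4 : 0 < K * B.b (c • A.act z) (c • A.act z) + dl K := h.om
    show 0 < K * B.b z z + dl K
    by_cases hK : K = 0
    · simp [hK, dl_zero]
    · rw [dl_ne hK, add_zero] at h4 ⊢
      simp only [map_smul, smul_apply, smul_eq_mul] at h4
      rw [show K * (c * (c * B.b (A.act z) (A.act z))) =
        c ^ 2 * (K * B.b (A.act z) (A.act z)) by ring, A.Kb_act] at h4
      exact pos_of_mul_pos_right h4 (by positivity)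
  · simp only [Function.comp_apply]
    rw [h2, A.nrm_act, A.symm_act, A.inv_act]
  · refine Eventually.of_forall fun z' => ?_
    simp only [Function.comp_apply]
    rw [A.symm_inv, A.nrm_act]

/-- The local data of a section. -/
theorem IsSec.data {C : ℝ} (hC : ∀ x : M, ∃ φ ψ, G.UCh ξ C x φ ψ) {f : W → M} {z : W}
    (hf : G.IsSec f z) : ∃ (φ : M → W) (ψ : W → M) (A : Iso B.b K), G.UCh ξ C (f z) φ ψ ∧
      φ (f z) = A.act (nrm B.b K z) ∧ φ (f z) = (nf B.b K z)⁻¹ • A.act z ∧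
      f =ᶠ[𝓝 z] (fun z' => ψ (nrm B.b K (A.act z'))) := by
  obtain ⟨φ, ψ, h⟩ := hC (f z)
  obtain ⟨A, h1, h2⟩ := hf.eq_chart h.chart
  refine ⟨φ, ψ, A, h, h1, ?_, h2⟩
  rw [h1, ← A.nrm_act]
  unfold nrm
  rw [A.nf_act]

theorem U_ext {C : ℝ} (hC1 : 1 ≤ C) (hC : ∀ x : M, ∃ φ ψ, G.UCh ξ C x φ ψ) {f : W → M} {z : W}
    (hf : G.IsSec f z) : ∃ g : W → M, g =ᶠ[𝓝 z] f ∧
    ∀ z', Nn B K ξ f z (z' - z) < (C ^ 2)⁻¹ → G.IsSec g z' ∧
      ∀ w, Nn B K ξ f z w ≤ C ^ 2 * Nn B K ξ g z' w ∧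
        Nn B K ξ g z' w ≤ C ^ 2 * Nn B K ξ f z w := by
  obtain ⟨φ, ψ, A, hU, -, h2, h3⟩ := hf.data hC
  have hC0 : 0 < C := by linarith
  have hc : 0 < (nf B.b K z)⁻¹ := inv_pos.2 (nf_pos hf.1)
  have hc' : K = 0 → (nf B.b K z)⁻¹ = 1 := by
    intro hK; subst hK; rw [nf_zero, inv_one]
  set c := (nf B.b K z)⁻¹ with hcdef
  have hP : G.UPt ξ C φ ψ (c • A.act z) := by
    refine hU.good _ ?_
    rw [h2, sub_self, norm_zero]
    positivity
  have hN : ∀ w, Nn B K ξ f z w = Nn B K ξ ψ (c • A.act z) (c • A.L w) := fun w => by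
    rw [Nn_congr h3]; exact Nn_pull hc hc' hP.left hP.diff w
  refine ⟨fun z' => ψ (nrm B.b K (A.act z')), h3.symm, fun z' hz' => ?_⟩
  have hP' : G.UPt ξ C φ ψ (c • A.act z') := by
    refine hU.good _ ?_
    have e1 : c • A.act z' - φ (f z) = c • A.L (z' - z) := by
      rw [h2, ← smul_sub]
      unfold Iso.act
      rw [add_sub_add_right_eq_sub, map_sub]
    rw [e1]
    calc ‖c • A.L (z' - z)‖ ≤ C * Nn B K ξ ψ (c • A.act z) (c • A.L (z' - z)) := hP.lo _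
      _ = C * Nn B K ξ f z (z' - z) := by rw [hN]
      _ < C * (C ^ 2)⁻¹ := by gcongr
      _ = C⁻¹ := by field_simp
  have hN' : ∀ w, Nn B K ξ (fun z' => ψ (nrm B.b K (A.act z'))) z' w =
      Nn B K ξ ψ (c • A.act z') (c • A.L w) := fun w => Nn_pull hc hc' hP'.left hP'.diff w
  refine ⟨isSec_pull hc hc' hP', fun w => ?_⟩
  rw [hN, hN']
  constructor
  · calc Nn B K ξ ψ (c • A.act z) (c • A.L w) ≤ C * ‖c • A.L w‖ := hP.up _
      _ ≤ C * (C * Nn B K ξ ψ (c • A.act z') (c • A.L w)) := by gcongr; exact hP'.lo _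
      _ = C ^ 2 * Nn B K ξ ψ (c • A.act z') (c • A.L w) := by ring
  · calc Nn B K ξ ψ (c • A.act z') (c • A.L w) ≤ C * ‖c • A.L w‖ := hP'.up _
      _ ≤ C * (C * Nn B K ξ ψ (c • A.act z) (c • A.L w)) := by gcongr; exact hP.lo _
      _ = C ^ 2 * Nn B K ξ ψ (c • A.act z) (c • A.L w) := by ring

theorem U_bdd {C : ℝ} (hC1 : 1 ≤ C) (hC : ∀ x : M, ∃ φ ψ, G.UCh ξ C x φ ψ) {f : W → M} {z : W}
    (hf : G.IsSec f z) : ∃ C : ℝ, ∀ᶠ z' in 𝓝 z, ∀ w, Nn B K ξ f z' w ≤ C * ‖w‖ := by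
  obtain ⟨φ, ψ, A, hU, -, h2, h3⟩ := hf.data hC
  have hC0 : 0 < C := by linarith
  have hc : 0 < (nf B.b K z)⁻¹ := inv_pos.2 (nf_pos hf.1)
  have hc' : K = 0 → (nf B.b K z)⁻¹ = 1 := by
    intro hK; subst hK; rw [nf_zero, inv_one]
  set c := (nf B.b K z)⁻¹ with hcdef
  refine ⟨C * (c * ‖(A.L : W →L[ℝ] W)‖), ?_⟩
  have ht : Tendsto (fun z' => c • A.act z') (𝓝 z) (𝓝 (φ (f z))) := by
    rw [h2]; exact (A.continuous_act.const_smul c).tendsto z
  filter_upwards [ht.eventually (Metric.ball_mem_nhds _ (inv_pos.2 hC0)), h3.eventually_nhds]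
    with z' h4 h5 w
  rw [dist_eq_norm] at h4
  have hP := hU.good _ h4
  rw [Nn_congr h5, Nn_pull hc hc' hP.left hP.diff w]
  calc Nn B K ξ ψ (c • A.act z') (c • A.L w) ≤ C * ‖c • A.L w‖ := hP.up _
    _ = C * (c * ‖(A.L : W →L[ℝ] W) w‖) := by
        rw [norm_smul, Real.norm_of_nonneg hc.le]; rfl
    _ ≤ C * (c * (‖(A.L : W →L[ℝ] W)‖ * ‖w‖)) := by
        gcongr; exact (A.L : W →L[ℝ] W).le_opNorm w
    _ = C * (c * ‖(A.L : W →L[ℝ] W)‖) * ‖w‖ := by ring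

theorem U_disc [FiniteDimensional ℝ W] (hdim : 2 + (if K = 0 then 0 else 1) ≤ finrank ℝ W)
    {C : ℝ} (hC1 : 1 ≤ C) (hC : ∀ x : M, ∃ φ ψ, G.UCh ξ C x φ ψ) {a : W} (ha : a ∈ Om B.b K)
    (h : ∃ τ, Tan B.b K (nrm B.b K a) τ ∧ B.b τ τ < 0) :
    ∃ ρ > 0, ∀ᶠ z in 𝓝 a, ∀ f : W → M, G.IsSec f z →
      ∃ ν : W, ‖ν‖ = 1 ∧ B.b ν ν = 0 ∧ K * B.b ν z = 0 ∧
        ∀ w, B.b ν w = 0 → ρ * Nn B K ξ f z w ≤ ‖w‖ := by
  obtain ⟨t₀, ht₀, ht₀'⟩ := h
  have hC0 : 0 < C := by linarith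
  have hcn : ContinuousAt (nrm B.b K) a := continuousAt_nrm ha
  obtain ⟨C₁, hC₁, hev⟩ := U_upper (N := fun p w => Bh B.b K p (U_tp B.b K t₀ p) w w)
    (x₀ := nrm B.b K a) two_ne_zero (U_Bh_continuousAt B ht₀ ht₀')
    (fun p c w => U_Bh_hom _ _ _ _ c w)
  have hbc : Continuous fun p => B.b (U_tp B.b K t₀ p) (U_tp B.b K t₀ p) := by
    have htc := U_tp_continuous B.b K t₀
    fun_prop
  have h0 : ∀ᶠ p in 𝓝 (nrm B.b K a), B.b (U_tp B.b K t₀ p) (U_tp B.b K t₀ p) < 0 := by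
    refine (hbc.tendsto _).eventually (gt_mem_nhds ?_)
    rw [U_tp_self ht₀]; exact ht₀'
  have hnf : ∀ᶠ z in 𝓝 a, (nf B.b K z)⁻¹ < (nf B.b K a)⁻¹ + 1 :=
    (continuousAt_nf.inv₀ (nf_pos ha).ne').eventually (gt_mem_nhds (lt_add_one _))
  set cm : ℝ := (nf B.b K a)⁻¹ + 1 with hcm
  have hcm0 : 0 < cm := by
    have := inv_pos.2 (nf_pos ha)
    linarith
  have hR : 0 < C * (cm * (C * C₁ + 1)) := by positivity
  refine ⟨(C * (cm * (C * C₁ + 1)))⁻¹, inv_pos.2 hR, ?_⟩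
  filter_upwards [hcn.eventually hev, hcn.eventually h0, hnf, (isOpen_Om B.b K).mem_nhds ha]
    with z h1 h2 h3 hz f hf
  obtain ⟨φ, ψ, A, hU, h4, h5, h6⟩ := hf.data hC
  have hc : 0 < (nf B.b K z)⁻¹ := inv_pos.2 (nf_pos hf.1)
  have hc' : K = 0 → (nf B.b K z)⁻¹ = 1 := by
    intro hK; subst hK; rw [nf_zero, inv_one]
  set c := (nf B.b K z)⁻¹ with hcdef
  set y := nrm B.b K z with hy
  have hQ : OnQ B.b K y := onQ_nrm hz
  have hl : LorAt B.b K y := by
    obtain ⟨-, φ₁, ψ₁, h7, h8, -⟩ := hf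
    have := G.lor h7
    rwa [h8] at this
  obtain ⟨t', ht', htt', hb⟩ := hU.tl
  rw [h4] at ht' hb
  obtain ⟨τ, rfl⟩ : ∃ τ, t' = A.L τ := ⟨A.L.symm t', (A.L.apply_symm_apply t').symm⟩
  rw [A.tan_act] at ht'
  rw [A.isom] at htt'
  obtain ⟨ν, hν0, hν1, hν2, hν3⟩ := U_null B hdim hl ht' htt' (U_tp_tan hQ t₀) h2
  have hνn : 0 < ‖ν‖ := norm_pos_iff.2 hν0
  refine ⟨‖ν‖⁻¹ • ν, ?_, ?_, ?_, fun w hw => ?_⟩
  · rw [norm_smul, norm_inv, norm_norm, inv_mul_cancel₀ hνn.ne']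
  · simp only [map_smul, smul_apply, smul_eq_mul, hν1, mul_zero]
  · have e1 : K * B.b z ν = 0 := by
      unfold Tan at hν2
      rw [hy] at hν2
      unfold nrm at hν2
      simp only [map_smul, smul_apply, smul_eq_mul] at hν2
      rw [← hcdef, mul_left_comm] at hν2
      exact (mul_eq_zero.1 hν2).resolve_left hc.ne'
    simp only [map_smul, smul_apply, smul_eq_mul]
    rw [B.symm ν z]
    linear_combination ‖ν‖⁻¹ * e1
  · have hw' : B.b ν w = 0 := by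
      simp only [map_smul, smul_apply, smul_eq_mul] at hw
      exact (mul_eq_zero.1 hw).resolve_left (inv_pos.2 hνn).ne'
    have hP : G.UPt ξ C φ ψ (c • A.act z) := by
      refine hU.good _ ?_
      rw [h5, sub_self, norm_zero]
      positivity
    have hN : Nn B K ξ f z w ≤ C * (c * ‖A.L w‖) := by
      rw [Nn_congr h6, Nn_pull hc hc' hP.left hP.diff w]
      have := hP.up (c • A.L w)
      rwa [norm_smul, Real.norm_of_nonneg hc.le] at this
    have hA : ‖A.L w‖ ^ 2 ≤ ((C * C₁ + 1) * ‖w‖) ^ 2 := by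
      have e1 := hb (A.L w)
      rw [U_Bh_act] at e1
      have e2 := hν3 w hw'
      have e3 := h1 w
      have e4 : ‖A.L w‖ ^ 2 ≤ C * (C₁ * ‖w‖ ^ 2) := e1.trans (by gcongr; exact e2.trans e3)
      have e5 : 0 < C * C₁ := by positivity
      have e6 := sq_nonneg ‖w‖
      calc ‖A.L w‖ ^ 2 ≤ C * (C₁ * ‖w‖ ^ 2) := e4
        _ = (C * C₁) * ‖w‖ ^ 2 := by ring
        _ ≤ (C * C₁ + 1) ^ 2 * ‖w‖ ^ 2 := by gcongr; nlinarith
        _ = ((C * C₁ + 1) * ‖w‖) ^ 2 := by ring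
    have hA' : ‖A.L w‖ ≤ (C * C₁ + 1) * ‖w‖ :=
      le_of_sq_le_sq hA (by positivity)
    rw [inv_mul_le_iff₀ hR]
    calc Nn B K ξ f z w ≤ C * (c * ‖A.L w‖) := hN
      _ ≤ C * (cm * ((C * C₁ + 1) * ‖w‖)) := by gcongr
      _ = C * (cm * (C * C₁ + 1)) * ‖w‖ := by ring

theorem exists_tools [CompactSpace M] [T2Space M] [FiniteDimensional ℝ W] (hξ : G.Smooth ξ)
    (himm : G.Immersion ξ) (hT : G.TimeLike)
    (hdim : 2 + (if K = 0 then 0 else 1) ≤ finrank ℝ W) : ∃ r L, G.Tools ξ r L := by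
  obtain ⟨C, hC1, hC⟩ := exists_UCh hξ himm hT
  have hC0 : 0 < C := by linarith
  refine ⟨(C ^ 2)⁻¹, C ^ 2, by positivity, by nlinarith, fun hf => U_ext hC1 hC hf,
    fun a ha h => U_disc hdim hC1 hC ha h, fun hf => U_bdd hC1 hC hf⟩

end GX

end Pool.H1.Lor
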