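import Pool.Agent.H1.CK.Sec
import Pool.Agent.H1.CK.U

/-! # Half-disc lemma and triangle lemma (module AB) -/

namespace Pool.H1.Lor

open Filter Topology Set

variable {W : Type*} [NormedAddCommGroup W] [NormedSpace ℝ W]
  {F : Type*} [NormedAddCommGroup F] [InnerProductSpace ℝ F]

namespace GX

variable {M : Type*} [TopologicalSpace M] {B : Form W} {K : ℝ} {G : GX M B K} {ξ : M → F}
  {f g : W → M} {y z a : W} {r L : ℝ}

theorem AB_Nn_zero (z : W) : Nn B K ξ f z 0 = 0 := by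
  have := Nn_smul (B := B) (K := K) (ξ := ξ) (f := f) z 0 0
  rwa [abs_zero, zero_mul, smul_zero] at this

theorem Tools.ellipsoid_convex (T : G.Tools ξ r L) (hf : G.IsSec f z) :
    Convex ℝ {z' | Nn B K ξ f z (z' - z) < r} := by
  have hz : z ∈ Om B.b K := hf.1
  rw [convex_iff_forall_pos]
  intro z1 h1 z2 h2 a b ha hb hab
  simp only [mem_ofPred_eq] at h1 h2 ⊢
  have e : a • z1 + b • z2 - z = a • (z1 - z) + b • (z2 - z) := by
    have : z = a • z + b • z := by rw [← add_smul, hab, one_smul]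
    rw [smul_sub, smul_sub]
    nth_rw 1 [this]
    abel
  rw [e]
  calc _ ≤ Nn B K ξ f z (a • (z1 - z)) + Nn B K ξ f z (b • (z2 - z)) := Nn_add_le hz _ _
    _ = a * Nn B K ξ f z (z1 - z) + b * Nn B K ξ f z (z2 - z) := by
        rw [Nn_smul, Nn_smul, abs_of_pos ha, abs_of_pos hb]
    _ < a * r + b * r :=
        add_lt_add (mul_lt_mul_of_pos_left h1 ha) (mul_lt_mul_of_pos_left h2 hb)
    _ = r := by rw [← add_mul, hab, one_mul]

theorem Tools.AB_seg (T : G.Tools ξ r L) {p q : W} (hf : G.IsSec f p)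
    (h : Nn B K ξ f p (q - p) < r) : ∀ x ∈ segment ℝ p q, Nn B K ξ f p (x - p) < r := by
  intro x hx
  have hp : p ∈ {z' | Nn B K ξ f p (z' - p) < r} := by
    simp only [mem_ofPred_eq, sub_self, AB_Nn_zero]
    exact T.rpos
  exact (T.ellipsoid_convex hf).segment_subset hp h hx

/-- Norms blow up at boundary points. -/
theorem Tools.blowup [T2Space M] (T : G.Tools ξ r L) (hbd : G.Bd f y a) {t : ℝ}
    (ht : t ∈ Ico (0 : ℝ) 1) :
    r ≤ Nn B K ξ (G.Fm f y) (y + t • (a - y)) (a - (y + t • (a - y))) := by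
  by_contra hlt
  rw [not_le] at hlt
  have hpv : y + t • (a - y) ∈ G.Vis f y := hbd.vis t ht
  have hsec := Fm_isSec hpv
  obtain ⟨g, hg, hgs⟩ := T.ext hsec
  apply hbd.nmem
  exact (Vis_ext hbd.vis ht (fun q hq => (hgs q (T.AB_seg hsec hlt q hq)).1) hg).1

/-- If a null disc section point is visible, the norms are bounded: comparison of the norms at
the two ends of a short visible segment. -/
theorem Tools.compare [T2Space M] (T : G.Tools ξ r L) {p w : W}
    (hseg : segment ℝ p (p + w) ⊆ G.Vis f y) (hw : Nn B K ξ (G.Fm f y) p w < r) (v : W) :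
    Nn B K ξ (G.Fm f y) p v ≤ L * Nn B K ξ (G.Fm f y) (p + w) v := by
  have hpv : p ∈ G.Vis f y := hseg (left_mem_segment ℝ p (p + w))
  have hsec := Fm_isSec hpv
  obtain ⟨g, hg, hgs⟩ := T.ext hsec
  have hin := T.AB_seg (q := p + w) hsec (by rwa [add_sub_cancel_left])
  have huniq := IsSec.uniq (convex_segment p (p + w)).isPreconnected
    (fun q hq => Fm_isSec (hseg hq)) (fun q hq => (hgs q (hin q hq)).1)
    (left_mem_segment ℝ p (p + w)) hg.symm
  have h1 := huniq (p + w) (right_mem_segment ℝ p (p + w))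
  have h2 := ((hgs (p + w) (hin _ (right_mem_segment ℝ p (p + w)))).2 v).1
  rw [Nn_congr h1 v]
  exact h2

/-- the timelike vector at points of `Om`. -/
theorem AB_timelike (hT : G.TimeLike) (hf : G.IsSec f y) {p : W} (hp : p ∈ Om B.b K) :
    ∃ τ, Tan B.b K (nrm B.b K p) τ ∧ B.b τ τ < 0 := by
  obtain ⟨-, φ, ψ, hch, -, -⟩ := hf
  exact timelike_everywhere B (G.onQ hch) (hT hch) hp

/-- A linear functional on the plane has a zero on a half sphere. -/
theorem AB_kernel (a b : ℝ) {κ : ℝ} (hκ : 0 < κ) :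
    ∃ q : ℝ × ℝ, ‖q‖ = κ ∧ 0 ≤ q.2 ∧ a * q.1 + b * q.2 = 0 := by
  by_cases hab : a = 0 ∧ b = 0
  · refine ⟨(κ, 0), ?_, le_rfl, ?_⟩
    · rw [Prod.norm_mk, norm_zero, Real.norm_of_nonneg hκ.le, max_eq_left hκ.le]
    · rw [hab.1, hab.2]; ring
  · have hne : ((b, -a) : ℝ × ℝ) ≠ 0 := by
      intro h
      rw [Prod.mk_eq_zero, neg_eq_zero] at h
      exact hab ⟨h.2, h.1⟩
    have hn : 0 < ‖((b, -a) : ℝ × ℝ)‖ := norm_pos_iff.2 hne
    rcases le_total a 0 with ha | ha
    · refine ⟨(κ / ‖((b, -a) : ℝ × ℝ)‖) • ((b, -a) : ℝ × ℝ), ?_, ?_, ?_⟩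
      · rw [norm_smul, Real.norm_of_nonneg (by positivity), div_mul_cancel₀ _ hn.ne']
      · have : 0 ≤ -a := by linarith
        exact mul_nonneg (by positivity) this
      · simp only [Prod.smul_mk, smul_eq_mul]; ring
    · refine ⟨-((κ / ‖((b, -a) : ℝ × ℝ)‖) • ((b, -a) : ℝ × ℝ)), ?_, ?_, ?_⟩
      · rw [norm_neg, norm_smul, Real.norm_of_nonneg (by positivity), div_mul_cancel₀ _ hn.ne']
      · simp only [Prod.smul_mk, smul_eq_mul, Prod.neg_mk, mul_neg, neg_neg]
        positivity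
      · simp only [Prod.smul_mk, smul_eq_mul, Prod.neg_mk]; ring

theorem Tools.half_disc [T2Space M] [FiniteDimensional ℝ W] (T : G.Tools ξ r L)
    (hT : G.TimeLike) (hf : G.IsSec f y) {p u : W}
    (hp : p ∈ Om B.b K) (hvis : ∀ t ∈ Ico (0 : ℝ) 1, y + t • (p - y) ∈ G.Vis f y)
    (hlin : LinearIndependent ℝ ![u, y - p]) {κ : ℝ} (hκ : 0 < κ)
    (hd : ∀ α β : ℝ, |α| ≤ κ → 0 ≤ β → β ≤ κ → (α ≠ 0 ∨ β ≠ 0) →
      p + α • u + β • (y - p) ∈ G.Vis f y) : p ∈ G.Vis f y := by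
  by_contra hnot
  have hbd : G.Bd f y p := ⟨hp, hnot, hvis⟩
  obtain ⟨ρ, hρ, hdisc⟩ := T.disc p hp (AB_timelike hT hf hp)
  set v := y - p with hv
  -- the size of the disc
  obtain ⟨κ', hκ'0, hκ'κ, hκ'r⟩ : ∃ κ' : ℝ, 0 < κ' ∧ κ' ≤ κ / 2 ∧ κ' * (‖u‖ + ‖v‖) < ρ * r := by
    have h1 : 0 < ρ * r := mul_pos hρ T.rpos
    have h2 : 0 < ‖u‖ + ‖v‖ + 1 := by positivity
    refine ⟨min (κ / 2) (ρ * r / (‖u‖ + ‖v‖ + 1)), lt_min (by positivity) (by positivity),
      min_le_left _ _, ?_⟩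
    calc min (κ / 2) (ρ * r / (‖u‖ + ‖v‖ + 1)) * (‖u‖ + ‖v‖)
        ≤ ρ * r / (‖u‖ + ‖v‖ + 1) * (‖u‖ + ‖v‖) := by
          gcongr; exact min_le_right _ _
      _ < ρ * r / (‖u‖ + ‖v‖ + 1) * (‖u‖ + ‖v‖ + 1) :=
          mul_lt_mul_of_pos_left (by linarith) (by positivity)
      _ = ρ * r := by field_simp
  let S : Set (ℝ × ℝ) := Metric.sphere (0 : ℝ × ℝ) κ' ∩ {q | 0 ≤ q.2}
  have hScomp : IsCompact S :=
    (isCompact_sphere (0 : ℝ × ℝ) κ').inter_right (isClosed_le continuous_const continuous_snd)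
  have hSn : ∀ q ∈ S, |q.1| ≤ κ' ∧ 0 ≤ q.2 ∧ q.2 ≤ κ' ∧ (q.1 ≠ 0 ∨ q.2 ≠ 0) := by
    rintro q ⟨h1, h2⟩
    rw [mem_sphere_zero_iff_norm] at h1
    have h3 := norm_fst_le q
    have h4 := norm_snd_le q
    rw [h1, Real.norm_eq_abs] at h3 h4
    refine ⟨h3, h2, (le_abs_self _).trans h4, ?_⟩
    by_contra hcon
    push Not at hcon
    have : q = 0 := Prod.ext hcon.1 hcon.2
    rw [this, norm_zero] at h1
    exact hκ'0.ne h1
  -- the key inequality
  have key : ∀ᶠ ε in 𝓝[>] (0 : ℝ), ∃ q ∈ S,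
      r ≤ L * Nn B K ξ (G.Fm f y) (p + ε • v + (q.1 • u + q.2 • v)) (-(ε • v)) := by
    have htend : Tendsto (fun ε : ℝ => p + ε • v) (𝓝[>] (0 : ℝ)) (𝓝 p) := by
      have : Tendsto (fun ε : ℝ => p + ε • v) (𝓝 (0 : ℝ)) (𝓝 (p + (0 : ℝ) • v)) :=
        (Continuous.tendsto (by fun_prop) 0)
      rw [zero_smul, add_zero] at this
      exact this.mono_left nhdsWithin_le_nhds
    filter_upwards [htend.eventually hdisc, self_mem_nhdsWithin,
      mem_nhdsWithin_of_mem_nhds (gt_mem_nhds (show (0 : ℝ) < min (κ / 2) 1 by positivity))]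
      with ε h1 h2 h3
    have hε0 : 0 < ε := h2
    have hεκ : ε < κ / 2 := lt_of_lt_of_le h3 (min_le_left _ _)
    have hε1 : ε < 1 := lt_of_lt_of_le h3 (min_le_right _ _)
    have hz : p + ε • v = y + (1 - ε) • (p - y) := by
      rw [hv, sub_smul, one_smul, smul_sub, smul_sub]; abel
    have ht : (1 - ε) ∈ Ico (0 : ℝ) 1 := ⟨by linarith, by linarith⟩
    have hzv : p + ε • v ∈ G.Vis f y := by rw [hz]; exact hvis _ ht
    obtain ⟨ν, -, -, -, hν⟩ := h1 _ (Fm_isSec hzv)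
    obtain ⟨q, hq1, hq2, hq3⟩ := AB_kernel (B.b ν u) (B.b ν v) hκ'0
    have hqS : q ∈ S := ⟨mem_sphere_zero_iff_norm.2 hq1, hq2⟩
    obtain ⟨hq4, -, hq5, hq6⟩ := hSn q hqS
    refine ⟨q, hqS, ?_⟩
    set w := q.1 • u + q.2 • v with hw
    have hbw : B.b ν w = 0 := by
      rw [hw, map_add, map_smul, map_smul, smul_eq_mul, smul_eq_mul]
      linarith
    have hwn : ‖w‖ ≤ κ' * (‖u‖ + ‖v‖) := by
      calc ‖w‖ ≤ ‖q.1 • u‖ + ‖q.2 • v‖ := norm_add_le _ _
        _ = |q.1| * ‖u‖ + |q.2| * ‖v‖ := by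
            rw [norm_smul, norm_smul, Real.norm_eq_abs, Real.norm_eq_abs]
        _ ≤ κ' * ‖u‖ + κ' * ‖v‖ := by
            rw [abs_of_nonneg hq2]
            gcongr
        _ = _ := by ring
    have hNw : Nn B K ξ (G.Fm f y) (p + ε • v) w < r := by
      have h5 := hν w hbw
      have h6 : ρ * Nn B K ξ (G.Fm f y) (p + ε • v) w < ρ * r :=
        lt_of_le_of_lt (h5.trans hwn) hκ'r
      exact lt_of_mul_lt_mul_left h6 hρ.le
    have hseg : segment ℝ (p + ε • v) (p + ε • v + w) ⊆ G.Vis f y := by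
      intro x hx
      rw [segment_eq_image'] at hx
      obtain ⟨s, ⟨hs0, hs1⟩, rfl⟩ := hx
      have e : p + ε • v + s • (p + ε • v + w - (p + ε • v)) =
          p + (s * q.1) • u + (ε + s * q.2) • v := by
        rw [add_sub_cancel_left, hw, smul_add, smul_smul, smul_smul, add_smul]; abel
      simp only [e]
      apply hd
      · rw [abs_mul, abs_of_nonneg hs0]
        calc s * |q.1| ≤ 1 * κ' := by gcongr
          _ ≤ κ := by linarith
      · positivity
      · have : s * q.2 ≤ 1 * κ' := by gcongr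
        linarith
      · right
        have : 0 ≤ s * q.2 := mul_nonneg hs0 hq2
        linarith
    have h7 := T.compare hseg hNw (-(ε • v))
    have h8 := T.blowup hbd ht
    rw [← hz, sub_add_cancel_left] at h8
    exact h8.trans h7
  -- take a limit
  obtain ⟨e, he⟩ := exists_seq_tendsto (𝓝[>] (0 : ℝ))
  obtain ⟨N, hN⟩ := eventually_atTop.1 (he.eventually key)
  have hN' : ∀ n, ∃ q ∈ S, r ≤ L * Nn B K ξ (G.Fm f y)
      (p + e (n + N) • v + (q.1 • u + q.2 • v)) (-(e (n + N) • v)) := fun n => hN _ (by omega)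
  choose q hqS hq using hN'
  obtain ⟨q₀, hq₀, φ, hφ, hlim⟩ := hScomp.tendsto_subseq hqS
  obtain ⟨h1, h2, h3, h4⟩ := hSn q₀ hq₀
  have hc : p + q₀.1 • u + q₀.2 • v ∈ G.Vis f y :=
    hd _ _ (by linarith) h2 (by linarith) h4
  obtain ⟨C, hC⟩ := T.bdd (Fm_isSec hc)
  have he0 : Tendsto (fun n => e (φ n + N)) atTop (𝓝 0) :=
    ((he.mono_right nhdsWithin_le_nhds).comp (tendsto_add_atTop_nat N)).comp hφ.tendsto_atTop
  have hx : Tendsto (fun n => p + e (φ n + N) • v + ((q (φ n)).1 • u + (q (φ n)).2 • v)) atTop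
      (𝓝 (p + q₀.1 • u + q₀.2 • v)) := by
    have hl1 : Tendsto (fun n => (q (φ n)).1) atTop (𝓝 q₀.1) :=
      (continuous_fst.tendsto q₀).comp hlim
    have hl2 : Tendsto (fun n => (q (φ n)).2) atTop (𝓝 q₀.2) :=
      (continuous_snd.tendsto q₀).comp hlim
    have := (tendsto_const_nhds (x := p)).add (he0.smul_const v) |>.add
      ((hl1.smul_const u).add (hl2.smul_const v))
    rw [zero_smul, add_zero, ← add_assoc] at this
    exact this
  have hfin : ∀ᶠ n in atTop, r ≤ L * (C * ‖-(e (φ n + N) • v)‖) := by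
    filter_upwards [hx.eventually hC] with n hn
    exact (hq (φ n)).trans (mul_le_mul_of_nonneg_left (hn _) (by linarith [T.Lpos]))
  have hlim0 : Tendsto (fun n => L * (C * ‖-(e (φ n + N) • v)‖)) atTop (𝓝 (L * (C * ‖-((0:ℝ) • v)‖))) :=
    ((he0.smul_const v).neg.norm.const_mul C).const_mul L
  have := ge_of_tendsto hlim0 hfin
  rw [zero_smul, neg_zero, norm_zero, mul_zero, mul_zero] at this
  exact absurd T.rpos (not_lt.2 this)

/-- points of a triangle. -/
theorem AB_hull {y z₀ z₁ x : W} : x ∈ convexHull ℝ {y, z₀, z₁} ↔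
    ∃ X Y : ℝ, |X| ≤ Y ∧ Y ≤ 1 ∧
      x = y + Y • ((1 / 2 : ℝ) • (z₀ + z₁) - y) + X • ((1 / 2 : ℝ) • (z₁ - z₀)) := by
  rw [convexHull_insert (Set.insert_nonempty _ _), convexHull_pair, mem_convexJoin]
  constructor
  · rintro ⟨y', hy', q, hq, hx⟩
    rw [mem_singleton_iff] at hy'
    subst hy'
    rw [segment_eq_image'] at hq hx
    obtain ⟨τ, ⟨hτ0, hτ1⟩, rfl⟩ := hq
    obtain ⟨s, ⟨hs0, hs1⟩, rfl⟩ := hx
    refine ⟨s * (2 * τ - 1), s, ?_, hs1, ?_⟩
    · rw [abs_mul, abs_of_nonneg hs0]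
      have : |2 * τ - 1| ≤ 1 := by rw [abs_le]; constructor <;> linarith
      nlinarith
    · module
  · rintro ⟨X, Y, h1, h2, rfl⟩
    have hY0 : 0 ≤ Y := (abs_nonneg X).trans h1
    rcases hY0.eq_or_lt with h | h
    · have hX : X = 0 := by
        rw [← h] at h1
        exact abs_nonpos_iff.1 h1
      refine ⟨y, mem_singleton y, z₀, left_mem_segment ℝ z₀ z₁, ?_⟩
      rw [← h, hX, zero_smul, zero_smul, add_zero, add_zero]
      exact left_mem_segment ℝ y z₀
    · obtain ⟨h3, h4⟩ := abs_le.1 h1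
      refine ⟨y, mem_singleton y, z₀ + ((X / Y + 1) / 2) • (z₁ - z₀), ?_, ?_⟩
      · rw [segment_eq_image']
        refine ⟨(X / Y + 1) / 2, ⟨?_, ?_⟩, rfl⟩
        · have : -1 ≤ X / Y := by rw [le_div_iff₀ h]; linarith
          linarith
        · have : X / Y ≤ 1 := by rw [div_le_iff₀ h]; linarith
          linarith
      · rw [segment_eq_image']
        refine ⟨Y, ⟨h.le, h2⟩, ?_⟩
        have e : X = Y * (X / Y) := by field_simp
        generalize X / Y = τ at e
        subst e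
        module

theorem AB_collinear {z₀ z₁ : W} (h0 : z₀ ∈ G.Vis f y) (h1 : z₁ ∈ G.Vis f y) {c : ℝ}
    (hc : z₁ - y = c • (z₀ - y)) {α β : ℝ} (hα : 0 ≤ α) (hβ : 0 ≤ β) (hαβ : α + β ≤ 1) :
    y + α • (z₀ - y) + β • (z₁ - y) ∈ G.Vis f y := by
  have e : y + α • (z₀ - y) + β • (z₁ - y) = y + (α + β * c) • (z₀ - y) := by
    rw [hc]; module
  rcases lt_or_ge (α + β * c) 0 with h | h
  · -- `c < 0`
    have hc0 : c < 0 := by
      by_contra hcc
      rw [not_lt] at hcc
      have := mul_nonneg hβ hcc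
      linarith
    have e2 : y + (α + β * c) • (z₀ - y) = y + ((α + β * c) / c) • (z₁ - y) := by
      rw [hc, smul_smul, div_mul_cancel₀ _ hc0.ne]
    rw [e, e2]
    apply Vis_segment h1
    rw [segment_eq_image']
    refine ⟨(α + β * c) / c, ⟨(div_pos_of_neg_of_neg h hc0).le, ?_⟩, rfl⟩
    have : (α + β * c) / c = α / c + β := by
      rw [add_div, mul_div_assoc, div_self hc0.ne, mul_one]
    rw [this]
    have : α / c ≤ 0 := div_nonpos_of_nonneg_of_nonpos hα hc0.le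
    linarith
  · rcases le_or_gt (α + β * c) 1 with h' | h'
    · rw [e]
      apply Vis_segment h0
      rw [segment_eq_image']
      exact ⟨α + β * c, ⟨h, h'⟩, rfl⟩
    · have hc1 : 1 < c := by
        by_contra hcc
        rw [not_lt] at hcc
        have : β * c ≤ β * 1 := mul_le_mul_of_nonneg_left hcc hβ
        linarith
      have hc0 : 0 < c := by linarith
      have e2 : y + (α + β * c) • (z₀ - y) = y + ((α + β * c) / c) • (z₁ - y) := by
        rw [hc, smul_smul, div_mul_cancel₀ _ hc0.ne']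
      rw [e, e2]
      apply Vis_segment h1
      rw [segment_eq_image']
      refine ⟨(α + β * c) / c, ⟨by positivity, ?_⟩, rfl⟩
      have : (α + β * c) / c = α / c + β := by field_simp
      rw [this]
      have : α / c ≤ α := div_le_self hα hc1.le
      linarith

theorem Tools.triangle [T2Space M] [FiniteDimensional ℝ W] (T : G.Tools ξ r L)
    (hT : G.TimeLike) (hf : G.IsSec f y) {z₀ z₁ : W}
    (h0 : z₀ ∈ G.Vis f y) (h1 : z₁ ∈ G.Vis f y)
    (hsub : convexHull ℝ {y, z₀, z₁} ⊆ Om B.b K) : convexHull ℝ {y, z₀, z₁} ⊆ G.Vis f y := by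
  intro x₀ hx₀
  rw [AB_hull] at hx₀
  obtain ⟨X₀, Y₀, hXY₀, hY₀, rfl⟩ := hx₀
  set m : W := (1 / 2 : ℝ) • (z₀ + z₁) - y with hm
  set u : W := (1 / 2 : ℝ) • (z₁ - z₀) with hu
  have hz0 : z₀ - y = m - u := by rw [hm, hu]; module
  have hz1 : z₁ - y = m + u := by rw [hm, hu]; module
  by_cases hli : LinearIndependent ℝ ![u, m]
  swap
  · -- collinear case
    rw [LinearIndependent.pair_iff] at hli
    push Not at hli
    obtain ⟨s, t, hst, hne⟩ := hli
    obtain ⟨hX1, hX2⟩ := abs_le.1 hXY₀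
    -- `c0 (z₀ - y) + c1 (z₁ - y) = 0`
    have hrel : ((t - s) / 2) • (z₀ - y) + ((t + s) / 2) • (z₁ - y) = 0 := by
      rw [hz0, hz1, ← hst]; module
    by_cases hts : t + s = 0
    · have hts' : t - s ≠ 0 := by
        intro h
        have hs0 : s = 0 := by linarith
        exact hne hs0 (by linarith)
      have hcol : z₀ - y = (0 : ℝ) • (z₁ - y) := by
        rw [hts, zero_div, zero_smul, add_zero] at hrel
        rw [zero_smul]
        exact (smul_eq_zero.1 hrel).resolve_left (div_ne_zero hts' two_ne_zero)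
      have := AB_collinear h1 h0 hcol (α := (Y₀ + X₀) / 2) (β := (Y₀ - X₀) / 2)
        (by linarith) (by linarith) (by linarith)
      rw [hz0, hz1] at this
      convert this using 1
      module
    · have hcol : z₁ - y = (-(t - s) / (t + s)) • (z₀ - y) := by
        have h2 : ((t + s) / 2) • (z₁ - y) = (-(t - s) / 2) • (z₀ - y) := by
          rw [eq_comm, ← sub_eq_zero, ← neg_eq_zero, ← hrel]; module
        have h3 : z₁ - y = (2 / (t + s)) • (((t + s) / 2) • (z₁ - y)) := by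
          rw [smul_smul]
          have : 2 / (t + s) * ((t + s) / 2) = 1 := by field_simp
          rw [this, one_smul]
        rw [h3, h2, smul_smul]
        congr 1
        field_simp
      have := AB_collinear h0 h1 hcol (α := (Y₀ - X₀) / 2) (β := (Y₀ + X₀) / 2)
        (by linarith) (by linarith) (by linarith)
      rw [hz0, hz1] at this
      convert this using 1
      module
  -- main case
  let P : ℝ × ℝ → W := fun x => y + x.2 • m + x.1 • u
  have hPc : Continuous P := by fun_prop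
  have hPt : ∀ (t : ℝ) (x : ℝ × ℝ), y + t • (P x - y) = P (t * x.1, t * x.2) := by
    intro t x
    simp only [P]; module
  have hP0 : P (-1, 1) = z₀ := by
    have : z₀ = y + (m - u) := by rw [← hz0]; abel
    rw [this]; simp only [P]; module
  have hP1 : P (1, 1) = z₁ := by
    have : z₁ = y + (m + u) := by rw [← hz1]; abel
    rw [this]; simp only [P]; module
  -- (B)
  obtain ⟨δ₁, hδ₁, hB⟩ : ∃ δ₁ : ℝ, 0 < δ₁ ∧ ∀ X Y : ℝ, |(|X|) - 1| < δ₁ → |Y - 1| < δ₁ →
      P (X, Y) ∈ G.Vis f y := by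
    have ho : IsOpen (P ⁻¹' (G.Vis f y)) := (isOpen_Vis G f y).preimage hPc
    obtain ⟨a, ha, ha'⟩ := Metric.isOpen_iff.1 ho (-1, 1) (by
      rw [mem_preimage, hP0]; exact h0)
    obtain ⟨b, hb, hb'⟩ := Metric.isOpen_iff.1 ho (1, 1) (by
      rw [mem_preimage, hP1]; exact h1)
    refine ⟨min a b, lt_min ha hb, fun X Y hX hY => ?_⟩
    rcases le_total 0 X with hX0 | hX0
    · rw [abs_of_nonneg hX0] at hX
      apply hb'
      rw [Metric.mem_ball, Prod.dist_eq, max_lt_iff, Real.dist_eq, Real.dist_eq]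
      exact ⟨hX.trans_le (min_le_right _ _), hY.trans_le (min_le_right _ _)⟩
    · rw [abs_of_nonpos hX0] at hX
      apply ha'
      rw [Metric.mem_ball, Prod.dist_eq, max_lt_iff, Real.dist_eq, Real.dist_eq]
      refine ⟨?_, hY.trans_le (min_le_left _ _)⟩
      have : |X - -1| = |-X - 1| := by rw [← abs_neg]; congr 1; ring
      change |X - -1| < a
      rw [this]
      exact hX.trans_le (min_le_left _ _)
  -- (A)
  obtain ⟨ε, hε, hA⟩ : ∃ ε : ℝ, 0 < ε ∧ ∀ x : ℝ × ℝ, |x.1| ≤ x.2 → x.2 ≤ 1 → ∀ w : W,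
      ‖w - P x‖ < ε → w ∈ Om B.b K := by
    let Tr : Set (ℝ × ℝ) := {x | |x.1| ≤ x.2} ∩ {x | x.2 ≤ 1}
    have hTc : IsCompact Tr := by
      apply (isCompact_closedBall (0 : ℝ × ℝ) 1).of_isClosed_subset
      · exact (isClosed_le (by fun_prop) (by fun_prop)).inter
          (isClosed_le (by fun_prop) (by fun_prop))
      · rintro x ⟨hx1, hx2⟩
        simp only [mem_ofPred_eq] at hx1 hx2
        rw [mem_closedBall_zero_iff, Prod.norm_def, max_le_iff, Real.norm_eq_abs,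
          Real.norm_eq_abs]
        have : 0 ≤ x.2 := (abs_nonneg _).trans hx1
        exact ⟨hx1.trans hx2, by rwa [abs_of_nonneg this]⟩
    obtain ⟨ε, hε, hsub'⟩ := (hTc.image hPc).exists_thickening_subset_open
      (isOpen_Om B.b K) (by
        rintro _ ⟨x, ⟨hx1, hx2⟩, rfl⟩
        exact hsub (AB_hull.2 ⟨x.1, x.2, hx1, hx2, rfl⟩))
    refine ⟨ε, hε, fun x hx1 hx2 w hw => hsub' ?_⟩
    rw [Metric.mem_thickening_iff]
    exact ⟨P x, ⟨x, ⟨hx1, hx2⟩, rfl⟩, by rwa [dist_eq_norm]⟩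
  -- choice of `δ`
  obtain ⟨δ, hδ0, hδh, hδ1, hδε⟩ : ∃ δ : ℝ, 0 < δ ∧ δ ≤ 1 / 2 ∧ δ < δ₁ ∧
      δ * (‖m‖ + ‖u‖) < ε := by
    have h3 : 0 < ‖m‖ + ‖u‖ + 1 := by positivity
    refine ⟨min (min (1 / 2) (δ₁ / 2)) (ε / (‖m‖ + ‖u‖ + 1)), by positivity, ?_, ?_, ?_⟩
    · exact (min_le_left _ _).trans (min_le_left _ _)
    · exact lt_of_le_of_lt ((min_le_left _ _).trans (min_le_right _ _)) (by linarith)
    · calc min (min (1 / 2) (δ₁ / 2)) (ε / (‖m‖ + ‖u‖ + 1)) * (‖m‖ + ‖u‖)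
          ≤ ε / (‖m‖ + ‖u‖ + 1) * (‖m‖ + ‖u‖) := by
            gcongr; exact min_le_right _ _
        _ < ε / (‖m‖ + ‖u‖ + 1) * (‖m‖ + ‖u‖ + 1) :=
            mul_lt_mul_of_pos_left (by linarith) (by positivity)
        _ = ε := by field_simp
  have hOm : ∀ X Y : ℝ, |X| ≤ Y → Y ≤ 1 + δ → P (X, Y) ∈ Om B.b K := by
    intro X Y h2 h3
    have hY : 0 ≤ Y := (abs_nonneg X).trans h2
    refine hA (X / (1 + δ), Y / (1 + δ)) ?_ ?_ _ ?_
    · change |X / (1 + δ)| ≤ Y / (1 + δ)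
      rw [abs_div, abs_of_pos (show (0 : ℝ) < 1 + δ by linarith)]
      gcongr
    · change Y / (1 + δ) ≤ 1
      rw [div_le_one (by linarith)]; exact h3
    · have e : P (X, Y) - P (X / (1 + δ), Y / (1 + δ)) =
          (δ / (1 + δ)) • (Y • m + X • u) := by
        have e1 : X = (1 + δ) * (X / (1 + δ)) := by field_simp
        have e2 : Y = (1 + δ) * (Y / (1 + δ)) := by field_simp
        have e3 : δ / (1 + δ) = 1 - 1 / (1 + δ) := by field_simp; ring
        simp only [P]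
        rw [e3]
        have e4 : X / (1 + δ) = (1 / (1 + δ)) * X := by ring
        have e5 : Y / (1 + δ) = (1 / (1 + δ)) * Y := by ring
        rw [e4, e5]
        module
      rw [e, norm_smul, Real.norm_of_nonneg (by positivity)]
      calc δ / (1 + δ) * ‖Y • m + X • u‖
          ≤ δ / (1 + δ) * ((1 + δ) * (‖m‖ + ‖u‖)) := by
            gcongr
            calc ‖Y • m + X • u‖ ≤ ‖Y • m‖ + ‖X • u‖ := norm_add_le _ _
              _ = Y * ‖m‖ + |X| * ‖u‖ := by
                rw [norm_smul, norm_smul, Real.norm_of_nonneg hY, Real.norm_eq_abs]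
              _ ≤ (1 + δ) * ‖m‖ + (1 + δ) * ‖u‖ := by
                gcongr
                exact h2.trans h3
              _ = _ := by ring
        _ = δ * (‖m‖ + ‖u‖) := by field_simp
        _ < ε := hδε
  have hVis : ∀ X Y : ℝ, |X| ≤ Y → Y ≤ 1 + δ → (1 - δ) * Y ≤ |X| → P (X, Y) ∈ G.Vis f y := by
    intro X Y h2 h3 h4
    have hY : 0 ≤ Y := (abs_nonneg X).trans h2
    rcases hY.eq_or_lt with h | h
    · have hX : X = 0 := by
        rw [← h] at h2
        exact abs_nonpos_iff.1 h2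
      have : P (X, Y) = y := by
        rw [← h, hX]; simp only [P]; module
      rw [this]
      exact base_mem_Vis hf
    · have hq : P ((1 + δ) / Y * X, (1 + δ) / Y * Y) ∈ G.Vis f y := by
        have hYY : (1 + δ) / Y * Y = 1 + δ := by field_simp
        apply hB
        · rw [abs_mul, abs_of_pos (show 0 < (1 + δ) / Y by positivity), abs_lt]
          constructor
          · have : (1 + δ) / Y * ((1 - δ) * Y) ≤ (1 + δ) / Y * |X| := by gcongr
            have e : (1 + δ) / Y * ((1 - δ) * Y) = 1 - δ ^ 2 := by field_simp; ring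
            rw [e] at this
            nlinarith
          · have : (1 + δ) / Y * |X| ≤ (1 + δ) / Y * Y := by gcongr
            rw [hYY] at this
            linarith
        · rw [hYY, add_sub_cancel_left, abs_of_pos hδ0]; exact hδ1
      have e : P (X, Y) = y + (Y / (1 + δ)) • (P ((1 + δ) / Y * X, (1 + δ) / Y * Y) - y) := by
        rw [hPt]
        congr 1
        refine Prod.ext ?_ ?_
        · change X = Y / (1 + δ) * ((1 + δ) / Y * X)
          field_simp
        · change Y = Y / (1 + δ) * ((1 + δ) / Y * Y)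
          field_simp
      rw [e]
      apply Vis_segment hq
      rw [segment_eq_image']
      refine ⟨Y / (1 + δ), ⟨by positivity, ?_⟩, rfl⟩
      rw [div_le_one (by linarith)]; exact h3
  -- the bad set
  by_contra hbad
  set η : ℝ := δ / 8 with hη
  have hη0 : 0 < η := by positivity
  let Bad : Set (ℝ × ℝ) := ({x | |x.1| ≤ x.2} ∩ {x | x.2 ≤ 1 + δ}) ∩ P ⁻¹' (G.Vis f y)ᶜ
  have hBc : IsCompact Bad := by
    apply (isCompact_closedBall (0 : ℝ × ℝ) (1 + δ)).of_isClosed_subset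
    · exact ((isClosed_le (by fun_prop) (by fun_prop)).inter
        (isClosed_le (by fun_prop) (by fun_prop))).inter
        ((isOpen_Vis G f y).isClosed_compl.preimage hPc)
    · rintro x ⟨⟨hx1, hx2⟩, -⟩
      simp only [mem_ofPred_eq] at hx1 hx2
      rw [mem_closedBall_zero_iff, Prod.norm_def, max_le_iff, Real.norm_eq_abs,
        Real.norm_eq_abs]
      have : 0 ≤ x.2 := (abs_nonneg _).trans hx1
      exact ⟨hx1.trans hx2, by rwa [abs_of_nonneg this]⟩
  have hBne : (X₀, Y₀) ∈ Bad := ⟨⟨hXY₀, by change Y₀ ≤ 1 + δ; linarith⟩, hbad⟩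
  obtain ⟨⟨X, Y⟩, ⟨⟨hXY, hY1⟩, hnv⟩, hmin⟩ := hBc.exists_isMinOn ⟨_, hBne⟩
    (f := fun x : ℝ × ℝ => x.2 - η * x.1 ^ 2) (by fun_prop)
  simp only [mem_ofPred_eq, mem_preimage, mem_compl_iff] at hXY hY1 hnv
  have hmin' : ∀ X' Y' : ℝ, |X'| ≤ Y' → Y' ≤ 1 + δ → P (X', Y') ∉ G.Vis f y →
      Y - η * X ^ 2 ≤ Y' - η * X' ^ 2 := fun X' Y' h2 h3 h4 =>
    hmin (show (X', Y') ∈ Bad from ⟨⟨h2, h3⟩, h4⟩)
  have hXlt : |X| < (1 - δ) * Y := by
    by_contra h
    rw [not_lt] at h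
    exact hnv (hVis X Y hXY hY1 h)
  have hYpos : 0 < Y := by
    have h2 := abs_nonneg X
    by_contra h
    rw [not_lt] at h
    nlinarith
  have hX2 : X ^ 2 ≤ Y ^ 2 := by
    rw [← sq_abs X]
    gcongr
  have hY2 : Y ≤ 3 / 2 := by linarith
  have hYlt : Y < 1 + δ := by
    have h2 := hmin' X₀ Y₀ hXY₀ (by linarith) hbad
    have h3 : 0 ≤ η * X₀ ^ 2 := by positivity
    have h4 : η * X ^ 2 ≤ η * Y ^ 2 := by gcongr
    have h5 : η * Y ^ 2 ≤ η * (3 / 2) ^ 2 := by gcongr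
    rw [hη] at *
    linarith
  have hYX : 2 * η * X ^ 2 < Y := by
    have h4 : η * X ^ 2 ≤ η * Y ^ 2 := by gcongr
    have h5 : η * Y ^ 2 ≤ η * (3 / 2 * Y) := by
      gcongr; nlinarith
    have h6 : η ≤ 1 / 16 := by rw [hη]; linarith
    nlinarith
  have hvis : ∀ t ∈ Ico (0 : ℝ) 1, y + t • (P (X, Y) - y) ∈ G.Vis f y := by
    intro t ht
    rw [hPt]
    by_contra h
    have h2 := hmin' (t * X) (t * Y) (by rw [abs_mul, abs_of_nonneg ht.1]; gcongr; exact ht.1)
      (by nlinarith [ht.1, ht.2]) h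
    -- (1 - t) Y ≤ η (1 - t^2) X^2
    have h3 : (1 - t) * (Y - η * (1 + t) * X ^ 2) ≤ 0 := by nlinarith
    have h4 : 0 < 1 - t := by linarith [ht.2]
    have h5 : Y - η * (1 + t) * X ^ 2 ≤ 0 := by
      by_contra h6
      rw [not_le] at h6
      exact absurd h3 (not_le.2 (mul_pos h4 h6))
    have h7 : η * (1 + t) * X ^ 2 ≤ η * 2 * X ^ 2 := by
      gcongr; linarith [ht.2]
    linarith
  have hYabs : |X| < Y := by nlinarith
  -- the size of the half disc
  obtain ⟨κ, hκ0, hκ1, hκ2, hκ3⟩ : ∃ κ : ℝ, 0 < κ ∧ κ ≤ (Y - |X|) / 6 ∧ κ ≤ 1 + δ - Y ∧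
      κ ≤ Y - 2 * η * X ^ 2 := by
    refine ⟨min (min ((Y - |X|) / 6) (1 + δ - Y)) (Y - 2 * η * X ^ 2), ?_, ?_, ?_, ?_⟩
    · refine lt_min (lt_min ?_ ?_) ?_ <;> linarith
    · exact (min_le_left _ _).trans (min_le_left _ _)
    · exact (min_le_left _ _).trans (min_le_right _ _)
    · exact min_le_right _ _
  have hη16 : η ≤ 1 / 16 := by rw [hη]; linarith
  have hXa0 : 0 ≤ |X| := abs_nonneg X
  apply hnv
  refine T.half_disc hT hf (u := (2 * η * X) • m + u) (κ := κ) (hOm X Y hXY hY1) hvis ?_ hκ0 ?_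
  · rw [LinearIndependent.pair_iff] at hli ⊢
    intro s t hst
    have e : s • ((2 * η * X) • m + u) + t • (y - P (X, Y)) =
        (s - t * X) • u + (2 * η * X * s - t * Y) • m := by
      simp only [P]; module
    rw [e] at hst
    obtain ⟨h2, h3⟩ := hli _ _ hst
    have h4 : s = t * X := by linarith
    have h5 : t * (Y - 2 * η * X ^ 2) = 0 := by rw [h4] at h3; linarith
    have h6 : t = 0 := (mul_eq_zero.1 h5).resolve_right (by linarith)
    exact ⟨by rw [h4, h6, zero_mul], h6⟩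
  · intro α β hα hβ0 hβκ hne
    have e : P (X, Y) + α • ((2 * η * X) • m + u) + β • (y - P (X, Y)) =
        P (X + α - β * X, Y + 2 * η * X * α - β * Y) := by
      simp only [P]; module
    rw [e]
    by_contra h
    have hXα : |η * X * α| ≤ η * |X| * κ := by
      rw [abs_mul, abs_mul, abs_of_pos hη0]
      gcongr
    obtain ⟨h8, h9⟩ := abs_le.1 hXα
    have hηX : η * |X| * κ ≤ (1 / 16) * (3 / 2) * κ := by
      gcongr
      linarith
    have h10 : |X + α - β * X| ≤ Y + 2 * η * X * α - β * Y := by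
      have h11 : |X + α - β * X| ≤ |X| + κ + κ * |X| := by
        calc |X + α - β * X| ≤ |X + α| + |β * X| := abs_sub _ _
          _ ≤ |X| + |α| + β * |X| := by
              rw [abs_mul, abs_of_nonneg hβ0]
              gcongr
              exact abs_add_le _ _
          _ ≤ _ := by gcongr
      have h12 : β * Y ≤ κ * Y := by gcongr
      have h13 : κ * Y ≤ κ * (3 / 2) := by gcongr
      have h14 : κ * |X| ≤ κ * (3 / 2) := by
        gcongr; linarith
      linarith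
    have h11 : Y + 2 * η * X * α - β * Y ≤ 1 + δ := by
      have h12 : 0 ≤ β * Y := by positivity
      linarith
    have h12 := hmin' _ _ h10 h11 h
    have h13 : 0 < Y - 2 * η * X ^ 2 - 2 * η * X * α := by
      have : 2 * η * X * α ≤ 2 * ((1 / 16) * (3 / 2) * κ) := by linarith
      linarith
    have h14 : β * (Y - 2 * η * X ^ 2 - 2 * η * X * α) + η * β ^ 2 * X ^ 2 + η * α ^ 2 ≤ 0 := by
      nlinarith
    have h15 : 0 ≤ η * β ^ 2 * X ^ 2 := by positivity
    have h16 : 0 ≤ β * (Y - 2 * η * X ^ 2 - 2 * η * X * α) := mul_nonneg hβ0 h13.le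
    rcases hne with hα0 | hβ0'
    · have : 0 < η * α ^ 2 := by positivity
      linarith
    · have : 0 < β * (Y - 2 * η * X ^ 2 - 2 * η * X * α) :=
        mul_pos (lt_of_le_of_ne hβ0 (Ne.symm hβ0')) h13
      have : 0 ≤ η * α ^ 2 := by positivity
      linarith

end GX

end Pool.H1.Lor
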