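import Pool.Agent.H1.CK.AB
import Pool.Agent.H1.CK.U

/-! # Structure of the boundary of the visible set (module C) -/

namespace Pool.H1.Lor

open Filter Topology Set

variable {W : Type*} [NormedAddCommGroup W] [NormedSpace ℝ W]
  {F : Type*} [NormedAddCommGroup F] [InnerProductSpace ℝ F]

/-- Perturbation of a triangle in an open set. -/
theorem c_hull_near {O : Set W} (hO : IsOpen O) {x₁ x₂ x₃ : W}
    (h : convexHull ℝ {x₁, x₂, x₃} ⊆ O) :
    ∃ ε > 0, ∀ x₁' x₂' x₃' : W, dist x₁' x₁ < ε → dist x₂' x₂ < ε → dist x₃' x₃ < ε →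
      convexHull ℝ {x₁', x₂', x₃'} ⊆ O := by
  have hc : IsCompact (convexHull ℝ ({x₁, x₂, x₃} : Set W)) :=
    (Set.toFinite _).isCompact_convexHull ℝ
  obtain ⟨ε, hε, hsub⟩ := hc.exists_thickening_subset_open hO h
  refine ⟨ε, hε, fun x₁' x₂' x₃' h1 h2 h3 => ?_⟩
  refine (convexHull_min ?_ ((convex_convexHull ℝ _).thickening ε)).trans hsub
  have hs := subset_convexHull ℝ ({x₁, x₂, x₃} : Set W)
  rintro x (rfl | rfl | rfl)
  · exact Metric.mem_thickening_iff.2 ⟨x₁, hs (by simp), h1⟩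
  · exact Metric.mem_thickening_iff.2 ⟨x₂, hs (by simp), h2⟩
  · exact Metric.mem_thickening_iff.2 ⟨x₃, hs (by simp), h3⟩

theorem c_tendsto_line (y a : W) : Tendsto (fun t : ℝ => y + t • (a - y)) (𝓝 1) (𝓝 a) := by
  have h : Continuous fun t : ℝ => y + t • (a - y) := by fun_prop
  have h2 := h.tendsto 1
  simpa using h2

theorem c_line_mem_segment (y a : W) {t : ℝ} (ht : t ∈ Icc (0 : ℝ) 1) :
    y + t • (a - y) ∈ segment ℝ y a := by
  rw [segment_eq_image']
  exact ⟨t, ht, rfl⟩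

theorem c_segment_hull {y z z' : W} : segment ℝ z z' ⊆ convexHull ℝ {y, z, z'} :=
  (convex_convexHull ℝ _).segment_subset
    (subset_convexHull ℝ _ (by simp)) (subset_convexHull ℝ _ (by simp))

theorem c_hull_sub {y z z' p q s : W} (hp : p ∈ convexHull ℝ {y, z, z'})
    (hq : q ∈ convexHull ℝ {y, z, z'}) (hs : s ∈ convexHull ℝ {y, z, z'}) :
    convexHull ℝ {p, q, s} ⊆ convexHull ℝ {y, z, z'} := by
  refine convexHull_min ?_ (convex_convexHull ℝ _)
  rintro x (rfl | rfl | rfl) <;> assumption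

namespace GX

variable {M : Type*} [TopologicalSpace M] [T2Space M] [FiniteDimensional ℝ W]
  {B : Form W} {K : ℝ} {G : GX M B K} {ξ : M → F}
  {f g : W → M} {y z a : W} {r L : ℝ}

omit [T2Space M] [FiniteDimensional ℝ W] in
/-- There are timelike tangent vectors at all points. -/
theorem c_timelike (hT : G.TimeLike) (hf : G.IsSec f y) (ha : a ∈ Om B.b K) :
    ∃ τ, Tan B.b K (nrm B.b K a) τ ∧ B.b τ τ < 0 := by
  obtain ⟨-, φ, ψ, hc, hφ, -⟩ := hf
  refine timelike_everywhere B (G.onQ hc) (hT hc) ha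

/-- The approximating discs at the points of `[y,a)`. -/
theorem Tools.c_approx (T : G.Tools ξ r L) (hT : G.TimeLike) (hf : G.IsSec f y)
    (hbd : G.Bd f y a) : ∃ (U : Filter ℝ) (_ : U.NeBot) (νk : ℝ → W) (ν : W) (ρ : ℝ),
      U ≤ 𝓝[<] (1 : ℝ) ∧ 0 < ρ ∧ Tendsto νk U (𝓝 ν) ∧ ν ≠ 0 ∧ B.b ν ν = 0 ∧
      K * B.b ν a = 0 ∧ ∀ᶠ t in U, ∀ w, B.b (νk t) w = 0 →
        ρ * Nn B K ξ (G.Fm f y) (y + t • (a - y)) w ≤ ‖w‖ := by
  have : ProperSpace W := FiniteDimensional.proper_real W
  obtain ⟨ρ, hρ, hev⟩ := T.disc a hbd.om (c_timelike hT hf hbd.om)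
  have htend : Tendsto (fun t : ℝ => y + t • (a - y)) (𝓝[<] 1) (𝓝 a) :=
    (c_tendsto_line y a).mono_left nhdsWithin_le_nhds
  have hIco : ∀ᶠ t : ℝ in 𝓝[<] 1, t ∈ Ico (0 : ℝ) 1 := Ico_mem_nhdsLT (by norm_num)
  have hex : ∀ᶠ t : ℝ in 𝓝[<] 1, ∃ ν : W, ‖ν‖ = 1 ∧ B.b ν ν = 0 ∧
      K * B.b ν (y + t • (a - y)) = 0 ∧ ∀ w, B.b ν w = 0 →
        ρ * Nn B K ξ (G.Fm f y) (y + t • (a - y)) w ≤ ‖w‖ := by
    filter_upwards [htend.eventually hev, hIco] with t h1 h2
    exact h1 _ (Fm_isSec (hbd.vis t h2))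
  obtain ⟨νk, hνk⟩ := hex.choice
  set U : Ultrafilter ℝ := Ultrafilter.of (𝓝[<] (1 : ℝ)) with hU
  have hUle : (U : Filter ℝ) ≤ 𝓝[<] (1 : ℝ) := Ultrafilter.of_le _
  have hmem : ((U.map νk : Ultrafilter W) : Filter W) ≤ 𝓟 (Metric.sphere (0 : W) 1) := by
    rw [le_principal_iff]
    show νk ⁻¹' _ ∈ (U : Filter ℝ)
    filter_upwards [hUle hνk] with t ht
    simpa using ht.1
  obtain ⟨ν, hν, hνle⟩ := (isCompact_sphere (0 : W) 1).ultrafilter_le_nhds _ hmem
  have hνt : Tendsto νk U (𝓝 ν) := hνle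
  have hν1 : ‖ν‖ = 1 := by simpa using hν
  have hpt : Tendsto (fun t : ℝ => y + t • (a - y)) U (𝓝 a) := htend.mono_left hUle
  refine ⟨U, inferInstance, νk, ν, ρ, hUle, hρ, hνt, ?_, ?_, ?_, ?_⟩
  · intro h0; rw [h0] at hν1; simp at hν1
  · have h1 : Tendsto (fun t => B.b (νk t) (νk t)) U (𝓝 (B.b ν ν)) := by
      have hc : Continuous fun x : W => B.b x x := by fun_prop
      exact (hc.tendsto ν).comp hνt
    refine tendsto_nhds_unique (h1.congr' ?_) (tendsto_const_nhds (x := (0 : ℝ)))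
    filter_upwards [hUle hνk] with t ht using ht.2.1
  · have h1 : Tendsto (fun t => K * B.b (νk t) (y + t • (a - y))) U (𝓝 (K * B.b ν a)) := by
      have hc : Continuous fun x : W × W => K * B.b x.1 x.2 := by fun_prop
      exact (hc.tendsto (ν, a)).comp (hνt.prodMk_nhds hpt)
    refine tendsto_nhds_unique (h1.congr' ?_) (tendsto_const_nhds (x := (0 : ℝ)))
    filter_upwards [hUle hνk] with t ht using ht.2.2.1
  · filter_upwards [hUle hνk] with t ht using ht.2.2.2

/-- All the data at a boundary point. -/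
theorem Tools.c_main (T : G.Tools ξ r L) (hT : G.TimeLike) (hf : G.IsSec f y)
    (hbd : G.Bd f y a) : ∃ (U : Filter ℝ) (_ : U.NeBot) (νk : ℝ → W) (ν : W) (ρ ρ' : ℝ),
      U ≤ 𝓝[<] (1 : ℝ) ∧ 0 < ρ ∧ Tendsto νk U (𝓝 ν) ∧ ν ≠ 0 ∧ B.b ν ν = 0 ∧
      K * B.b ν a = 0 ∧ (∀ᶠ t in U, ∀ w, B.b (νk t) w = 0 →
        ρ * Nn B K ξ (G.Fm f y) (y + t • (a - y)) w ≤ ‖w‖) ∧
      B.b ν (y - a) ≠ 0 ∧ 0 < ρ' ∧ ∀ w, B.b ν w = 0 → ‖w‖ < ρ' → a + w ∉ G.Vis f y := by
  obtain ⟨U, hU, νk, ν, ρ, hUle, hρ, hνt, hν0, hνν, hνa, hdisc⟩ := T.c_approx hT hf hbd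
  have hpt : Tendsto (fun t : ℝ => y + t • (a - y)) U (𝓝 a) :=
    ((c_tendsto_line y a).mono_left nhdsWithin_le_nhds).mono_left hUle
  have hIco : ∀ᶠ t : ℝ in U, t ∈ Ico (0 : ℝ) 1 := hUle (Ico_mem_nhdsLT (by norm_num))
  -- the hull of `y, a` is in `Om`
  have hsegOm : segment ℝ y a ⊆ Om B.b K := by
    rw [segment_eq_image']
    rintro _ ⟨t, ht, rfl⟩
    rcases eq_or_lt_of_le ht.2 with h1 | h1
    · rw [h1]; simpa using hbd.om
    · exact Vis_subset_Om (hbd.vis t ⟨ht.1, h1⟩)
  have hhull : convexHull ℝ {y, a, a} ⊆ Om B.b K := by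
    rw [Set.pair_eq_singleton, convexHull_pair]
    exact hsegOm
  obtain ⟨ε, hε, hnear⟩ := c_hull_near (isOpen_Om B.b K) hhull
  set ρ' : ℝ := min ε (ρ * r) with hρ'
  have hρr : 0 < ρ * r := mul_pos hρ T.rpos
  have hρ'0 : 0 < ρ' := lt_min hε hρr
  obtain ⟨e, he⟩ : ∃ e, B.b ν e ≠ 0 := by
    by_contra hcon
    push Not at hcon
    exact hν0 (B.nondeg ν hcon)
  have hinv : ∀ w, B.b ν w = 0 → ‖w‖ < ρ' → a + w ∉ G.Vis f y := by
    intro w hw hwρ hvis
    -- approximating vectors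
    have hbt : ∀ x : W, Tendsto (fun t => B.b (νk t) x) U (𝓝 (B.b ν x)) := by
      intro x
      have hc : Continuous fun v : W => B.b v x := by fun_prop
      exact (hc.tendsto ν).comp hνt
    set wt : ℝ → W := fun t => w - (B.b (νk t) w / B.b (νk t) e) • e with hwt
    have hwt_t : Tendsto wt U (𝓝 w) := by
      have h1 : Tendsto (fun t => B.b (νk t) w / B.b (νk t) e) U (𝓝 (B.b ν w / B.b ν e)) :=
        (hbt w).div (hbt e) he
      rw [hw, zero_div] at h1
      have h2 := (tendsto_const_nhds (x := w)).sub (h1.smul (tendsto_const_nhds (x := e)))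
      simpa using h2
    have hwt0 : ∀ᶠ t in U, B.b (νk t) (wt t) = 0 := by
      filter_upwards [(hbt e).eventually_ne he] with t ht
      simp only [hwt, map_sub, map_smul, smul_eq_mul]
      field_simp
      simp
    have hpw : Tendsto (fun t => y + t • (a - y) + wt t) U (𝓝 (a + w)) := hpt.add hwt_t
    obtain ⟨C, hC⟩ := T.bdd (Fm_isSec hvis)
    have hnorm : ∀ᶠ t in U, ‖wt t‖ < ρ' := (hwt_t.norm).eventually (gt_mem_nhds hwρ)
    have hsmall : ∀ᶠ t in U, L * (C * ‖a - (y + t • (a - y))‖) < r := by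
      have h1 : Tendsto (fun t => L * (C * ‖a - (y + t • (a - y))‖)) U (𝓝 (L * (C * ‖a - a‖))) :=
        (((tendsto_const_nhds (x := a)).sub hpt).norm.const_mul C).const_mul L
      have h2 : L * (C * ‖a - a‖) < r := by simpa using T.rpos
      exact h1.eventually (gt_mem_nhds h2)
    have hdist1 : ∀ᶠ t in U, dist (y + t • (a - y)) a < ε :=
      hpt.eventually (Metric.ball_mem_nhds a hε)
    have hdist2 : ∀ᶠ t in U, dist (y + t • (a - y) + wt t) a < ε := by
      have h1 : dist (a + w) a < ε := by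
        rw [dist_eq_norm, add_sub_cancel_left]
        exact hwρ.trans_le (min_le_left _ _)
      exact hpw.eventually (Metric.isOpen_ball.mem_nhds h1)
    obtain ⟨t, h1, h2, h3, h4, h5, h6, h7, h8, h9⟩ := (hIco.and (hwt0.and (hnorm.and (hsmall.and
      (hdist1.and (hdist2.and ((hpw.eventually hC).and
        ((hpw.eventually ((isOpen_Vis G f y).mem_nhds hvis)).and hdisc)))))))).exists
    have htri : convexHull ℝ {y, y + t • (a - y), y + t • (a - y) + wt t} ⊆ G.Vis f y :=
      T.triangle hT hf (hbd.vis t h1) h8 (hnear _ _ _ (by simpa using hε) h5 h6)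
    have hseg := c_segment_hull.trans htri
    have hNr : Nn B K ξ (G.Fm f y) (y + t • (a - y)) (wt t) < r := by
      have h10 := h9 (wt t) h2
      have h11 : ‖wt t‖ < ρ * r := h3.trans_le (min_le_right _ _)
      exact lt_of_mul_lt_mul_left (h10.trans_lt h11) hρ.le
    have h12 := T.compare hseg hNr (a - (y + t • (a - y)))
    have h13 := T.blowup hbd h1
    have h14 := h7 (a - (y + t • (a - y)))
    have h15 : L * Nn B K ξ (G.Fm f y) (y + t • (a - y) + wt t) (a - (y + t • (a - y))) ≤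
        L * (C * ‖a - (y + t • (a - y))‖) :=
      mul_le_mul_of_nonneg_left h14 (zero_le_one.trans T.Lpos)
    linarith
  refine ⟨U, hU, νk, ν, ρ, ρ', hUle, hρ, hνt, hν0, hνν, hνa, hdisc, ?_, hρ'0, hinv⟩
  intro h0
  -- small multiples of `y - a`
  have h1 : Tendsto (fun s : ℝ => ‖s • (y - a)‖) (𝓝 0) (𝓝 ‖(0 : ℝ) • (y - a)‖) := by
    have hc : Continuous fun s : ℝ => ‖s • (y - a)‖ := by fun_prop
    exact hc.tendsto 0
  have h2 : ∀ᶠ s : ℝ in 𝓝[>] 0, ‖s • (y - a)‖ < ρ' :=
    (h1.mono_left nhdsWithin_le_nhds).eventually (gt_mem_nhds (by simpa using hρ'0))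
  have h3 : ∀ᶠ s : ℝ in 𝓝[>] 0, s ∈ Ioc (0 : ℝ) 1 := Ioc_mem_nhdsGT (by norm_num)
  obtain ⟨s, hs1, hs2⟩ := (h2.and h3).exists
  refine hinv (s • (y - a)) (by rw [map_smul, h0, smul_zero]) hs1 ?_
  have h4 := hbd.vis (1 - s) ⟨by linarith [hs2.2], by linarith [hs2.1]⟩
  have h5 : y + (1 - s) • (a - y) = a + s • (y - a) := by module
  rwa [h5] at h4

/-- C1, C2: at a boundary point there is a null direction whose orthogonal disc is invisible;
the discs at nearby visible points (limit along `[y,a)`) have a uniform size. -/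
theorem Tools.disc_invisible (T : G.Tools ξ r L) (hT : G.TimeLike) (hf : G.IsSec f y)
    (hbd : G.Bd f y a) : ∃ ν : W, ν ≠ 0 ∧ B.b ν ν = 0 ∧ K * B.b ν a = 0 ∧
      B.b ν (y - a) ≠ 0 ∧ ∃ ρ > 0, ∀ w, B.b ν w = 0 → ‖w‖ < ρ → a + w ∉ G.Vis f y := by
  obtain ⟨U, hU, νk, ν, ρ, ρ', hUle, hρ, hνt, hν0, hνν, hνa, hdisc, hne, hρ', hinv⟩ :=
    T.c_main hT hf hbd
  exact ⟨ν, hν0, hνν, hνa, hne, ρ', hρ', hinv⟩

/-- C0: path version of the triangle lemma. -/
theorem Tools.path (T : G.Tools ξ r L) (hT : G.TimeLike) (hf : G.IsSec f y)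
    (hz : z ∈ G.Vis f y) {z' : W} (hg : ∀ p ∈ segment ℝ z z', G.IsSec g p)
    (h : g =ᶠ[𝓝 z] G.Fm f y) (hsub : convexHull ℝ {y, z, z'} ⊆ Om B.b K) :
    z' ∈ G.Vis f y ∧ G.Fm f y =ᶠ[𝓝 z'] g := by
  have hsegvis : segment ℝ z z' ⊆ G.Vis f y := by
    by_contra hcon
    obtain ⟨q, hq, hqv⟩ := not_subset.1 hcon
    rw [segment_eq_image'] at hq
    obtain ⟨tq, htq, rfl⟩ := hq
    set S : Set ℝ := {t | t ∈ Icc (0 : ℝ) 1 ∧ z + t • (z' - z) ∉ G.Vis f y} with hS
    have hSc : IsCompact S := by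
      refine isCompact_Icc.inter_right ?_
      have hc : Continuous fun t : ℝ => z + t • (z' - z) := by fun_prop
      exact ((isOpen_Vis G f y).preimage hc).isClosed_compl
    obtain ⟨t₀, ht₀, hmin⟩ := hSc.exists_isLeast ⟨tq, htq, hqv⟩
    have hbefore : ∀ t ∈ Icc (0 : ℝ) 1, t < t₀ → z + t • (z' - z) ∈ G.Vis f y := by
      intro t ht hlt
      by_contra hc
      exact absurd (hmin ⟨ht, hc⟩) (not_le.2 hlt)
    have ht₀pos : 0 < t₀ := by
      rcases eq_or_lt_of_le ht₀.1.1 with h0 | h0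
      · exfalso
        apply ht₀.2
        rw [← h0]; simpa using hz
      · exact h0
    set c : W := z + t₀ • (z' - z) with hcdef
    have hcseg : c ∈ segment ℝ z z' := c_line_mem_segment z z' ht₀.1
    have hchull : c ∈ convexHull ℝ {y, z, z'} := c_segment_hull hcseg
    have hyhull : y ∈ convexHull ℝ {y, z, z'} := subset_convexHull ℝ _ (by simp)
    have hzhull : z ∈ convexHull ℝ {y, z, z'} := subset_convexHull ℝ _ (by simp)
    have hsegyc : segment ℝ y c ⊆ convexHull ℝ {y, z, z'} :=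
      (convex_convexHull ℝ _).segment_subset hyhull hchull
    -- points `c + δ (z - c)` are visible
    have hvisδ : ∀ δ ∈ Ioc (0 : ℝ) 1, c + δ • (z - c) ∈ G.Vis f y := by
      intro δ hδ
      have h1 : c + δ • (z - c) = z + ((1 - δ) * t₀) • (z' - z) := by
        rw [hcdef]; module
      rw [h1]
      have h3 : 0 ≤ (1 - δ) * t₀ := mul_nonneg (by linarith [hδ.2]) ht₀pos.le
      have h4 : (1 - δ) * t₀ < t₀ := by nlinarith [hδ.1]
      exact hbefore _ ⟨h3, h4.le.trans ht₀.1.2⟩ h4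
    obtain ⟨s, hs, hbd⟩ := exists_Bd hf ht₀.2 (hsegyc.trans hsub)
    rw [← hcdef] at hbd
    rcases eq_or_lt_of_le hs.2 with hs1 | hs1
    · -- the boundary point is `c`
      rw [hs1, one_smul, add_sub_cancel] at hbd
      have hgc := hg c hcseg
      obtain ⟨ε, hε, hball⟩ := Metric.eventually_nhds_iff_ball.1 hgc.eventually
      -- choose points
      have hδt : Tendsto (fun δ : ℝ => c + δ • (z - c)) (𝓝[>] 0) (𝓝 c) := by
        have hcc : Continuous fun δ : ℝ => c + δ • (z - c) := by fun_prop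
        have := hcc.tendsto 0
        simp only [zero_smul, add_zero] at this
        exact this.mono_left nhdsWithin_le_nhds
      obtain ⟨δ, hδ1, hδ2⟩ := ((hδt.eventually (Metric.ball_mem_nhds c hε)).and
        (Ioc_mem_nhdsGT (by norm_num : (0 : ℝ) < 1))).exists
      have htt : Tendsto (fun t : ℝ => y + t • (c - y)) (𝓝[<] 1) (𝓝 c) :=
        (c_tendsto_line y c).mono_left nhdsWithin_le_nhds
      obtain ⟨t, ht1, ht2⟩ := ((htt.eventually (Metric.ball_mem_nhds c hε)).and
        (Ico_mem_nhdsLT (by norm_num : (0 : ℝ) < 1))).exists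
      set p₁ : W := c + δ • (z - c) with hp₁
      set p₂ : W := y + t • (c - y) with hp₂
      have hv1 : p₁ ∈ G.Vis f y := hvisδ δ hδ2
      have hv2 : p₂ ∈ G.Vis f y := hbd.vis t ht2
      have hp₁hull : p₁ ∈ convexHull ℝ {y, z, z'} :=
        (convex_convexHull ℝ _).segment_subset hchull hzhull
          (c_line_mem_segment c z ⟨hδ2.1.le, hδ2.2⟩)
      have hp₂hull : p₂ ∈ convexHull ℝ {y, z, z'} :=
        hsegyc (c_line_mem_segment y c ⟨ht2.1, ht2.2.le⟩)
      have htri := T.triangle hT hf hv1 hv2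
        ((c_hull_sub hyhull hp₁hull hp₂hull).trans hsub)
      have hseg12 : segment ℝ p₁ p₂ ⊆ G.Vis f y := c_segment_hull.trans htri
      -- `g` and `Fm` agree near `p₁`
      have hseg1 : segment ℝ z p₁ ⊆ segment ℝ z z' := by
        refine (convex_segment z z').segment_subset (left_mem_segment ℝ z z') ?_
        exact (convex_segment z z').segment_subset hcseg (left_mem_segment ℝ z z')
          (c_line_mem_segment c z ⟨hδ2.1.le, hδ2.2⟩)
      have hsegv : segment ℝ z p₁ ⊆ G.Vis f y := by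
        intro x hx
        have h1 : z = c + (1 : ℝ) • (z - c) := by module
        have hx' : x ∈ segment ℝ (c + (1 : ℝ) • (z - c)) (c + δ • (z - c)) := by
          rw [← h1]; exact hx
        rw [segment_eq_image'] at hx'
        obtain ⟨u, hu, rfl⟩ := hx'
        have h2 : c + (1 : ℝ) • (z - c) + u • (c + δ • (z - c) - (c + (1 : ℝ) • (z - c))) =
            c + (1 - u * (1 - δ)) • (z - c) := by module
        simp only [h2]
        refine hvisδ _ ⟨?_, ?_⟩
        · have : u * (1 - δ) ≤ 1 * (1 - δ) :=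
            mul_le_mul_of_nonneg_right hu.2 (by linarith [hδ2.2])
          linarith [hδ2.1]
        · have : 0 ≤ u * (1 - δ) := mul_nonneg hu.1 (by linarith [hδ2.2])
          linarith
      have hag1 : g =ᶠ[𝓝 p₁] G.Fm f y :=
        IsSec.uniq (convex_segment z p₁).isPreconnected (fun p hp => hg p (hseg1 hp))
          (fun p hp => Fm_isSec (hsegv hp)) (left_mem_segment ℝ z p₁) h p₁
          (right_mem_segment ℝ z p₁)
      have hball12 : segment ℝ p₁ p₂ ⊆ Metric.ball c ε :=
        (convex_ball c ε).segment_subset hδ1 ht1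
      have hag2 : g =ᶠ[𝓝 p₂] G.Fm f y :=
        IsSec.uniq (convex_segment p₁ p₂).isPreconnected (fun p hp => hball p (hball12 hp))
          (fun p hp => Fm_isSec (hseg12 hp)) (left_mem_segment ℝ p₁ p₂) hag1 p₂
          (right_mem_segment ℝ p₁ p₂)
      have hsegp2 : segment ℝ p₂ c ⊆ Metric.ball c ε :=
        (convex_ball c ε).segment_subset ht1 (Metric.mem_ball_self hε)
      exact ht₀.2 (Vis_ext (g := g) hbd.vis ht2 (fun p hp => hball p (hsegp2 hp)) hag2).1
    · -- the boundary point is before `c`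
      obtain ⟨ν, hν0, hνν, hνa, hne, ρ, hρ, hinv⟩ := T.disc_invisible hT hf hbd
      set a : W := y + s • (c - y) with ha
      set β : ℝ := -(B.b ν (z - c)) / B.b ν (y - a) with hβ
      set w : W := (z - c) + β • (y - a) with hw
      have hw0 : B.b ν w = 0 := by
        rw [hw, map_add, map_smul, smul_eq_mul, hβ]
        field_simp
        ring
      -- small `ε`
      have t1 : Tendsto (fun ε : ℝ => ‖ε • w‖) (𝓝[>] 0) (𝓝 0) := by
        have hc : Continuous fun ε : ℝ => ‖ε • w‖ := by fun_prop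
        have := hc.tendsto 0
        simp only [zero_smul, norm_zero] at this
        exact this.mono_left nhdsWithin_le_nhds
      have t2 : Tendsto (fun ε : ℝ => s * (1 - ε * β)) (𝓝[>] 0) (𝓝 s) := by
        have hc : Continuous fun ε : ℝ => s * (1 - ε * β) := by fun_prop
        have := hc.tendsto 0
        simp only [zero_mul, sub_zero, mul_one] at this
        exact this.mono_left nhdsWithin_le_nhds
      have t3 : Tendsto (fun ε : ℝ => ε / (s * (1 - ε * β))) (𝓝[>] 0) (𝓝 0) := by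
        have h0 : Tendsto (fun ε : ℝ => ε) (𝓝[>] 0) (𝓝 0) := tendsto_id.mono_left nhdsWithin_le_nhds
        have := h0.div t2 hs.1.ne'
        rwa [zero_div] at this
      obtain ⟨ε, he1, he2, he3, he4, he5⟩ := ((t1.eventually (gt_mem_nhds hρ)).and
        ((t2.eventually (lt_mem_nhds hs.1)).and ((t2.eventually (gt_mem_nhds hs1)).and
          ((t3.eventually (gt_mem_nhds (zero_lt_one' ℝ))).and self_mem_nhdsWithin)))).exists
      have he5 : 0 < ε := he5
      set σ : ℝ := s * (1 - ε * β) with hσ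
      set δ : ℝ := ε / σ with hδ
      have hδ0 : 0 < δ := div_pos he5 he2
      have hcδ := hvisδ δ ⟨hδ0, he4.le⟩
      have hpt : a + ε • w = y + σ • ((c + δ • (z - c)) - y) := by
        have h1 : σ • ((c + δ • (z - c)) - y) = σ • (c - y) + (σ * δ) • (z - c) := by module
        have h2 : σ * δ = ε := by rw [hδ]; field_simp
        rw [h1, h2, hw, hσ, ha]
        module
      refine hinv (ε • w) (by rw [map_smul, hw0, smul_zero]) he1 ?_
      rw [hpt]
      exact Vis_segment hcδ (c_line_mem_segment y _ ⟨he2.le, he3.le⟩)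
  refine ⟨hsegvis (right_mem_segment ℝ z z'), ?_⟩
  exact (IsSec.uniq (convex_segment z z').isPreconnected hg
    (fun p hp => Fm_isSec (hsegvis hp)) (left_mem_segment ℝ z z') h z'
    (right_mem_segment ℝ z z')).symm

omit [T2Space M] [FiniteDimensional ℝ W] in
/-- A wall from its local description. -/
theorem c_wall_of_loc {ν : W} (ha : a ∈ Om B.b K) (hνν : B.b ν ν = 0) (hνa : K * B.b ν a = 0)
    (hne : B.b ν (y - a) ≠ 0)
    (loc : ∀ᶠ c in 𝓝 a, (c ∈ G.Vis f y ↔ 0 < B.b ν (c - a) * B.b ν (y - a))) :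
    G.Wall f y ν a := by
  refine ⟨⟨ha, ?_, ?_⟩, hνν, hνa, hne, loc⟩
  · intro h
    have h1 := loc.self_of_nhds.1 h
    simp at h1
  · intro t ht
    have htend : Tendsto (fun t : ℝ => y + t • (a - y)) (𝓝[<] 1) (𝓝 a) :=
      (c_tendsto_line y a).mono_left nhdsWithin_le_nhds
    obtain ⟨t', h1, h2⟩ := ((htend.eventually loc).and (Ioo_mem_nhdsLT ht.2)).exists
    have h3 : y + t' • (a - y) ∈ G.Vis f y := by
      refine h1.2 ?_
      have h4 : y + t' • (a - y) - a = (1 - t') • (y - a) := by module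
      rw [h4, map_smul, smul_eq_mul, mul_assoc]
      exact mul_pos (by linarith [h2.2]) (mul_self_pos.2 hne)
    refine Vis_segment h3 ?_
    have ht'0 : 0 < t' := ht.1.trans_lt h2.1
    have h5 : y + t • (a - y) = y + (t / t') • (y + t' • (a - y) - y) := by
      rw [add_sub_cancel_left, smul_smul, div_mul_cancel₀ _ ht'0.ne']
    rw [h5]
    exact c_line_mem_segment y _ ⟨div_nonneg ht.1 ht'0.le, (div_le_one ht'0).2 h2.1.le⟩

/-- C4. -/
theorem Tools.exists_wall (T : G.Tools ξ r L) (hT : G.TimeLike) (hf : G.IsSec f y)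
    (hbd : G.Bd f y a) : ∃ ν, G.Wall f y ν a := by
  obtain ⟨U, hU, νk, ν, ρ, ρ', hUle, hρ, hνt, hν0, hνν, hνa, hdisc, hne, hρ', hinv⟩ :=
    T.c_main hT hf hbd
  refine ⟨ν, c_wall_of_loc hbd.om hνν hνa hne ?_⟩
  have hpt : Tendsto (fun t : ℝ => y + t • (a - y)) U (𝓝 a) :=
    ((c_tendsto_line y a).mono_left nhdsWithin_le_nhds).mono_left hUle
  have hIco : ∀ᶠ t : ℝ in U, t ∈ Ico (0 : ℝ) 1 := hUle (Ico_mem_nhdsLT (by norm_num))
  have hsegOm : segment ℝ y a ⊆ Om B.b K := by
    rw [segment_eq_image']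
    rintro _ ⟨t, ht, rfl⟩
    rcases eq_or_lt_of_le ht.2 with h1 | h1
    · rw [h1]; simpa using hbd.om
    · exact Vis_subset_Om (hbd.vis t ⟨ht.1, h1⟩)
  have hhull : convexHull ℝ {y, a, a} ⊆ Om B.b K := by
    rw [Set.pair_eq_singleton, convexHull_pair]
    exact hsegOm
  obtain ⟨ε, hε, hnear⟩ := c_hull_near (isOpen_Om B.b K) hhull
  have hρr : 0 < ρ * r := mul_pos hρ T.rpos
  have hbt : ∀ x : W, Tendsto (fun t => B.b (νk t) x) U (𝓝 (B.b ν x)) := by
    intro x
    have hc : Continuous fun v : W => B.b v x := by fun_prop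
    exact (hc.tendsto ν).comp hνt
  -- the hitting point
  set X : W → W := fun c => y + (B.b ν (y - a) / B.b ν (y - c)) • (c - y) with hX
  have hXa : X a = a := by
    simp only [hX, div_self hne, one_smul]; abel
  have hXt : Tendsto X (𝓝 a) (𝓝 a) := by
    have h1 : Tendsto (fun c => B.b ν (y - a) / B.b ν (y - c)) (𝓝 a)
        (𝓝 (B.b ν (y - a) / B.b ν (y - a))) := by
      have hc : Continuous fun c : W => B.b ν (y - c) := by fun_prop
      exact (tendsto_const_nhds).div (hc.tendsto a) hne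
    have h2 : Tendsto X (𝓝 a) (𝓝 (y + (B.b ν (y - a) / B.b ν (y - a)) • (a - y))) := by
      have hc : Continuous fun c : W => c - y := by fun_prop
      exact (h1.smul (hc.tendsto a)).const_add y
    have h3 : y + (B.b ν (y - a) / B.b ν (y - a)) • (a - y) = a := hXa
    rwa [h3] at h2
  have hθ : Tendsto (fun c => B.b ν (c - a) / B.b ν (y - a)) (𝓝 a) (𝓝 0) := by
    have hc : Continuous fun c : W => B.b ν (c - a) / B.b ν (y - a) := by fun_prop
    have := hc.tendsto a
    simpa using this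
  -- radius for the approximating discs
  set η : ℝ := min ρ' (min (ε / 2) (ρ * r / 2)) with hη
  have hη0 : 0 < η := lt_min hρ' (lt_min (by positivity) (by positivity))
  filter_upwards [hXt.eventually (Metric.ball_mem_nhds a hη0),
    hθ.eventually (gt_mem_nhds (by norm_num : (0 : ℝ) < 1 / 2))] with c hc1 hc2
  have hratio : B.b ν (c - a) = (B.b ν (c - a) / B.b ν (y - a)) * B.b ν (y - a) := by
    field_simp
  set q : ℝ := B.b ν (c - a) / B.b ν (y - a) with hq
  have hyc : B.b ν (y - c) = (1 - q) * B.b ν (y - a) := by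
    have : y - c = (y - a) - (c - a) := by abel
    rw [this, map_sub, hratio]; ring
  have hq1 : 0 < 1 - q := by linarith
  have hycne : B.b ν (y - c) ≠ 0 := by rw [hyc]; exact mul_ne_zero hq1.ne' hne
  have hθeq : B.b ν (y - a) / B.b ν (y - c) = 1 / (1 - q) := by
    rw [hyc]; field_simp
  have hprod : B.b ν (c - a) * B.b ν (y - a) = q * (B.b ν (y - a) * B.b ν (y - a)) := by
    rw [hratio]; ring
  have hsq : 0 < B.b ν (y - a) * B.b ν (y - a) := mul_self_pos.2 hne
  constructor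
  · -- visible points are on the right side
    intro hvis
    by_contra hneg
    rw [hprod] at hneg
    have hq0 : q ≤ 0 := by
      by_contra h; push Not at h; exact hneg (mul_pos h hsq)
    have hX1 : X c ∈ G.Vis f y := by
      refine Vis_segment hvis (c_line_mem_segment y c ?_)
      rw [hθeq]
      exact ⟨by positivity, by rw [div_le_one hq1]; linarith⟩
    refine hinv (X c - a) ?_ ?_ (by rwa [add_sub_cancel])
    · have h1 : X c - a = (y - a) - (B.b ν (y - a) / B.b ν (y - c)) • (y - c) := by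
        simp only [hX]; module
      rw [h1, map_sub, map_smul, smul_eq_mul, div_mul_cancel₀ _ hycne, sub_self]
    · rw [← dist_eq_norm]
      exact (Metric.mem_ball.1 hc1).trans_le (min_le_left _ _)
  · -- points on the right side are visible
    intro hpos
    rw [hprod] at hpos
    have hq0 : 0 < q := by
      by_contra h; push Not at h
      exact absurd hpos (not_lt.2 (mul_nonpos_of_nonpos_of_nonneg h hsq.le))
    -- the hitting points with the approximating hyperplanes
    set θ : ℝ → ℝ := fun t => t * (B.b (νk t) (y - a) / B.b (νk t) (y - c)) with hθdef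
    have h1U : Tendsto (fun t : ℝ => t) U (𝓝 1) :=
      (tendsto_id.mono_left (nhdsWithin_le_nhds)).mono_left hUle
    have hθt : Tendsto θ U (𝓝 (1 / (1 - q))) := by
      have h1 := h1U.mul ((hbt (y - a)).div (hbt (y - c)) hycne)
      rw [hθeq, one_mul] at h1
      exact h1
    have hθ1 : 1 < 1 / (1 - q) := by rw [lt_div_iff₀ hq1]; linarith
    have hQt : Tendsto (fun t => y + θ t • (c - y)) U (𝓝 (X c)) := by
      have h1 := (hθt.smul (tendsto_const_nhds (x := c - y))).const_add y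
      rw [← hθeq] at h1
      exact h1
    have hwt : Tendsto (fun t => (y + θ t • (c - y)) - (y + t • (a - y))) U (𝓝 (X c - a)) :=
      hQt.sub hpt
    have hnorm : ‖X c - a‖ < η := by rw [← dist_eq_norm]; exact hc1
    have hne' : ∀ᶠ t in U, B.b (νk t) (y - c) ≠ 0 := (hbt (y - c)).eventually_ne hycne
    have hdist1 : ∀ᶠ t in U, dist (y + t • (a - y)) a < ε :=
      hpt.eventually (Metric.ball_mem_nhds a hε)
    have hdist2 : ∀ᶠ t in U, dist (y + θ t • (c - y)) a < ε := by
      refine hQt.eventually (Metric.isOpen_ball.mem_nhds ?_)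
      rw [Metric.mem_ball, dist_eq_norm]
      have h3 : η ≤ ε / 2 := (min_le_right _ _).trans (min_le_left _ _)
      linarith
    have hnw : ∀ᶠ t in U, ‖(y + θ t • (c - y)) - (y + t • (a - y))‖ < ρ * r := by
      refine hwt.norm.eventually (gt_mem_nhds ?_)
      have h3 : η ≤ ρ * r / 2 := (min_le_right _ _).trans (min_le_right _ _)
      linarith
    obtain ⟨t, h1, h2, h3, h4, h5, h6, h7⟩ := (hIco.and (hne'.and (hdist1.and (hdist2.and
      (hnw.and (hdisc.and (hθt.eventually (lt_mem_nhds hθ1)))))))).exists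
    set p : W := y + t • (a - y) with hp
    set w : W := (y + θ t • (c - y)) - p with hw
    have hw0 : B.b (νk t) w = 0 := by
      have h8 : w = θ t • (c - y) - t • (a - y) := by rw [hw, hp]; module
      have h9 : w = t • (y - a) - θ t • (y - c) := by rw [h8]; module
      rw [h9, map_sub, map_smul, map_smul, smul_eq_mul, smul_eq_mul, hθdef]
      field_simp
      ring
    have hpw : p + w = y + θ t • (c - y) := by rw [hw]; abel
    have hN : Nn B K ξ (G.Fm f y) p w < r :=
      lt_of_mul_lt_mul_left ((h6 w hw0).trans_lt h5) hρ.le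
    have hpvis : p ∈ G.Vis f y := hbd.vis t h1
    obtain ⟨g, hg1, hg2⟩ := T.ext (Fm_isSec hpvis)
    have hseg : ∀ x ∈ segment ℝ p (p + w), G.IsSec g x := by
      intro x hx
      rw [segment_eq_image'] at hx
      obtain ⟨u, hu, rfl⟩ := hx
      refine (hg2 _ ?_).1
      rw [add_sub_cancel_left, add_sub_cancel_left, Nn_smul, abs_of_nonneg hu.1]
      have h10 : u * Nn B K ξ (G.Fm f y) p w ≤ 1 * Nn B K ξ (G.Fm f y) p w :=
        mul_le_mul_of_nonneg_right hu.2 (Nn_nonneg (Vis_subset_Om hpvis) w)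
      linarith
    have hvis := (T.path hT hf hpvis hseg hg1
      (hnear _ _ _ (by simpa using hε) h3 (by rw [hpw]; exact h4))).1
    rw [hpw] at hvis
    have hθpos : 0 < θ t := by linarith
    have h11 : c = y + (1 / θ t) • (y + θ t • (c - y) - y) := by
      rw [add_sub_cancel_left, smul_smul, one_div, inv_mul_cancel₀ hθpos.ne', one_smul]; abel
    rw [h11]
    exact Vis_segment hvis (c_line_mem_segment y _ ⟨by positivity, by
      rw [div_le_one hθpos]; exact h7.le⟩)

/-- Change of the base point. -/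
theorem Tools.base_change (T : G.Tools ξ r L) (hT : G.TimeLike) (hf : G.IsSec f y)
    {y' : W} (hy' : y' ∈ G.Vis f y) (hsub : convexHull ℝ {y, y', z} ⊆ Om B.b K) :
    (z ∈ G.Vis f y ↔ z ∈ G.Vis (G.Fm f y) y') ∧
      (z ∈ G.Vis f y → G.Fm (G.Fm f y) y' =ᶠ[𝓝 z] G.Fm f y) := by
  have hf' : G.IsSec (G.Fm f y) y' := Fm_isSec hy'
  have hback : ∀ p ∈ segment ℝ y' y, G.IsSec (G.Fm f y) p := by
    intro p hp
    rw [segment_symm] at hp
    exact Fm_isSec (Vis_segment hy' hp)
  have key : z ∈ G.Vis f y → z ∈ G.Vis (G.Fm f y) y' ∧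
      G.Fm (G.Fm f y) y' =ᶠ[𝓝 z] G.Fm f y := by
    intro hz
    have hy : y ∈ G.Vis (G.Fm f y) y' := ⟨G.Fm f y, EventuallyEq.rfl, hback⟩
    have h1 : G.Fm f y =ᶠ[𝓝 y] G.Fm (G.Fm f y) y' :=
      (Fm_eq EventuallyEq.rfl hback).symm
    refine T.path hT hf' hy (fun p hp => Fm_isSec (Vis_segment hz hp)) h1 ?_
    rwa [Set.insert_comm]
  refine ⟨⟨fun hz => (key hz).1, fun hz => ?_⟩, fun hz => (key hz).2⟩
  exact (T.path hT hf hy' (fun p hp => Fm_isSec (Vis_segment hz hp)) (Fm_base hf') hsub).1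

omit [T2Space M] [FiniteDimensional ℝ W] in
/-- Walls at nearby points of the same hyperplane. -/
theorem c_wall_near {ν : W} (hw : G.Wall f y ν a) :
    ∀ᶠ x in 𝓝 a, x ∈ Om B.b K → B.b ν (x - a) = 0 → G.Wall f y ν x := by
  filter_upwards [hw.loc.eventually_nhds] with x hx hxOm hx0
  have h1 : ∀ c, B.b ν (c - a) = B.b ν (c - x) := by
    intro c
    have : c - a = (c - x) + (x - a) := by abel
    rw [this, map_add, hx0, add_zero]
  refine c_wall_of_loc hxOm hw.null ?_ ?_ ?_
  · have : x = (x - a) + a := by abel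
    rw [this, map_add, hx0, zero_add]
    exact hw.tan
  · rw [← h1]; exact hw.ne
  · filter_upwards [hx] with c hc
    rw [hc, h1 c, h1 y]

/-- Walls spread. -/
theorem Tools.spread (T : G.Tools ξ r L) (hT : G.TimeLike) (hf : G.IsSec f y) {ν : W}
    (hw : G.Wall f y ν a) {Γ : Set W} (hΓ : IsPreconnected Γ) (haΓ : a ∈ Γ)
    (hsub : ∀ x ∈ Γ, segment ℝ y x ⊆ Om B.b K ∧ B.b ν (x - a) = 0) :
    ∀ x ∈ Γ, G.Wall f y ν x := by
  have hdiff : ∀ x ∈ Γ, ∀ x' ∈ Γ, B.b ν (x' - x) = 0 := by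
    intro x hx x' hx'
    have : x' - x = (x' - a) - (x - a) := by abel
    rw [this, map_sub, (hsub x hx).2, (hsub x' hx').2, sub_zero]
  -- closedness
  have hclosed : ∀ x ∈ Γ, (∃ᶠ x' in 𝓝 x, x' ∈ Γ ∧ G.Wall f y ν x') → G.Wall f y ν x := by
    intro x hx hfr
    have hxOm : x ∈ Om B.b K := (hsub x hx).1 (right_mem_segment ℝ y x)
    have hxv : x ∉ G.Vis f y := by
      intro hv
      obtain ⟨x', h1, h2⟩ := (hfr.and_eventually ((isOpen_Vis G f y).mem_nhds hv)).exists
      exact h1.2.bd.nmem h2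
    obtain ⟨s, hs, hbd⟩ := exists_Bd hf hxv (hsub x hx).1
    obtain ⟨ν', hw'⟩ := T.exists_wall hT hf hbd
    have hs1 : s = 1 := by
      by_contra hne1
      have hs1 : s < 1 := lt_of_le_of_ne hs.2 hne1
      -- a point slightly after `a'` which is strictly invisible
      have htend : Tendsto (fun t : ℝ => y + t • (x - y)) (𝓝[>] s) (𝓝 (y + s • (x - y))) := by
        have hc : Continuous fun t : ℝ => y + t • (x - y) := by fun_prop
        exact (hc.tendsto s).mono_left nhdsWithin_le_nhds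
      obtain ⟨t, h1, h2⟩ := ((htend.eventually hw'.loc.eventually_nhds).and
        (Ioo_mem_nhdsGT hs1)).exists
      set a' : W := y + s • (x - y) with ha'
      set a'' : W := y + t • (x - y) with ha''
      have hneg : B.b ν' (a'' - a') * B.b ν' (y - a') < 0 := by
        have h3 : a'' - a' = (-((t - s) / s)) • (y - a') := by
          have h4 : y - a' = (-s) • (x - y) := by rw [ha']; module
          rw [h4, smul_smul]
          have h5 : -((t - s) / s) * -s = t - s := by
            have := hs.1.ne'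
            field_simp
          rw [h5, ha', ha'']; module
        rw [h3, map_smul, smul_eq_mul, mul_assoc]
        have h6 : 0 < (t - s) / s := div_pos (by linarith [h2.1]) hs.1
        have h7 := mul_self_pos.2 hw'.ne
        nlinarith
      have hcont : Continuous fun c : W => B.b ν' (c - a') * B.b ν' (y - a') := by fun_prop
      have hev : ∀ᶠ c in 𝓝 a'', c ∉ G.Vis f y := by
        filter_upwards [h1, (hcont.tendsto a'').eventually (gt_mem_nhds hneg)] with c h8 h9
        rw [h8]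
        exact not_lt.2 h9.le
      have htend2 : Tendsto (fun c : W => y + t • (c - y)) (𝓝 x) (𝓝 a'') := by
        have hc : Continuous fun c : W => y + t • (c - y) := by fun_prop
        exact hc.tendsto x
      obtain ⟨x', h3, h4⟩ := (hfr.and_eventually (htend2.eventually hev)).exists
      exact h4 (h3.2.bd.vis t ⟨by linarith [hs.1, h2.1], h2.2⟩)
    rw [hs1, one_smul, add_sub_cancel] at hw'
    -- compare the two walls at a nearby point
    obtain ⟨x', ⟨hx'Γ, hwx'⟩, hloc'⟩ := (hfr.and_eventually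
      (hw'.loc.eventually_nhds.and (c_wall_near hw'))).exists
    have hx'Om : x' ∈ Om B.b K := hwx'.bd.om
    have h0 : B.b ν' (x' - x) = 0 := by
      have hsq : B.b ν' (x' - x) * B.b ν' (y - x) = 0 := by
        refine le_antisymm ?_ ?_
        · by_contra hcon
          push Not at hcon
          exact hwx'.bd.nmem (hloc'.1.self_of_nhds.2 hcon)
        · have htend : Tendsto (fun t : ℝ => y + t • (x' - y)) (𝓝[<] 1) (𝓝 x') :=
            (c_tendsto_line y x').mono_left nhdsWithin_le_nhds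
          have hcont : Continuous fun c : W => B.b ν' (c - x) * B.b ν' (y - x) := by fun_prop
          refine ge_of_tendsto ((hcont.tendsto x').comp htend) ?_
          filter_upwards [htend.eventually hloc'.1, Ico_mem_nhdsLT (zero_lt_one' ℝ)]
            with t h1 h2
          exact (h1.1 (hwx'.bd.vis t h2)).le
      rcases mul_eq_zero.1 hsq with h | h
      · exact h
      · exact absurd h hw'.ne
    have hwx'' := hloc'.2 hx'Om h0
    obtain ⟨c, hc, hceq⟩ := hwx''.unique hwx'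
    rw [hceq]
    exact hw'.smul hc
  -- connectedness
  have hopen : ∀ x ∈ Γ, G.Wall f y ν x → ∀ᶠ x' in 𝓝 x, x' ∈ Γ → G.Wall f y ν x' := by
    intro x hx hwx
    filter_upwards [c_wall_near hwx] with x' h1 h2
    exact h1 ((hsub x' h2).1 (right_mem_segment ℝ y x')) (hdiff x hx x' h2)
  have hnot : ∀ x ∈ Γ, ¬ G.Wall f y ν x → ∀ᶠ x' in 𝓝 x, x' ∈ Γ → ¬ G.Wall f y ν x' := by
    intro x hx hnw
    have h1 : ¬ ∃ᶠ x' in 𝓝 x, x' ∈ Γ ∧ G.Wall f y ν x' := fun h => hnw (hclosed x hx h)
    rw [not_frequently] at h1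
    filter_upwards [h1] with x' h2 h3 h4
    exact h2 ⟨h3, h4⟩
  intro x hx
  by_contra hcon
  set v : Set W := interior {x' | x' ∈ Γ → ¬ G.Wall f y ν x'} with hv
  have hu' : IsOpen (interior {x' | x' ∈ Γ → G.Wall f y ν x'}) := isOpen_interior
  have hv' : IsOpen v := isOpen_interior
  obtain ⟨p, hpΓ, hpu, hpv⟩ := hΓ _ _ hu' hv' (fun p hp => by
    by_cases hwp : G.Wall f y ν p
    · exact Or.inl (mem_interior_iff_mem_nhds.2 (hopen p hp hwp))
    · exact Or.inr (mem_interior_iff_mem_nhds.2 (hnot p hp hwp)))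
    ⟨a, haΓ, mem_interior_iff_mem_nhds.2 (hopen a haΓ hw)⟩
    ⟨x, hx, mem_interior_iff_mem_nhds.2 (hnot x hx hcon)⟩
  exact (interior_subset hpv) hpΓ ((interior_subset hpu) hpΓ)

/-- Walls are seen from other points. -/
theorem Tools.wall_move (T : G.Tools ξ r L) (hT : G.TimeLike) (hf : G.IsSec f y) {ν y' : W}
    (hw : G.Wall f y ν a) (hy' : y' ∈ G.Vis f y)
    (hsub : convexHull ℝ {y, y', a} ⊆ Om B.b K)
    (hpos : 0 < B.b ν (y' - a) * B.b ν (y - a)) : G.Wall (G.Fm f y) y' ν a := by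
  obtain ⟨ε, hε, hnear⟩ := c_hull_near (isOpen_Om B.b K) hsub
  have hne : B.b ν (y' - a) ≠ 0 := fun h => by rw [h, zero_mul] at hpos; exact lt_irrefl _ hpos
  refine c_wall_of_loc hw.bd.om hw.null hw.tan hne ?_
  filter_upwards [hw.loc, Metric.ball_mem_nhds a hε] with c h1 h2
  have h3 := (T.base_change hT hf hy' (z := c)
    (hnear _ _ _ (by simpa using hε) (by simpa using hε) h2)).1
  rw [← h3, h1]
  have h4 : 0 < B.b ν (y - a) * B.b ν (y - a) := mul_self_pos.2 hw.ne
  have h5 : 0 < B.b ν (y' - a) * B.b ν (y' - a) := mul_self_pos.2 hne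
  constructor
  · intro h
    have h6 := mul_pos h hpos
    have h7 : B.b ν (c - a) * B.b ν (y - a) * (B.b ν (y' - a) * B.b ν (y - a)) =
        (B.b ν (c - a) * B.b ν (y' - a)) * (B.b ν (y - a) * B.b ν (y - a)) := by ring
    rw [h7] at h6
    exact pos_of_mul_pos_left h6 h4.le
  · intro h
    have h6 := mul_pos h hpos
    have h7 : B.b ν (c - a) * B.b ν (y' - a) * (B.b ν (y' - a) * B.b ν (y - a)) =
        (B.b ν (c - a) * B.b ν (y - a)) * (B.b ν (y' - a) * B.b ν (y' - a)) := by ring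
    rw [h7] at h6
    exact pos_of_mul_pos_left h6 h5.le

end GX

end Pool.H1.Lor
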