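import Pool.Agent.H1.Lor.Loc
import Pool.Agent.H1.Lor.Cont

/-!
# Sections, visible sets, walls (completeness of compact constant curvature Lorentzian manifolds)
-/

namespace Pool.H1.Lor

open Filter Topology Set

variable {W : Type*} [NormedAddCommGroup W] [NormedSpace ℝ W]
  {F : Type*} [NormedAddCommGroup F] [InnerProductSpace ℝ F]

/-- The points which can be projected to the space form. -/
def Om (b : W →L[ℝ] W →L[ℝ] ℝ) (K : ℝ) : Set W := {z | 0 < K * b z z + dl K}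

/-- Points with a segment from `y` inside `Om`. -/
def Zs (b : W →L[ℝ] W →L[ℝ] ℝ) (K : ℝ) (y : W) : Set W := {z | segment ℝ y z ⊆ Om b K}

namespace GX

variable {M : Type*} [TopologicalSpace M] {B : Form W} {K : ℝ}

/-- `f` is near `z` the inverse of a chart, extended radially. -/
def IsSec (G : GX M B K) (f : W → M) (z : W) : Prop :=
  z ∈ Om B.b K ∧ ∃ φ ψ, G.chart (f z) φ ψ ∧ φ (f z) = nrm B.b K z ∧
    f =ᶠ[𝓝 z] fun z' => ψ (nrm B.b K z')

/-- Points visible from `y`: the germ of `f` at `y` extends along the segment `[y,z]`. -/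
def Vis (G : GX M B K) (f : W → M) (y : W) : Set W :=
  {z | ∃ g : W → M, g =ᶠ[𝓝 y] f ∧ ∀ p ∈ segment ℝ y z, G.IsSec g p}

open Classical in
/-- The extension of the germ of `f` at `y` to the visible set. -/
noncomputable def Fm (G : GX M B K) (f : W → M) (y z : W) : M :=
  if h : z ∈ G.Vis f y then h.choose z else f z

/-- The norm of `w` at `z` for the background metric of the manifold. -/
noncomputable def Nn (B : Form W) (K : ℝ) (ξ : M → F) (f : W → M) (z w : W) : ℝ :=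
  ‖fderiv ℝ (ξ ∘ f) z w‖ + |K * B.b z w| / (K * B.b z z + dl K)

/-- The uniform local facts. -/
structure Tools (G : GX M B K) (ξ : M → F) (r L : ℝ) : Prop where
  rpos : 0 < r
  Lpos : 1 ≤ L
  /-- sections extend to ellipsoids of size `r`, with comparable norms -/
  ext : ∀ {f : W → M} {z : W}, G.IsSec f z → ∃ g : W → M, g =ᶠ[𝓝 z] f ∧
    ∀ z', Nn B K ξ f z (z' - z) < r → G.IsSec g z' ∧
      ∀ w, Nn B K ξ f z w ≤ L * Nn B K ξ g z' w ∧ Nn B K ξ g z' w ≤ L * Nn B K ξ f z w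
  /-- the norms are controlled on a null hyperplane -/
  disc : ∀ a ∈ Om B.b K, (∃ τ, Tan B.b K (nrm B.b K a) τ ∧ B.b τ τ < 0) →
    ∃ ρ > 0, ∀ᶠ z in 𝓝 a, ∀ f : W → M, G.IsSec f z →
      ∃ ν : W, ‖ν‖ = 1 ∧ B.b ν ν = 0 ∧ K * B.b ν z = 0 ∧
        ∀ w, B.b ν w = 0 → ρ * Nn B K ξ f z w ≤ ‖w‖
  /-- the norms are locally bounded -/
  bdd : ∀ {f : W → M} {z : W}, G.IsSec f z → ∃ C : ℝ, ∀ᶠ z' in 𝓝 z, ∀ w,
    Nn B K ξ f z' w ≤ C * ‖w‖

/-- Every chart has a timelike vector. -/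
def TimeLike (G : GX M B K) : Prop :=
  ∀ ⦃x φ ψ⦄, G.chart x φ ψ → ∃ τ, Tan B.b K (φ x) τ ∧ B.b τ τ < 0

/-- Boundary points of the visible set. -/
structure Bd (G : GX M B K) (f : W → M) (y a : W) : Prop where
  om : a ∈ Om B.b K
  nmem : a ∉ G.Vis f y
  vis : ∀ t ∈ Ico (0 : ℝ) 1, y + t • (a - y) ∈ G.Vis f y

/-- Boundary points at which the boundary of the visible set is the null hyperplane
orthogonal to `ν`. -/
structure Wall (G : GX M B K) (f : W → M) (y ν a : W) : Prop where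
  bd : G.Bd f y a
  null : B.b ν ν = 0
  tan : K * B.b ν a = 0
  ne : B.b ν (y - a) ≠ 0
  loc : ∀ᶠ c in 𝓝 a, (c ∈ G.Vis f y ↔ 0 < B.b ν (c - a) * B.b ν (y - a))

end GX

end Pool.H1.Lor
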