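import Pool.Agent.H1.CK.Sec
import Pool.Agent.H1.Lor.Energy
import Pool.Agent.H1.Lor.ExtCrit

/-! # Completeness from full visibility (module F) -/

namespace Pool.H1.Lor

open Filter Topology Set Module

/-! ## The model functions -/

theorem F_exists_CS (om : ℝ) : ∃ C S : ℝ → ℝ, C 0 = 1 ∧ S 0 = 0 ∧
    (∀ t, HasDerivAt C (-(om * S t)) t) ∧ (∀ t, HasDerivAt S (C t) t) := by
  rcases lt_trichotomy om 0 with h | h | h
  · set w := Real.sqrt (-om) with hw
    have hw0 : 0 < w := Real.sqrt_pos.2 (by linarith)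
    have hw2 : w * w = -om := Real.mul_self_sqrt (by linarith)
    refine ⟨fun t => Real.cosh (w * t), fun t => Real.sinh (w * t) / w, by simp, by simp, ?_, ?_⟩
    · intro t
      have h1 : HasDerivAt (fun t => w * t) w t := by
        simpa using (hasDerivAt_id t).const_mul w
      refine ((Real.hasDerivAt_cosh (w * t)).comp t h1).congr_deriv ?_
      have : om = -(w * w) := by linarith
      rw [this]
      field_simp
    · intro t
      have h1 : HasDerivAt (fun t => w * t) w t := by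
        simpa using (hasDerivAt_id t).const_mul w
      refine (((Real.hasDerivAt_sinh (w * t)).comp t h1).div_const w).congr_deriv ?_
      field_simp
  · subst h
    refine ⟨fun _ => 1, fun t => t, rfl, rfl, ?_, ?_⟩
    · intro t
      simpa using hasDerivAt_const t (1 : ℝ)
    · intro t
      exact hasDerivAt_id t
  · set w := Real.sqrt om with hw
    have hw0 : 0 < w := Real.sqrt_pos.2 h
    have hw2 : w * w = om := Real.mul_self_sqrt h.le
    refine ⟨fun t => Real.cos (w * t), fun t => Real.sin (w * t) / w, by simp, by simp, ?_, ?_⟩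
    · intro t
      have h1 : HasDerivAt (fun t => w * t) w t := by
        simpa using (hasDerivAt_id t).const_mul w
      refine ((Real.hasDerivAt_cos (w * t)).comp t h1).congr_deriv ?_
      rw [← hw2]
      field_simp
    · intro t
      have h1 : HasDerivAt (fun t => w * t) w t := by
        simpa using (hasDerivAt_id t).const_mul w
      refine (((Real.hasDerivAt_sin (w * t)).comp t h1).div_const w).congr_deriv ?_
      field_simp

theorem F_CS_sq {om : ℝ} {C S : ℝ → ℝ} (hC0 : C 0 = 1) (hS0 : S 0 = 0)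
    (hC : ∀ t, HasDerivAt C (-(om * S t)) t) (hS : ∀ t, HasDerivAt S (C t) t) (t : ℝ) :
    C t ^ 2 + om * S t ^ 2 = 1 := by
  have hd : ∀ s, HasDerivAt (fun s => C s ^ 2 + om * S s ^ 2) 0 s := by
    intro s
    have h1 := ((hC s).pow 2).add (((hS s).pow 2).const_mul om)
    refine h1.congr_deriv ?_
    simp
    ring
  have h2 := is_const_of_deriv_eq_zero (f := fun s => C s ^ 2 + om * S s ^ 2)
    (fun s => (hd s).differentiableAt) (fun s => (hd s).deriv) t 0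
  have h3 : C t ^ 2 + om * S t ^ 2 = C 0 ^ 2 + om * S 0 ^ 2 := h2
  rw [h3, hC0, hS0]
  norm_num

theorem F_CS_pos {om : ℝ} {C S : ℝ → ℝ} (hC0 : C 0 = 1)
    (hC : ∀ t, HasDerivAt C (-(om * S t)) t) : ∃ T > 0, ∀ t, |t| < T → 0 < C t := by
  have h1 : ContinuousAt C 0 := (hC 0).continuousAt
  have h2 : ∀ᶠ t in 𝓝 (0 : ℝ), 0 < C t := h1.eventually (lt_mem_nhds (by rw [hC0]; norm_num))
  obtain ⟨T, hT, h3⟩ := Metric.eventually_nhds_iff.1 h2
  refine ⟨T, hT, fun t ht => h3 ?_⟩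
  rwa [Real.dist_eq, sub_zero]

variable {W : Type*} [NormedAddCommGroup W] [NormedSpace ℝ W]
  {F : Type*} [NormedAddCommGroup F] [InnerProductSpace ℝ F]

/-- The basic quadratic identity. -/
theorem F_quad {b : W →L[ℝ] W →L[ℝ] ℝ} {K : ℝ} (hsym : ∀ x y, b x y = b y x) {y u : W}
    (hy : OnQ b K y) (hu : Tan b K y u) (α β : ℝ) :
    K * b (α • y + β • u) (α • y + β • u) + dl K =
      if K = 0 then 1 else α ^ 2 + β ^ 2 * (K * b u u) := by
  by_cases hK : K = 0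
  · rw [if_pos hK]
    subst hK
    simp [dl_zero]
  · rw [if_neg hK]
    unfold OnQ at hy
    unfold Tan at hu
    rw [dl_ne hK, add_zero] at hy ⊢
    simp only [map_add, map_smul, add_apply, smul_apply, smul_eq_mul]
    rw [hsym u y]
    linear_combination α ^ 2 * hy + 2 * α * β * hu

theorem F_onQ {b : W →L[ℝ] W →L[ℝ] ℝ} {K : ℝ} (hsym : ∀ x y, b x y = b y x) {y u : W}
    (hy : OnQ b K y) (hu : Tan b K y u) {c s : ℝ} (h : c ^ 2 + K * b u u * s ^ 2 = 1) :
    OnQ b K (c • y + s • u) := by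
  unfold OnQ
  rw [F_quad hsym hy hu]
  split_ifs with hK
  · rfl
  · linarith

theorem F_seg {b : W →L[ℝ] W →L[ℝ] ℝ} {K : ℝ} (hsym : ∀ x y, b x y = b y x) {y u : W}
    (hy : OnQ b K y) (hu : Tan b K y u) {c s : ℝ} (h : c ^ 2 + K * b u u * s ^ 2 = 1)
    (hc : 0 < c) : segment ℝ y (c • y + s • u) ⊆ Om b K := by
  rintro p ⟨α, β, hα, hβ, hαβ, rfl⟩
  unfold Om
  rw [mem_ofPred_eq]
  have e : α • y + β • (c • y + s • u) = (α + β * c) • y + (β * s) • u := by
    rw [smul_add, smul_smul, smul_smul, add_smul, add_assoc]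
  rw [e, F_quad hsym hy hu]
  split_ifs with hK
  · norm_num
  · have h2 : (α + β * c) ^ 2 + (β * s) ^ 2 * (K * b u u) = α ^ 2 + 2 * α * β * c + β ^ 2 := by
      linear_combination β ^ 2 * h
    rw [h2]
    have h3 : 0 ≤ 2 * α * β * c := by positivity
    rcases eq_or_lt_of_le hα with h4 | h4
    · have : β = 1 := by linarith
      rw [this, ← h4]; norm_num
    · have : 0 < α ^ 2 := by positivity
      positivity

theorem F_speed {b : W →L[ℝ] W →L[ℝ] ℝ} {K : ℝ} (hsym : ∀ x y, b x y = b y x) {y u : W}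
    (hy : OnQ b K y) (hu : Tan b K y u) {c s : ℝ} (h : c ^ 2 + K * b u u * s ^ 2 = 1) :
    K * b ((-(K * b u u * s)) • y + c • u) ((-(K * b u u * s)) • y + c • u) = K * b u u := by
  by_cases hK : K = 0
  · simp [hK]
  · have h1 := F_quad hsym hy hu (-(K * b u u * s)) c
    rw [if_neg hK, dl_ne hK, add_zero] at h1
    rw [h1]
    linear_combination (K * b u u) * h

/-- The model geodesic solves the equation. -/
theorem F_model {B : Form W} {K : ℝ} {y u : W} (hy : OnQ B.b K y) (hu : Tan B.b K y u)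
    {C S : ℝ → ℝ} (hsq : ∀ t, C t ^ 2 + K * B.b u u * S t ^ 2 = 1)
    (hC : ∀ t, HasDerivAt C (-(K * B.b u u * S t)) t) (hS : ∀ t, HasDerivAt S (C t) t)
    (t₀ t : ℝ) {Z : W → ℝ} (hZ : Z = fun _ => 0) :
    HasDerivAt (fun r => C (r - t₀) • y + S (r - t₀) • u)
      ((-(K * B.b u u * S (t - t₀))) • y + C (t - t₀) • u) t ∧
    SolAt B K Z (fun r => C (r - t₀) • y + S (r - t₀) • u) t := by
  have d1 : ∀ r, HasDerivAt (fun r => C (r - t₀)) (-(K * B.b u u * S (r - t₀))) r := by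
    intro r
    have := (hC (r - t₀)).comp r ((hasDerivAt_id r).sub_const t₀)
    rw [mul_one] at this
    exact this
  have d2 : ∀ r, HasDerivAt (fun r => S (r - t₀)) (C (r - t₀)) r := by
    intro r
    have := (hS (r - t₀)).comp r ((hasDerivAt_id r).sub_const t₀)
    rw [mul_one] at this
    exact this
  have d3 : ∀ r, HasDerivAt (fun r => C (r - t₀) • y + S (r - t₀) • u)
      ((-(K * B.b u u * S (r - t₀))) • y + C (r - t₀) • u) r := fun r =>
    ((d1 r).smul_const y).add ((d2 r).smul_const u)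
  have e : deriv (fun r => C (r - t₀) • y + S (r - t₀) • u) =
      fun r => (-(K * B.b u u * S (r - t₀))) • y + C (r - t₀) • u :=
    funext fun r => (d3 r).deriv
  refine ⟨d3 t, ?_, ?_⟩
  · refine Eventually.of_forall fun r => ?_
    rw [e]
    exact d3 r
  · rw [e]
    have d4 : HasDerivAt (fun r => (-(K * B.b u u * S (r - t₀))) • y + C (r - t₀) • u)
        ((-(K * B.b u u * C (t - t₀))) • y + (-(K * B.b u u * S (t - t₀))) • u) t :=
      ((((d2 t).const_mul (K * B.b u u)).neg).smul_const y).add ((d1 t).smul_const u)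
    refine d4.congr_deriv ?_
    unfold acc
    have h0 : fderiv ℝ Z (C (t - t₀) • y + S (t - t₀) • u) = 0 := by
      rw [hZ]; simp
    rw [h0, F_speed B.symm hy hu (hsq (t - t₀))]
    have h1 : (0 : W →L[ℝ] ℝ) ((-(K * B.b u u * S (t - t₀))) • y + C (t - t₀) • u) = 0 := rfl
    rw [h1, map_zero]
    module

/-- The tangent space. -/
noncomputable def F_ts (b : W →L[ℝ] W →L[ℝ] ℝ) (K : ℝ) (y : W) : Submodule ℝ W :=
  LinearMap.ker (K • b y : W →L[ℝ] ℝ).toLinearMap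

theorem F_mem_ts {b : W →L[ℝ] W →L[ℝ] ℝ} {K : ℝ} {y w : W} :
    w ∈ F_ts b K y ↔ Tan b K y w := Iff.rfl

theorem F_finrank_ts [FiniteDimensional ℝ W] {b : W →L[ℝ] W →L[ℝ] ℝ} {K : ℝ} {y : W}
    (hy : OnQ b K y) {n : ℕ} (hdim : finrank ℝ W = n + if K = 0 then 0 else 1) :
    finrank ℝ (F_ts b K y) = n := by
  by_cases hK : K = 0
  · subst hK
    have : F_ts b 0 y = ⊤ := by
      rw [eq_top_iff]
      intro w _
      rw [F_mem_ts]
      simp [Tan]
    rw [this, finrank_top, hdim]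
    simp
  · rw [if_neg hK] at hdim
    unfold OnQ at hy
    rw [dl_ne hK, add_zero] at hy
    have h1 := LinearMap.finrank_range_add_finrank_ker (K • b y : W →L[ℝ] ℝ).toLinearMap
    have h2 : LinearMap.range (K • b y : W →L[ℝ] ℝ).toLinearMap = ⊤ := by
      rw [LinearMap.range_eq_top]
      intro r
      refine ⟨r • y, ?_⟩
      have : (K • b y) (r • y) = r * (K * b y y) := by
        simp only [map_smul, smul_eq_mul, smul_apply]
      have h3 : (K • b y : W →L[ℝ] ℝ).toLinearMap (r • y) = (K • b y) (r • y) := rfl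
      rw [h3, this, hy, mul_one]
    rw [h2, finrank_top, finrank_self] at h1
    unfold F_ts
    omega

theorem F_tan_proj {b : W →L[ℝ] W →L[ℝ] ℝ} {K : ℝ} {y : W} (hy : OnQ b K y) (v : W) :
    Tan b K y (v - (K * b y v) • y) := by
  unfold Tan
  by_cases hK : K = 0
  · simp [hK]
  · unfold OnQ at hy
    rw [dl_ne hK, add_zero] at hy
    simp only [map_sub, map_smul, smul_eq_mul]
    linear_combination (-(K * b y v)) * hy

theorem F_bound_one [FiniteDimensional ℝ W] (B : Form W) {K : ℝ} {y w : W}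
    (hy : OnQ B.b K y) (hw : Tan B.b K y w) (hdim : finrank ℝ W = 1 + if K = 0 then 0 else 1)
    {C : ℝ} (hC : ‖y‖ ≤ C) :
    ‖w‖ ^ 2 ≤ ‖B.sharp‖ * (1 + |K| * ‖B.b‖ * C ^ 2) * |B.b w w| := by
  have hC0 : 0 ≤ C := (norm_nonneg _).trans hC
  by_cases hw0 : w = 0
  · subst hw0; simp
  have hwn : 0 < ‖w‖ := norm_pos_iff.2 hw0
  have h1 : ‖B.b w‖ ≤ (1 + |K| * ‖B.b‖ * C ^ 2) * |B.b w w| / ‖w‖ := by
    refine ContinuousLinearMap.opNorm_le_bound _ (by positivity) fun v => ?_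
    have h2 := F_tan_proj hy v
    obtain ⟨μ, hμ⟩ := exists_smul_eq_of_finrank_eq_one (F_finrank_ts hy hdim)
      (x := (⟨w, hw⟩ : F_ts B.b K y)) (fun h => hw0 (congrArg Subtype.val h)) ⟨_, h2⟩
    have h3 : μ • w = v - (K * B.b y v) • y := congrArg Subtype.val hμ
    have h4 : B.b w v = μ * B.b w w := by
      have : v = μ • w + (K * B.b y v) • y := by rw [h3]; abel
      have h5 : B.b w v = B.b w (μ • w + (K * B.b y v) • y) := by rw [← this]
      unfold Tan at hw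
      rw [h5, map_add, map_smul, map_smul, smul_eq_mul, smul_eq_mul, B.symm w y]
      linear_combination (B.b y v) * hw
    have h6 : |μ| * ‖w‖ ≤ (1 + |K| * ‖B.b‖ * C ^ 2) * ‖v‖ := by
      calc |μ| * ‖w‖ = ‖μ • w‖ := by rw [norm_smul, Real.norm_eq_abs]
        _ = ‖v - (K * B.b y v) • y‖ := by rw [h3]
        _ ≤ ‖v‖ + ‖(K * B.b y v) • y‖ := norm_sub_le _ _
        _ = ‖v‖ + |K| * |B.b y v| * ‖y‖ := by rw [norm_smul, Real.norm_eq_abs, abs_mul]
        _ ≤ ‖v‖ + |K| * (‖B.b‖ * C * ‖v‖) * C := by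
            have : |B.b y v| ≤ ‖B.b‖ * C * ‖v‖ := by
              calc |B.b y v| ≤ ‖B.b‖ * ‖y‖ * ‖v‖ := B.b.le_opNorm₂ y v
                _ ≤ ‖B.b‖ * C * ‖v‖ := by gcongr
            gcongr
        _ = (1 + |K| * ‖B.b‖ * C ^ 2) * ‖v‖ := by ring
    rw [h4, Real.norm_eq_abs, abs_mul, div_mul_eq_mul_div, le_div_iff₀ hwn]
    calc |μ| * |B.b w w| * ‖w‖ = (|μ| * ‖w‖) * |B.b w w| := by ring
      _ ≤ ((1 + |K| * ‖B.b‖ * C ^ 2) * ‖v‖) * |B.b w w| := by gcongr
      _ = (1 + |K| * ‖B.b‖ * C ^ 2) * |B.b w w| * ‖v‖ := by ring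
  have h2 : B.sharp (B.b w) = w := B.eq_of_forall fun v => by rw [B.b_sharp]
  have h3 : ‖w‖ ≤ ‖B.sharp‖ * ((1 + |K| * ‖B.b‖ * C ^ 2) * |B.b w w| / ‖w‖) := by
    calc ‖w‖ = ‖B.sharp (B.b w)‖ := by rw [h2]
      _ ≤ ‖B.sharp‖ * ‖B.b w‖ := B.sharp.le_opNorm _
      _ ≤ _ := by gcongr
  calc ‖w‖ ^ 2 = ‖w‖ * ‖w‖ := by ring
    _ ≤ ‖B.sharp‖ * ((1 + |K| * ‖B.b‖ * C ^ 2) * |B.b w w| / ‖w‖) * ‖w‖ := by gcongr
    _ = ‖B.sharp‖ * (1 + |K| * ‖B.b‖ * C ^ 2) * |B.b w w| := by field_simp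

theorem F_nb (b : W →L[ℝ] W →L[ℝ] ℝ) (x y : W) : (-b) x y = -(b x y) := rfl

/-- The opposite form. -/
noncomputable def F_neg (B : Form W) : Form W where
  b := -B.b
  symm := fun x y => by rw [F_nb, F_nb, B.symm]
  sharp := -B.sharp
  b_sharp := fun l w => by
    have h1 : (-B.sharp) l = -(B.sharp l) := rfl
    rw [F_nb, h1, map_neg, neg_apply, neg_neg, B.b_sharp]
  nondeg := fun x hx => B.nondeg x fun y => by
    have h := hx y
    rw [F_nb] at h
    linarith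

theorem F_dl_neg (K : ℝ) : dl (-K) = dl K := by simp [dl]

theorem F_form_neg (b : W →L[ℝ] W →L[ℝ] ℝ) (K : ℝ) (z w : W) :
    (-K) * (-b) z w = K * b z w := by rw [F_nb]; ring

theorem F_onQ_neg {b : W →L[ℝ] W →L[ℝ] ℝ} {K : ℝ} {y : W} : OnQ (-b) (-K) y ↔ OnQ b K y := by
  unfold OnQ; rw [F_form_neg, F_dl_neg]

theorem F_tan_neg {b : W →L[ℝ] W →L[ℝ] ℝ} {K : ℝ} {y w : W} :
    Tan (-b) (-K) y w ↔ Tan b K y w := by
  unfold Tan; rw [F_form_neg]

theorem F_nrm_neg (b : W →L[ℝ] W →L[ℝ] ℝ) (K : ℝ) (z : W) : nrm (-b) (-K) z = nrm b K z := by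
  unfold nrm nf; rw [F_form_neg, F_dl_neg]

/-- Isometries of the opposite form. -/
def F_iso {b b' : W →L[ℝ] W →L[ℝ] ℝ} {K K' : ℝ} (hb : b' = -b) (hK : K' = -K)
    (A : Iso b K) : Iso b' K' where
  L := A.L
  a := A.a
  isom := fun x y => by rw [hb, F_nb, F_nb, A.isom]
  Ka := by rw [hK, neg_smul, A.Ka, neg_zero]

theorem F_acc_neg (B : Form W) (K : ℝ) (S : W → ℝ) (y u : W) :
    acc (F_neg B) (-K) S y u = acc B K S y u := by
  unfold acc
  have h1 : (F_neg B).b u u = -(B.b u u) := rfl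
  have h2 : (F_neg B).sharp (fderiv ℝ S y) = -(B.sharp (fderiv ℝ S y)) := rfl
  rw [h1, h2]
  module

theorem F_solAt_neg {B : Form W} {K : ℝ} {S : W → ℝ} {y : ℝ → W} {t : ℝ} :
    SolAt (F_neg B) (-K) S y t ↔ SolAt B K S y t := by
  unfold SolAt; rw [F_acc_neg]

/-- In a plane, the orthogonal complement of a spacelike line is timelike. -/
theorem F_plane_lor [FiniteDimensional ℝ W] (B : Form W) {T : Submodule ℝ W}
    (hT : finrank ℝ T = 2) {τ₀ τ p : W} (h₀ : τ₀ ∈ T) (h₀' : B.b τ₀ τ₀ < 0) (hτ : τ ∈ T)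
    (hp : p ∈ T) (hτ' : 0 < B.b τ τ) (hτp : B.b τ p = 0) (hp0 : p ≠ 0) : B.b p p < 0 := by
  have hli : LinearIndependent ℝ ![(⟨τ, hτ⟩ : T), ⟨p, hp⟩] := by
    rw [LinearIndependent.pair_iff]
    intro s t hst
    have h1 : s • τ + t • p = 0 := congrArg Subtype.val hst
    have h2 : B.b τ (s • τ + t • p) = 0 := by rw [h1, map_zero]
    rw [map_add, map_smul, map_smul, hτp, smul_zero, add_zero, smul_eq_mul] at h2
    have hs : s = 0 := (mul_eq_zero.1 h2).resolve_right hτ'.ne'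
    rw [hs, zero_smul, zero_add] at h1
    exact ⟨hs, (smul_eq_zero.1 h1).resolve_right hp0⟩
  have hspan := hli.span_eq_top_of_card_eq_finrank' (by simp [hT])
  have hmem : (⟨τ₀, h₀⟩ : T) ∈ Submodule.span ℝ (Set.range ![(⟨τ, hτ⟩ : T), ⟨p, hp⟩]) := by
    rw [hspan]; trivial
  rw [Matrix.range_cons, Matrix.range_cons, Matrix.range_empty, Set.union_empty,
    Set.singleton_union, Submodule.mem_span_pair] at hmem
  obtain ⟨s, t, hst⟩ := hmem
  have h1 : s • τ + t • p = τ₀ := congrArg Subtype.val hst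
  rw [← h1] at h₀'
  simp only [map_add, map_smul, add_apply, smul_apply, smul_eq_mul, B.symm p τ, hτp] at h₀'
  by_contra hcon
  push Not at hcon
  nlinarith [mul_nonneg (mul_self_nonneg s) hτ'.le, mul_nonneg (mul_self_nonneg t) hcon]

/-- In a plane there is a nonzero vector orthogonal to a given one. -/
theorem F_plane_orth [FiniteDimensional ℝ W] (B : Form W) {T : Submodule ℝ W}
    (hT : finrank ℝ T = 2) (τ : W) : ∃ p ∈ T, p ≠ 0 ∧ B.b τ p = 0 := by
  set f : T →ₗ[ℝ] ℝ := (B.b τ).toLinearMap.comp T.subtype with hf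
  have h1 := LinearMap.finrank_range_add_finrank_ker f
  have h2 : finrank ℝ (LinearMap.range f) ≤ 1 := by
    have := Submodule.finrank_le (LinearMap.range f)
    rwa [finrank_self] at this
  have h3 : 0 < finrank ℝ (LinearMap.ker f) := by omega
  obtain ⟨⟨⟨p, hpT⟩, hp⟩, hp0⟩ := (finrank_pos_iff_exists_ne_zero (R := ℝ)).1 h3
  refine ⟨p, hpT, ?_, hp⟩
  intro h
  apply hp0
  ext
  exact h

namespace GX

variable {M : Type*} [TopologicalSpace M] [T2Space M] [FiniteDimensional ℝ W]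
  {B : Form W} {K : ℝ} {G : GX M B K} {ξ : M → F}

theorem F_smooth_zero : G.Smooth (fun _ => (0 : ℝ)) := fun _ _ _ _ => contDiffAt_const

omit [FiniteDimensional ℝ W] in
/-- The projected model geodesic. -/
theorem F_proj
    (h : ∀ (f : W → M) (y z : W), G.IsSec f y → OnQ B.b K y → segment ℝ y z ⊆ Om B.b K →
      z ∈ G.Vis f y) {x : M} {φ : M → W} {ψ : W → M} (hx : G.chart x φ ψ) {u : W}
    (hu : Tan B.b K (φ x) u) {C S : ℝ → ℝ} (hC0 : C 0 = 1) (hS0 : S 0 = 0)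
    (hsq : ∀ t, C t ^ 2 + K * B.b u u * S t ^ 2 = 1)
    (hC : ∀ t, HasDerivAt C (-(K * B.b u u * S t)) t) (hS : ∀ t, HasDerivAt S (C t) t)
    {T : ℝ} (hT : 0 < T) (hpos : ∀ t, |t| < T → 0 < C t) (t₀ : ℝ) :
    ∃ c₁ : ℝ → M, c₁ t₀ = x ∧ deriv (φ ∘ c₁) t₀ = u ∧
      ∀ t ∈ Ioo (t₀ - T) (t₀ + T), G.Geo (fun _ => 0) c₁ t := by
  have hy : OnQ B.b K (φ x) := G.onQ hx
  set y := φ x with hyd
  set q : ℝ → W := fun r => C (r - t₀) • y + S (r - t₀) • u with hq
  have hsec : G.IsSec ψ y := isSec_chart hx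
  have hq0 : q t₀ = y := by simp [hq, hC0, hS0]
  have hqd := F_model hy hu hsq hC hS t₀
  have hqQ : ∀ t, OnQ B.b K (q t) := fun t => F_onQ B.symm hy hu (hsq (t - t₀))
  have hqv : ∀ t ∈ Ioo (t₀ - T) (t₀ + T), q t ∈ G.Vis ψ y := by
    intro t ht
    refine h ψ y (q t) hsec hy (F_seg B.symm hy hu (hsq (t - t₀)) (hpos _ ?_))
    rw [abs_lt]
    constructor <;> linarith [ht.1, ht.2]
  have hqc : ∀ t, ContinuousAt q t := fun t =>
    (hqd t (Z := fun _ => 0) rfl).1.continuousAt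
  have hbase : G.Fm ψ y =ᶠ[𝓝 y] ψ := Fm_base hsec
  refine ⟨fun t => G.Fm ψ y (q t), ?_, ?_, ?_⟩
  · simp only [hq0]
    rw [hbase.self_of_nhds]
    exact G.left_inv hx
  · have t1 : Tendsto q (𝓝 t₀) (𝓝 y) := by
      have := (hqc t₀).tendsto
      rwa [hq0] at this
    have e1 : (φ ∘ fun t => G.Fm ψ y (q t)) =ᶠ[𝓝 t₀] q := by
      filter_upwards [t1.eventually hbase, t1.eventually (G.right_inv hx)] with t h1 h2
      simp only [Function.comp_apply]
      rw [h1, h2.1, nrm_onQ (hqQ t)]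
    rw [e1.deriv_eq, (hqd t₀ (Z := fun _ => 0) rfl).1.deriv]
    simp [hC0, hS0]
  · intro t ht
    have hs := Fm_isSec (G := G) (hqv t ht)
    obtain ⟨hOm, φ₁, ψ₁, h1, h2, h3⟩ := hs
    rw [nrm_onQ (hqQ t)] at h2
    have hcont : ContinuousAt (fun t => G.Fm ψ y (q t)) t :=
      ContinuousAt.comp (g := G.Fm ψ y) (f := q) (Fm_isSec (G := G) (hqv t ht)).continuousAt
        (hqc t)
    refine ⟨hcont, φ₁, ψ₁, h1, ?_⟩
    have hr := G.right_inv h1
    rw [h2] at hr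
    have e1 : (φ₁ ∘ fun t => G.Fm ψ y (q t)) =ᶠ[𝓝 t] q := by
      filter_upwards [(hqc t).eventually h3, (hqc t).eventually hr] with r h4 h5
      simp only [Function.comp_apply]
      rw [h4, nrm_onQ (hqQ r), h5.1, nrm_onQ (hqQ r)]
    exact (hqd t (Z := (fun _ => (0 : ℝ)) ∘ ψ₁) rfl).2.congr e1

theorem complete_of_vis
    (h : ∀ (f : W → M) (y z : W), G.IsSec f y → OnQ B.b K y → segment ℝ y z ⊆ Om B.b K →
      z ∈ G.Vis f y) : G.Complete (fun _ => 0) := by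
  have hσ : G.Smooth (fun _ => (0 : ℝ)) := F_smooth_zero
  refine complete_of_ext hσ ?_
  intro a b hab c hc
  obtain ⟨t₁, ht₁⟩ := exists_between hab
  obtain ⟨C, S, hC0, hS0, hC, hS⟩ := F_exists_CS (K * G.energy (fun _ => 0) c t₁)
  have hsq := F_CS_sq hC0 hS0 hC hS
  obtain ⟨T, hT, hpos⟩ := F_CS_pos hC0 hC
  set t₀ := max t₁ (b - T / 2) with ht₀
  have ht₀1 : t₀ ∈ Ioo a b := ⟨ht₁.1.trans_le (le_max_left _ _), max_lt ht₁.2 (by linarith)⟩
  have ht₀2 : b < t₀ + T := by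
    have : b - T / 2 ≤ t₀ := le_max_right _ _
    linarith
  obtain ⟨φ, ψ, hx⟩ := G.exists_chart (c t₀)
  have hu := tan_deriv hσ (hc t₀ ht₀1) hx
  have hE : G.energy (fun _ => 0) c t₁ =
      B.b (deriv (φ ∘ c) t₀) (deriv (φ ∘ c) t₀) := by
    rw [energy_const hσ isOpen_Ioo ordConnected_Ioo hc t₁ ⟨ht₁.1, ht₁.2⟩ t₀ ht₀1,
      energy_eq hσ (hc t₀ ht₀1) hx]
    simp
  rw [hE] at hC hsq
  obtain ⟨c₁, hc₁0, hc₁1, hc₁⟩ := F_proj h hx hu hC0 hS0 hsq hC hS hT hpos t₀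
  have hloc : c =ᶠ[𝓝 t₀] c₁ := by
    refine geo_unique_local hσ ?_ ?_ hx hc₁0.symm hc₁1.symm
    · filter_upwards [isOpen_Ioo.mem_nhds ht₀1] with s hs using hc s hs
    · filter_upwards [Ioo_mem_nhds (show t₀ - T < t₀ by linarith)
        (show t₀ < t₀ + T by linarith)] with s hs using hc₁ s hs
  have hagree : ∀ s ∈ Ioo (max a (t₀ - T)) b, c s = c₁ s := by
    refine geo_unique hσ isOpen_Ioo ordConnected_Ioo (t := t₀) ?_ ?_ ?_ hloc
    · intro s hs; exact hc s ⟨(le_max_left _ _).trans_lt hs.1, hs.2⟩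
    · intro s hs; exact hc₁ s ⟨(le_max_right _ _).trans_lt hs.1, by linarith [hs.2]⟩
    · exact ⟨max_lt ht₀1.1 (by linarith), ht₀1.2⟩
  refine ⟨t₀ + T, ht₀2, fun s => if s < b then c s else c₁ s, ?_, ?_⟩
  · intro s hs
    rcases lt_or_ge s b with hsb | hsb
    · refine (hc s ⟨hs.1, hsb⟩).congr ?_
      filter_upwards [gt_mem_nhds hsb] with q hq
      simp [hq]
    · refine (hc₁ s ⟨by linarith [ht₀1.2], hs.2⟩).congr ?_
      filter_upwards [lt_mem_nhds (show t₀ < s by linarith [ht₀1.2])] with q hq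
      by_cases hqb : q < b
      · simp only [hqb, if_true]
        exact hagree q ⟨max_lt (ht₀1.1.trans hq) (by linarith), hqb⟩
      · simp [hqb]
  · intro s hs
    simp [hs.2]

/-- One-dimensional manifolds. -/
theorem complete_dim_one [CompactSpace M] (hT : G.TimeLike) (hξ : G.Smooth ξ)
    (himm : G.Immersion ξ) (hdim : finrank ℝ W = 1 + if K = 0 then 0 else 1) :
    G.Complete (fun _ => 0) := by
  have hσ : G.Smooth (fun _ => (0 : ℝ)) := F_smooth_zero
  refine complete_of_ext hσ ?_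
  intro a b hab c hc
  obtain ⟨t₁, ht₁⟩ := exists_between hab
  obtain ⟨C, hC1, hgood⟩ := exists_goodChart hσ hξ himm
  set E := G.energy (fun _ => 0) c t₁ with hE
  set R := ‖B.sharp‖ * (1 + |K| * ‖B.b‖ * C ^ 2) * |E| with hR
  refine ext_crit hσ hξ himm hab hc (R := C * Real.sqrt R) ?_
  refine Eventually.frequently ?_
  filter_upwards [Ioo_mem_nhdsLT hab] with t ht
  obtain ⟨φ, ψ, hg⟩ := hgood (c t)
  have hx := hg.chart
  have hs := (hc t ht).solAt hσ hx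
  have h1 : HasDerivAt (φ ∘ c) (deriv (φ ∘ c) t) t := hs.1.self_of_nhds
  have h5 : HasFDerivAt (ξ ∘ ψ) (fderiv ℝ (ξ ∘ ψ) (φ (c t))) ((φ ∘ c) t) :=
    (G.differentiableAt hξ hx).hasFDerivAt
  have h6 := h5.comp_hasDerivAt t h1
  have h7 : (ξ ∘ c) =ᶠ[𝓝 t] (ξ ∘ ψ) ∘ (φ ∘ c) := by
    filter_upwards [(hc t ht).1.eventually (G.nhds hx)] with s hs'
    simp only [Function.comp_apply, G.left_inv hs']
  have h8 : fderiv ℝ (ξ ∘ ψ) (φ (c t)) (deriv (φ ∘ c) t) = deriv (ξ ∘ c) t :=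
    (h6.congr_of_eventuallyEq h7).deriv.symm
  have hu := tan_deriv hσ (hc t ht) hx
  have hEt : E = B.b (deriv (φ ∘ c) t) (deriv (φ ∘ c) t) := by
    rw [hE, energy_const hσ isOpen_Ioo ordConnected_Ioo hc t₁ ⟨ht₁.1, ht₁.2⟩ t ht,
      energy_eq hσ (hc t ht) hx]
    simp
  have h9 := F_bound_one B (G.onQ hx) hu hdim hg.y
  rw [← hEt, ← hR] at h9
  have h10 : ‖deriv (φ ∘ c) t‖ ≤ Real.sqrt R := Real.le_sqrt_of_sq_le h9
  rw [← h8]
  calc ‖fderiv ℝ (ξ ∘ ψ) (φ (c t)) (deriv (φ ∘ c) t)‖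
      ≤ ‖fderiv ℝ (ξ ∘ ψ) (φ (c t))‖ * ‖deriv (φ ∘ c) t‖ := ContinuousLinearMap.le_opNorm _ _
    _ ≤ C * Real.sqrt R := mul_le_mul hg.dξ h10 (norm_nonneg _) (by linarith)

/-- In dimension two `(b, K)` can be replaced by `(-b, -K)`. -/
theorem exists_flip (hT : G.TimeLike) (hK : 0 < K) (hdim : finrank ℝ W = 3) :
    ∃ (B' : Form W) (G' : GX M B' (-K)), G'.TimeLike ∧ (G.Smooth ξ → G'.Smooth ξ) ∧
      (G.Immersion ξ → G'.Immersion ξ) ∧
      (G'.Complete (fun _ => 0) → G.Complete (fun _ => 0)) := by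
  have h2 : ∀ {y}, OnQ B.b K y → finrank ℝ (F_ts B.b K y) = 2 := fun hy =>
    F_finrank_ts hy (by rw [hdim, if_neg hK.ne'])
  refine ⟨F_neg B,
    { chart := G.chart
      exists_chart := G.exists_chart
      onQ := fun h => F_onQ_neg.2 (G.onQ h)
      lor := ?_
      cont := G.cont
      cont_inv := G.cont_inv
      left_inv := G.left_inv
      nhds := G.nhds
      right_inv := ?_
      comp := ?_
      rigid := ?_ }, ?_, ?_, ?_, ?_⟩
  · intro x φ ψ h τ p hτ hp hττ hτp hp0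
    obtain ⟨τ₀, h₀, h₀'⟩ := hT h
    have := F_plane_lor B (h2 (G.onQ h)) h₀ h₀' (F_tan_neg.1 hτ) (F_tan_neg.1 hp)
      (by have : (F_neg B).b τ τ = -(B.b τ τ) := rfl
          linarith) (by have : (F_neg B).b τ p = -(B.b τ p) := rfl
                        linarith) hp0
    have h3 : (F_neg B).b p p = -(B.b p p) := rfl
    linarith
  · intro x φ ψ h
    filter_upwards [G.right_inv h] with z hz
    have : nrm (F_neg B).b (-K) z = nrm B.b K z := F_nrm_neg B.b K z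
    rw [this]
    exact hz
  · intro x φ ψ h A
    exact G.comp h (F_iso (b := (F_neg B).b) (K := -K) (neg_neg B.b).symm
      (by rw [neg_neg]) A)
  · intro x φ ψ φ' ψ' h h'
    obtain ⟨A, hA⟩ := G.rigid h h'
    exact ⟨F_iso rfl rfl A, hA⟩
  · intro x φ ψ h
    obtain ⟨τ₀, h₀, h₀'⟩ := hT h
    obtain ⟨p, hp, hp0, hpo⟩ := F_plane_orth B (h2 (G.onQ h)) τ₀
    refine ⟨p, F_tan_neg.2 hp, ?_⟩
    have h3 := G.lor h τ₀ p h₀ hp h₀' hpo hp0
    have h4 : (F_neg B).b p p = -(B.b p p) := rfl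
    linarith
  · intro h x φ ψ hx
    exact h hx
  · intro h x φ ψ hx w hw
    exact h hx w (F_tan_neg.1 hw)
  · intro h s hs hs' hne c hc
    obtain ⟨c', h1, h3⟩ := h s hs hs' hne c fun t ht => by
      obtain ⟨h4, φ, ψ, h5, h6⟩ := hc t ht
      exact ⟨h4, φ, ψ, h5, F_solAt_neg.2 h6⟩
    refine ⟨c', fun t => ?_, h3⟩
    obtain ⟨h4, φ, ψ, h5, h6⟩ := h1 t
    exact ⟨h4, φ, ψ, h5, F_solAt_neg.1 h6⟩

end GX

end Pool.H1.Lor
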