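import Pool.Agent.H1.CK.C
import Pool.Agent.H84.KL.GH

/-! # The flat case (module K0) -/

namespace Pool.H1.Lor

open Filter Topology Set

variable {W : Type*} [NormedAddCommGroup W] [NormedSpace ℝ W]
  {F : Type*} [NormedAddCommGroup F] [InnerProductSpace ℝ F]

namespace GX

variable {M : Type*} [TopologicalSpace M] [T2Space M] [FiniteDimensional ℝ W]
  {B : Form W} {G : GX M B 0} {ξ : M → F} {f g : W → M} {y z a : W} {r L : ℝ}

omit [FiniteDimensional ℝ W] in
theorem k0_sub_Om (s : Set W) : s ⊆ Om B.b 0 := by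
  rw [Om_zero]; exact subset_univ s

omit [FiniteDimensional ℝ W] in
/-- a point of a segment at a prescribed level -/
theorem k0_level (l : W →L[ℝ] ℝ) {p q : W} {c : ℝ} (h1 : l q ≤ c) (h2 : c ≤ l p) :
    ∃ x ∈ segment ℝ p q, l x = c := by
  have hc : IsPreconnected (segment ℝ p q) := (convex_segment p q).isPreconnected
  have himg := hc.image l l.continuous.continuousOn
  have h3 : l q ∈ l '' segment ℝ p q := ⟨q, right_mem_segment ℝ p q, rfl⟩
  have h4 : l p ∈ l '' segment ℝ p q := ⟨p, left_mem_segment ℝ p q, rfl⟩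
  obtain ⟨x, hx, hx'⟩ := himg.Icc_subset h3 h4 ⟨h1, h2⟩
  exact ⟨x, hx, hx'⟩

omit [FiniteDimensional ℝ W] in
theorem k0_level' (l : W →L[ℝ] ℝ) {p q : W} {c : ℝ} (h1 : l p ≤ c) (h2 : c ≤ l q) :
    ∃ x ∈ segment ℝ p q, l x = c := by
  obtain ⟨x, hx, hx'⟩ := k0_level l h1 h2
  exact ⟨x, by rwa [segment_symm], hx'⟩

/-- the walls at one level -/
theorem Tools.k0_par (T : G.Tools ξ r L) (hT : G.TimeLike) (hf : G.IsSec f y) {ν : W}
    (hw : G.Wall f y ν a) {a' : W} (ha' : G.Bd f y a') :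
    ∀ x, B.b ν x = B.b ν a' → x ∉ G.Vis f y := by
  intro x hx
  have hne0 : ∀ {ν' a' : W}, G.Wall f y ν' a' → ∀ x, B.b ν' x = B.b ν' a' → G.Wall f y ν' x := by
    intro ν' a' hw' x hx
    refine T.spread hT hf hw' (Γ := {x | B.b ν' x = B.b ν' a'}) ?_ rfl ?_ x hx
    · refine Convex.isPreconnected ?_
      intro p hp q hq s t hs ht hst
      simp only [mem_ofPred_eq] at hp hq ⊢
      rw [map_add, map_smul, map_smul, hp, hq, ← add_smul, hst, one_smul]
    · intro x hx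
      refine ⟨k0_sub_Om _, ?_⟩
      rw [map_sub, hx, sub_self]
  obtain ⟨ν', hw'⟩ := T.exists_wall hT hf ha'
  by_cases haa : B.b ν a' = B.b ν a
  · exact (hne0 hw x (hx.trans haa)).bd.nmem
  · have hker : ∀ w, B.b ν w = 0 → B.b ν' w = 0 := by
      intro w hw0
      by_contra hcon
      set s : ℝ := -(B.b ν' (a - a')) / B.b ν' w with hs
      have h1 : B.b ν (a + s • w) = B.b ν a := by
        rw [map_add, map_smul, hw0, smul_zero, add_zero]
      have h2 : B.b ν' (a + s • w) = B.b ν' a' := by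
        rw [map_add, map_smul, hs, smul_eq_mul, div_mul_cancel₀ _ hcon, map_sub]
        ring
      obtain ⟨c, -, hc⟩ := (hne0 hw _ h1).unique (hne0 hw' _ h2)
      apply hcon
      rw [hc, map_smul, smul_apply, hw0, smul_zero]
    have h3 : B.b ν' x = B.b ν' a' := by
      have h4 : B.b ν (x - a') = 0 := by rw [map_sub, hx, sub_self]
      have h5 := hker _ h4
      rw [map_sub] at h5
      linarith
    exact (hne0 hw' x h3).bd.nmem

/-- Shape of the visible set. -/
theorem Tools.flat_shape (T : G.Tools ξ r L) (hT : G.TimeLike) (hf : G.IsSec f y) :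
    G.Vis f y = univ ∨ ∃ (l : W →L[ℝ] ℝ) (c : ℝ), l ≠ 0 ∧
      (G.Vis f y = {z | c < l z} ∨ ∃ d, c < d ∧ G.Vis f y = {z | c < l z ∧ l z < d}) := by
  by_cases huniv : G.Vis f y = univ
  · exact Or.inl huniv
  right
  obtain ⟨z0, hz0⟩ := (ne_univ_iff_exists_notMem _).1 huniv
  obtain ⟨t0, ht0, hbd⟩ := exists_Bd hf hz0 (k0_sub_Om _)
  set a := y + t0 • (z0 - y) with ha
  obtain ⟨ν, hw⟩ := T.exists_wall hT hf hbd
  have hyD : y ∈ G.Vis f y := base_mem_Vis hf
  set l : W →L[ℝ] ℝ := B.b ν (y - a) • B.b ν with hl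
  have hlv : ∀ x, l x = B.b ν (y - a) * B.b ν x := fun x => by simp [hl]
  have hlya : l a < l y := by
    have h1 : 0 < B.b ν (y - a) * B.b ν (y - a) := mul_self_pos.2 hw.ne
    rw [hlv, hlv]
    have h2 : B.b ν (y - a) * B.b ν y - B.b ν (y - a) * B.b ν a =
        B.b ν (y - a) * B.b ν (y - a) := by rw [← mul_sub, ← map_sub]
    linarith
  have hl0 : l ≠ 0 := by
    intro h
    rw [h] at hlya
    simp at hlya
  -- levels of boundary points avoid the visible set
  have par : ∀ a', G.Bd f y a' → ∀ x, l x = l a' → x ∉ G.Vis f y := by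
    intro a' ha' x hx
    rw [hlv, hlv] at hx
    exact T.k0_par hT hf hw ha' x (mul_left_cancel₀ hw.ne hx)
  have parne : ∀ a', G.Bd f y a' → l a' ≠ l y := fun a' ha' h => par a' ha' y h.symm hyD
  have cross1 : ∀ a', G.Bd f y a' → l a' < l y → ∀ z ∈ G.Vis f y, l a' < l z := by
    intro a' ha' h1 z hz
    by_contra hcon
    push Not at hcon
    obtain ⟨x, hx, hx'⟩ := k0_level l hcon h1.le
    exact par a' ha' x hx' (Vis_segment hz hx)
  have cross2 : ∀ a', G.Bd f y a' → l y < l a' → ∀ z ∈ G.Vis f y, l z < l a' := by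
    intro a' ha' h1 z hz
    by_contra hcon
    push Not at hcon
    obtain ⟨x, hx, hx'⟩ := k0_level' l h1.le hcon
    exact par a' ha' x hx' (Vis_segment hz hx)
  -- points of `[y, a')` are visible
  have two1 : ∀ a1 a2, G.Bd f y a1 → G.Bd f y a2 → l a1 < l y → l a2 < l y → l a2 ≤ l a1 := by
    intro a1 a2 h1 h2 g1 g2
    by_contra hcon
    push Not at hcon
    have hd : 0 < l y - l a1 := by linarith
    have ht : (l y - l a2) / (l y - l a1) ∈ Ico (0 : ℝ) 1 := by
      refine ⟨div_nonneg (by linarith) hd.le, ?_⟩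
      rw [div_lt_one hd]; linarith
    refine par a2 h2 _ ?_ (h1.vis _ ht)
    rw [map_add, map_smul, map_sub, smul_eq_mul]
    field_simp
    ring
  have two2 : ∀ a1 a2, G.Bd f y a1 → G.Bd f y a2 → l y < l a1 → l y < l a2 → l a1 ≤ l a2 := by
    intro a1 a2 h1 h2 g1 g2
    by_contra hcon
    push Not at hcon
    have hd : 0 < l a1 - l y := by linarith
    have ht : (l a2 - l y) / (l a1 - l y) ∈ Ico (0 : ℝ) 1 := by
      refine ⟨div_nonneg (by linarith) hd.le, ?_⟩
      rw [div_lt_one hd]; linarith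
    refine par a2 h2 _ ?_ (h1.vis _ ht)
    rw [map_add, map_smul, map_sub, smul_eq_mul]
    field_simp
    ring
  refine ⟨l, l a, hl0, ?_⟩
  by_cases hall : ∀ z, l a < l z → z ∈ G.Vis f y
  · left
    ext z
    exact ⟨fun hz => cross1 a hbd hlya z hz, fun hz => hall z hz⟩
  · right
    push Not at hall
    obtain ⟨z1, hz1, hz1'⟩ := hall
    obtain ⟨t1, ht1, hbd1⟩ := exists_Bd hf hz1' (k0_sub_Om _)
    set a1 := y + t1 • (z1 - y) with ha1
    have hla1 : l a1 = (1 - t1) * l y + t1 * l z1 := by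
      rw [ha1, map_add, map_smul, map_sub, smul_eq_mul]; ring
    have h1 : l a < l a1 := by
      rw [hla1]
      have h2 : 0 ≤ (1 - t1) * (l y - l a) := mul_nonneg (by linarith [ht1.2]) (by linarith)
      have h3 : 0 < t1 * (l z1 - l a) := mul_pos ht1.1 (by linarith)
      nlinarith
    have h2 : l y < l a1 := by
      rcases lt_or_gt_of_ne (parne a1 hbd1) with h | h
      · exfalso
        have := two1 a a1 hbd hbd1 hlya h
        linarith
      · exact h
    refine ⟨l a1, h1, ?_⟩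
    ext z
    constructor
    · intro hz
      exact ⟨cross1 a hbd hlya z hz, cross2 a1 hbd1 h2 z hz⟩
    · rintro ⟨hz1, hz2⟩
      by_contra hz
      obtain ⟨t2, ht2, hbd2⟩ := exists_Bd hf hz (k0_sub_Om _)
      set a2 := y + t2 • (z - y) with ha2
      have hla2 : l a2 = (1 - t2) * l y + t2 * l z := by
        rw [ha2, map_add, map_smul, map_sub, smul_eq_mul]; ring
      rcases lt_or_gt_of_ne (parne a2 hbd2) with h | h
      · have h5 := two1 a a2 hbd hbd2 hlya h
        have h6 : 0 ≤ (1 - t2) * (l y - l a) := mul_nonneg (by linarith [ht2.2]) (by linarith)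
        have h7 : 0 < t2 * (l z - l a) := mul_pos ht2.1 (by linarith)
        nlinarith
      · have h5 := two2 a1 a2 hbd1 hbd2 h2 h
        have h6 : 0 ≤ (1 - t2) * (l a1 - l y) := mul_nonneg (by linarith [ht2.2]) (by linarith)
        have h7 : 0 < t2 * (l a1 - l z) := mul_pos ht2.1 (by linarith)
        nlinarith

/-! ### The hyperplane attached to a half space or a slab -/

omit [FiniteDimensional ℝ W] in
theorem k0_exists_w {l : W →L[ℝ] ℝ} (hl : l ≠ 0) (s : ℝ) : ∃ w, l w = s := by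
  obtain ⟨v, hv⟩ : ∃ v, l v ≠ 0 := by
    by_contra h
    push Not at h
    exact hl (ContinuousLinearMap.ext h)
  exact ⟨(s / l v) • v, by rw [map_smul, smul_eq_mul, div_mul_cancel₀ _ hv]⟩

/-- centres of symmetry -/
def k0_sym (E : Set W) : Set W := {z | ∀ w, z + w ∈ E ↔ z - w ∈ E}

omit [FiniteDimensional ℝ W] in
theorem k0_sym_half {l : W →L[ℝ] ℝ} (hl : l ≠ 0) (c : ℝ) : k0_sym {z | c < l z} = ∅ := by
  rw [eq_empty_iff_forall_notMem]
  intro z hz
  obtain ⟨w, hw⟩ := k0_exists_w hl (|l z| + |c| + 1)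
  have h1 := (hz w).1 (by
    show c < l (z + w)
    rw [map_add, hw]
    have := neg_abs_le (l z)
    have := le_abs_self c
    linarith)
  have h2 : c < l (z - w) := h1
  rw [map_sub, hw] at h2
  have := le_abs_self (l z)
  have := neg_abs_le c
  linarith

omit [FiniteDimensional ℝ W] in
theorem k0_sym_slab {l : W →L[ℝ] ℝ} (hl : l ≠ 0) {c d : ℝ} (hcd : c < d) :
    k0_sym {z | c < l z ∧ l z < d} = {z | l z = (c + d) / 2} := by
  ext z
  constructor
  · intro hz
    show l z = (c + d) / 2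
    by_contra hne
    rcases lt_or_gt_of_ne hne with h | h
    · obtain ⟨w, hw⟩ := k0_exists_w hl (max ((c + d) / 2 - l z) ((d - c) / 2))
      have h1 : z + w ∈ {z | c < l z ∧ l z < d} := by
        show c < l (z + w) ∧ l (z + w) < d
        rw [map_add, hw]
        rcases max_cases ((c + d) / 2 - l z) ((d - c) / 2) with ⟨h2, h3⟩ | ⟨h2, h3⟩ <;>
          rw [h2] <;> constructor <;> linarith
      have h4 : c < l (z - w) ∧ l (z - w) < d := (hz w).1 h1
      rw [map_sub, hw] at h4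
      have h5 := le_max_right ((c + d) / 2 - l z) ((d - c) / 2)
      linarith [h4.1]
    · obtain ⟨w, hw⟩ := k0_exists_w hl (max (l z - (c + d) / 2) ((d - c) / 2))
      have h1 : z - w ∈ {z | c < l z ∧ l z < d} := by
        show c < l (z - w) ∧ l (z - w) < d
        rw [map_sub, hw]
        rcases max_cases (l z - (c + d) / 2) ((d - c) / 2) with ⟨h2, h3⟩ | ⟨h2, h3⟩ <;>
          rw [h2] <;> constructor <;> linarith
      have h4 : c < l (z + w) ∧ l (z + w) < d := (hz w).2 h1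
      rw [map_add, hw] at h4
      have h5 := le_max_right (l z - (c + d) / 2) ((d - c) / 2)
      linarith [h4.2]
  · intro hz w
    have hz' : l z = (c + d) / 2 := hz
    show (c < l (z + w) ∧ l (z + w) < d) ↔ (c < l (z - w) ∧ l (z - w) < d)
    rw [map_add, map_sub, hz']
    constructor <;> rintro ⟨h1, h2⟩ <;> constructor <;> linarith

omit [FiniteDimensional ℝ W] in
theorem k0_frontier_half {l : W →L[ℝ] ℝ} (hl : l ≠ 0) (c : ℝ) :
    frontier {z | c < l z} = {z | l z = c} := by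
  have hsurj : Function.Surjective l := fun s => k0_exists_w hl s
  have ho : IsOpenMap l := l.isOpenMap_of_ne_zero hl
  have h1 : {z | c < l z} = l ⁻¹' Ioi c := rfl
  have h2 : {z | l z = c} = l ⁻¹' {c} := rfl
  rw [h1, h2, ← ho.preimage_frontier_eq_frontier_preimage l.continuous, frontier_Ioi]

open Classical in
/-- the hyperplane attached to a half space or a slab -/
noncomputable def k0_hyp (E : Set W) : Set W := if (k0_sym E).Nonempty then k0_sym E else frontier E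

omit [FiniteDimensional ℝ W] in
theorem k0_sym_act (A : Iso B.b (0 : ℝ)) (E : Set W) : k0_sym (A.act '' E) = A.act '' k0_sym E := by
  have key : ∀ z w, z + w ∈ A.act '' E ↔ A.inv z + A.L.symm w ∈ E := by
    intro z w
    have e : A.inv (z + w) = A.inv z + A.L.symm w := by
      unfold Iso.inv
      rw [← map_add]
      congr 1
      abel
    constructor
    · rintro ⟨x, hx, h⟩
      rw [← e, ← h, A.inv_act]; exact hx
    · intro h
      exact ⟨_, h, by rw [← e, A.act_inv]⟩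
  have key' : ∀ z w, z - w ∈ A.act '' E ↔ A.inv z - A.L.symm w ∈ E := by
    intro z w
    rw [sub_eq_add_neg, key, map_neg, ← sub_eq_add_neg]
  ext z
  constructor
  · intro hz
    refine ⟨A.inv z, ?_, A.act_inv z⟩
    intro w
    have := hz (A.L w)
    rw [key, key', A.L.symm_apply_apply] at this
    exact this
  · rintro ⟨x, hx, rfl⟩
    intro w
    rw [key, key', A.inv_act]
    exact hx _

/-- an isometry as a homeomorphism -/
def k0_homeo (A : Iso B.b (0 : ℝ)) : W ≃ₜ W where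
  toFun := A.act
  invFun := A.inv
  left_inv := A.inv_act
  right_inv := A.act_inv
  continuous_toFun := A.continuous_act
  continuous_invFun := A.continuous_inv

omit [FiniteDimensional ℝ W] in
theorem k0_hyp_act (A : Iso B.b (0 : ℝ)) (E : Set W) : k0_hyp (A.act '' E) = A.act '' k0_hyp E := by
  unfold k0_hyp
  rw [k0_sym_act, image_nonempty]
  split
  · rfl
  · exact ((k0_homeo A).image_frontier E).symm

/-! ### Restriction to an open set -/

omit [T2Space M] [FiniteDimensional ℝ W] in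
/-- the inverse of a chart is determined by the chart -/
theorem k0_psi_unique {K : ℝ} {G : GX M B K} {x : M} {φ φ' : M → W} {ψ ψ' : W → M}
    (h : G.chart x φ ψ) (h' : G.chart x φ' ψ') (he : ∀ᶠ x' in 𝓝 x, φ' x' = φ x') :
    ψ' =ᶠ[𝓝 (φ x)] ψ := by
  have hx : φ' x = φ x := he.self_of_nhds
  have t := G.tendsto_inv h'
  rw [hx] at t
  have r1 := G.right_inv h'
  rw [hx] at r1
  filter_upwards [t.eventually he, t.eventually (G.eventually_left_inv h), r1, G.right_inv h]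
    with z h1 h2 h3 h4
  rw [← h2, ← h1, h3.1, h4.2]

omit [T2Space M] [FiniteDimensional ℝ W] in
theorem k0_val {U : Set M} (hU : IsOpen U) (x : U) : map Subtype.val (𝓝 x) = 𝓝 (x : M) :=
  map_nhds_subtype_coe_eq_nhds x.2 (hU.mem_nhds x.2)

omit [T2Space M] [FiniteDimensional ℝ W] in
theorem k0_val_ev {U : Set M} (hU : IsOpen U) (x : U) {p : M → Prop} :
    (∀ᶠ x' in 𝓝 (x : M), p x') ↔ ∀ᶠ x' : U in 𝓝 x, p (x' : M) := by
  rw [← k0_val hU x, eventually_map]

/-- restriction of the structure to an open set -/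
def k0_sub {K : ℝ} (G : GX M B K) (U : Set M) (hU : IsOpen U) : GX U B K where
  chart x φ ψ := ∃ φ' ψ', G.chart (x : M) φ' ψ' ∧ φ = φ' ∘ Subtype.val ∧
    ∀ᶠ z in 𝓝 (φ' x), (ψ z : M) = ψ' z
  exists_chart := by
    classical
    intro x
    obtain ⟨φ', ψ', h⟩ := G.exists_chart (x : M)
    refine ⟨φ' ∘ Subtype.val, fun z => if hz : ψ' z ∈ U then ⟨ψ' z, hz⟩ else x, φ', ψ', h, rfl, ?_⟩
    filter_upwards [(G.tendsto_inv h).eventually (hU.mem_nhds x.2)] with z hz
    have hz' : ψ' z ∈ U := hz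
    rw [dif_pos hz']
  onQ := by
    rintro x _ ψ ⟨φ', ψ', h, rfl, -⟩
    exact G.onQ h
  lor := by
    rintro x _ ψ ⟨φ', ψ', h, rfl, -⟩
    exact G.lor h
  cont := by
    rintro x _ ψ ⟨φ', ψ', h, rfl, -⟩
    exact (G.cont h).comp continuousAt_subtype_val
  cont_inv := by
    rintro x _ ψ ⟨φ', ψ', h, rfl, he⟩
    rw [Topology.IsInducing.subtypeVal.continuousAt_iff]
    exact (G.cont_inv h).congr (he.mono fun z hz => hz.symm)
  left_inv := by
    rintro x _ ψ ⟨φ', ψ', h, rfl, he⟩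
    apply Subtype.ext
    have h1 : (ψ (φ' x) : M) = ψ' (φ' x) := he.self_of_nhds
    exact h1.trans (G.left_inv h)
  nhds := by
    rintro x _ ψ ⟨φ', ψ', h, rfl, he⟩
    have h1 : ∀ᶠ x' in 𝓝 (x : M), G.chart x' φ' ψ' ∧ ∀ᶠ z in 𝓝 (φ' x'), (ψ z : M) = ψ' z :=
      (G.nhds h).and ((G.cont h).eventually (eventually_eventually_nhds.2 he))
    filter_upwards [(k0_val_ev hU x).1 h1] with x' hx'
    exact ⟨φ', ψ', hx'.1, rfl, hx'.2⟩
  right_inv := by
    rintro x _ ψ ⟨φ', ψ', h, rfl, he⟩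
    have hpos := (G.onQ h).pos
    have hn : Tendsto (nrm B.b K) (𝓝 (φ' x)) (𝓝 (φ' x)) := by
      have := (continuousAt_nrm (b := B.b) hpos)
      unfold ContinuousAt at this
      rwa [nrm_onQ (G.onQ h)] at this
    filter_upwards [he, hn.eventually he, G.right_inv h] with z h1 h2 h3
    refine ⟨?_, ?_⟩
    · show φ' (ψ z) = _
      rw [h1]; exact h3.1
    · apply Subtype.ext
      rw [h2, h1]; exact h3.2
  comp := by
    rintro x _ ψ ⟨φ', ψ', h, rfl, he⟩ A
    refine ⟨A.act ∘ φ', ψ' ∘ A.inv, G.comp h A, rfl, ?_⟩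
    have t : Tendsto A.inv (𝓝 (A.act (φ' x))) (𝓝 (φ' x)) := by
      have := A.continuous_inv.tendsto (A.act (φ' x))
      rwa [A.inv_act] at this
    exact t.eventually he
  rigid := by
    rintro x _ ψ1 _ ψ2 ⟨φ1, ψ1', h1, rfl, -⟩ ⟨φ2, ψ2', h2, rfl, -⟩
    obtain ⟨A, hA⟩ := G.rigid h1 h2
    exact ⟨A, (k0_val_ev hU x).1 hA⟩

omit [NormedSpace ℝ W] [TopologicalSpace M] [T2Space M] [FiniteDimensional ℝ W]
  [NormedAddCommGroup F] [InnerProductSpace ℝ F] in
theorem k0_sub_comp {U : Set M} {ξ : M → F} {x : U}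
    {φ' : M → W} {ψ : W → U} {ψ' : W → M} (he : ∀ᶠ z in 𝓝 (φ' x), (ψ z : M) = ψ' z) :
    ((ξ ∘ Subtype.val) ∘ ψ) =ᶠ[𝓝 (φ' x)] ξ ∘ ψ' := by
  filter_upwards [he] with z hz
  simp only [Function.comp_apply, hz]

omit [T2Space M] [FiniteDimensional ℝ W] in
theorem k0_sub_smooth {K : ℝ} {G : GX M B K} {U : Set M} (hU : IsOpen U) {ξ : M → F}
    (h : G.Smooth ξ) : (k0_sub G U hU).Smooth (ξ ∘ Subtype.val) := by
  rintro x _ ψ ⟨φ', ψ', hc, rfl, he⟩
  exact (h hc).congr_of_eventuallyEq (k0_sub_comp he)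

omit [T2Space M] [FiniteDimensional ℝ W] in
theorem k0_sub_immersion {K : ℝ} {G : GX M B K} {U : Set M} (hU : IsOpen U) {ξ : M → F}
    (h : G.Immersion ξ) : (k0_sub G U hU).Immersion (ξ ∘ Subtype.val) := by
  rintro x _ ψ ⟨φ', ψ', hc, rfl, he⟩ w hw hw0
  refine h hc w hw ?_
  rw [← (k0_sub_comp (ξ := ξ) he).fderiv_eq]
  exact hw0

/-! ### Visible sets in charts -/

theorem Tools.k0_vis_near (T : G.Tools ξ r L) (hT : G.TimeLike) {x : M} {φ : M → W} {ψ : W → M}
    (h : G.chart x φ ψ) : ∀ᶠ x' in 𝓝 x, G.chart x' φ ψ ∧ G.Vis ψ (φ x') = G.Vis ψ (φ x) := by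
  have hs := isSec_chart h
  have h1 : ∀ᶠ z in 𝓝 (φ x), z ∈ G.Vis ψ (φ x) ∧ G.Fm ψ (φ x) =ᶠ[𝓝 z] ψ :=
    (show ∀ᶠ z in 𝓝 (φ x), z ∈ G.Vis ψ (φ x) from
      (isOpen_Vis G ψ (φ x)).mem_nhds (base_mem_Vis hs)).and
      (eventually_eventually_nhds.2 (Fm_base hs))
  filter_upwards [G.nhds h, (G.cont h).eventually h1] with x' h2 h3
  refine ⟨h2, ?_⟩
  ext z
  rw [(T.base_change hT hs h3.1 (z := z) (k0_sub_Om _)).1, Vis_congr h3.2]

omit [T2Space M] [FiniteDimensional ℝ W] in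
theorem k0_vis_chart {x : M} {φ φ' : M → W} {ψ ψ' : W → M} (h : G.chart x φ ψ)
    (h' : G.chart x φ' ψ') {A : Iso B.b (0 : ℝ)} (hA : ∀ᶠ x' in 𝓝 x, φ' x' = A.act (φ x')) :
    G.Vis ψ' (φ' x) = A.act '' G.Vis ψ (φ x) := by
  have h1 : ψ' =ᶠ[𝓝 (φ' x)] ψ ∘ A.inv := G.inv_trans h h' hA
  have h2 : φ' x = A.act (φ x) := hA.self_of_nhds
  rw [Vis_congr h1, h2, Vis_act]

theorem Tools.flat [CompactSpace M] (T : G.Tools ξ r L) (hT : G.TimeLike)
    (hξ : G.Smooth ξ) (himm : G.Immersion ξ) (hf : G.IsSec f y) : G.Vis f y = univ := by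
  by_contra hne
  set U : Set M := {x | ∃ φ ψ, G.chart x φ ψ ∧ G.Vis ψ (φ x) ≠ univ} with hUdef
  -- independence of the chart
  have hind : ∀ {x φ ψ}, G.chart x φ ψ → (x ∈ U ↔ G.Vis ψ (φ x) ≠ univ) := by
    intro x φ ψ h
    constructor
    · rintro ⟨φ', ψ', h', hv⟩ hcon
      obtain ⟨A, hA⟩ := G.rigid h h'
      apply hv
      rw [k0_vis_chart h h' hA, hcon, image_univ]
      exact (k0_homeo A).surjective.range_eq
    · intro hv
      exact ⟨φ, ψ, h, hv⟩
  have hloc : ∀ x, ∀ᶠ x' in 𝓝 x, (x' ∈ U ↔ x ∈ U) := by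
    intro x
    obtain ⟨φ, ψ, h⟩ := G.exists_chart x
    filter_upwards [T.k0_vis_near hT h] with x' hx'
    rw [hind hx'.1, hx'.2, hind h]
  have hUo : IsOpen U := by
    rw [isOpen_iff_mem_nhds]
    intro x hx
    filter_upwards [hloc x] with x' hx' using hx'.2 hx
  have hUc : IsClosed U := by
    rw [← isOpen_compl_iff, isOpen_iff_mem_nhds]
    intro x hx
    filter_upwards [hloc x] with x' hx' hx'' using hx (hx'.1 hx'')
  have hUne : f y ∈ U := by
    obtain ⟨-, φ, ψ, h, h1, h2⟩ := hf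
    rw [nrm_zero] at h1
    rw [hind h, h1]
    have h3 : f =ᶠ[𝓝 y] ψ := by
      filter_upwards [h2] with z hz
      rw [hz, nrm_zero]
    rwa [← Vis_congr h3]
  have : CompactSpace U := isCompact_iff_compactSpace.1 hUc.isCompact
  have : Nonempty U := ⟨⟨f y, hUne⟩⟩
  -- the hyperplane field
  set E : U → (U → W) → Set W := fun x φ => {z | ∃ φ' ψ', G.chart (x : M) φ' ψ' ∧
    φ = φ' ∘ Subtype.val ∧ z ∈ G.Vis ψ' (φ' x)} with hE
  have hEeq : ∀ (x : U) (φ' : M → W) (ψ' : W → M), G.chart (x : M) φ' ψ' →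
      E x (φ' ∘ Subtype.val) = G.Vis ψ' (φ' x) := by
    intro x φ' ψ' h
    ext z
    constructor
    · rintro ⟨φ'', ψ'', h'', he, hz⟩
      have h1 : ∀ᶠ x' in 𝓝 (x : M), φ'' x' = φ' x' :=
        (k0_val_ev hUo x).2 (Eventually.of_forall fun x' => (congrFun he x').symm)
      have h2 := k0_psi_unique h h'' h1
      have h3 : φ'' x = φ' x := h1.self_of_nhds
      rw [h3, Vis_congr h2] at hz
      exact hz
    · intro hz
      exact ⟨φ', ψ', h, rfl, hz⟩
  refine no_parallel_hyperplanes (G := k0_sub G U hUo) (k0_sub_smooth hUo hξ)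
    (k0_sub_immersion hUo himm) (fun x φ => k0_hyp (E x φ)) ?_ ?_ ?_
  · rintro x _ ψ ⟨φ', ψ', h, rfl, -⟩
    filter_upwards [(k0_val_ev hUo x).1 (T.k0_vis_near hT h)] with x' hx'
    rw [hEeq x' φ' ψ' hx'.1, hEeq x φ' ψ' h, hx'.2]
  · rintro x _ ψ1 _ ψ2 ⟨φ1, ψ1', h1, rfl, -⟩ ⟨φ2, ψ2', h2, rfl, -⟩ A hA
    have hA' : ∀ᶠ x' in 𝓝 (x : M), φ2 x' = A.act (φ1 x') := (k0_val_ev hUo x).2 hA
    rw [hEeq x φ1 ψ1' h1, hEeq x φ2 ψ2' h2, k0_vis_chart h1 h2 hA', k0_hyp_act]
  · rintro x _ ψ ⟨φ', ψ', h, rfl, -⟩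
    have hv : G.Vis ψ' (φ' x) ≠ univ := (hind h).1 x.2
    show ∃ (l : W →L[ℝ] ℝ) (c : ℝ), l ≠ 0 ∧ k0_hyp (E x (φ' ∘ Subtype.val)) = {z | l z = c}
    rw [hEeq x φ' ψ' h]
    rcases T.flat_shape hT (isSec_chart h) with h1 | ⟨l, c, hl, h1 | ⟨d, hcd, h1⟩⟩
    · exact absurd h1 hv
    · refine ⟨l, c, hl, ?_⟩
      rw [h1]
      unfold k0_hyp
      rw [k0_sym_half hl, if_neg Set.not_nonempty_empty, k0_frontier_half hl]
    · refine ⟨l, (c + d) / 2, hl, ?_⟩
      rw [h1]
      unfold k0_hyp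
      rw [k0_sym_slab hl hcd, if_pos]
      exact k0_exists_w hl _

end GX

end Pool.H1.Lor
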