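import Pool.Agent.H1.CK.KN2
import Pool.Agent.H1.CK.K0
import Pool.Agent.H1.CK.F
import Pool.Agent.H1.Lor.Core

/-!
# Compact Lorentzian manifolds of constant curvature are complete (Carrière, Klingler)
-/

namespace Pool.H1.Lor

open Filter Topology Set Module
open scoped Manifold ContDiff
open Pool.MP_5bfe9a_gt

namespace GX

variable {W : Type*} [NormedAddCommGroup W] [NormedSpace ℝ W] [FiniteDimensional ℝ W]
  {F : Type*} [NormedAddCommGroup F] [InnerProductSpace ℝ F]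
  {M : Type*} [TopologicalSpace M] [T2Space M] [CompactSpace M]

theorem complete_of_goodK {B : Form W} {K : ℝ} {G : GX M B K} {ξ : M → F} (hξ : G.Smooth ξ)
    (himm : G.Immersion ξ) (hT : G.TimeLike) (hK : GoodK W K) :
    G.Complete (fun _ => 0) := by
  have hK0 : K ≠ 0 := by rcases hK with h | h; exacts [h.1.ne, h.1.ne']
  obtain ⟨r, L, T⟩ := exists_tools hξ himm hT (by
    rw [if_neg hK0]
    rcases hK with h | h
    · exact h.2
    · exact le_trans (by norm_num) h.2)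
  refine complete_of_vis fun f y z hf hy hs => ?_
  by_contra hz
  obtain ⟨t, -, hbd⟩ := exists_Bd hf hz hs
  obtain ⟨ν, hν⟩ := T.exists_wall hT hf hbd
  exact T.no_wall hT hK hf hy hν

theorem complete_of_zero {B : Form W} {G : GX M B 0} {ξ : M → F} (hξ : G.Smooth ξ)
    (himm : G.Immersion ξ) (hT : G.TimeLike) (hdim : 2 ≤ finrank ℝ W) :
    G.Complete (fun _ => 0) := by
  obtain ⟨r, L, T⟩ := exists_tools hξ himm hT (by simpa using hdim)
  refine complete_of_vis fun f y z hf hy hs => ?_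
  rw [T.flat hT hξ himm hf]
  exact mem_univ _

/-- Completeness of the metric of constant curvature. -/
theorem complete_const {B : Form W} {K : ℝ} {G : GX M B K} {ξ : M → F} (hξ : G.Smooth ξ)
    (himm : G.Immersion ξ) (hT : G.TimeLike) (hdim : 1 + (if K = 0 then 0 else 1) ≤ finrank ℝ W) :
    G.Complete (fun _ => 0) := by
  rcases eq_or_lt_of_le hdim with h1 | h1
  · exact complete_dim_one hT hξ himm h1.symm
  by_cases hK : K = 0
  · subst hK
    exact complete_of_zero hξ himm hT (by have h2 := h1; simp at h2; omega)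
  · rw [if_neg hK] at h1
    rcases lt_or_gt_of_ne hK with h2 | h2
    · exact complete_of_goodK hξ himm hT (Or.inl ⟨h2, h1⟩)
    · rcases eq_or_lt_of_le (show 3 ≤ finrank ℝ W from h1) with h3 | h3
      · obtain ⟨B', G', h4, h5, h6, h7⟩ := exists_flip (ξ := ξ) hT h2 h3.symm
        exact h7 (complete_of_goodK (h5 hξ) (h6 himm) h4 (Or.inl ⟨by linarith, h3.le⟩))
      · exact complete_of_goodK hξ himm hT (Or.inr ⟨h2, h3⟩)

end GX

variable {V : Type*} [NormedAddCommGroup V] [NormedSpace ℝ V] [FiniteDimensional ℝ V]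
  {M : Type*} [TopologicalSpace M] [T2Space M] [CompactSpace M]
  [ChartedSpace V M] [IsManifold 𝓘(ℝ, V) ∞ M]

omit [FiniteDimensional ℝ V] [T2Space M] [CompactSpace M] in
theorem IsCh.timeLike {W : Type*} [NormedAddCommGroup W] [NormedSpace ℝ W] {B : Form W} {K : ℝ}
    {g0 : TensorField V M} {x : M} {φ : M → W} {ψ : W → M} (hL : ∀ x, IsLorentzForm (g0 x))
    (h : IsCh B K g0 x φ ψ) : ∃ τ, Tan B.b K (φ x) τ ∧ B.b τ τ < 0 := by
  obtain ⟨τ, hτ, -⟩ := (hL x).signature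
  have hiso := h.iso.self_of_nhds.2
  refine ⟨mfderiv 𝓘(ℝ, V) 𝓘(ℝ, W) φ x τ, ?_, by rw [hiso]; exact hτ⟩
  -- tangency in coordinates
  have h1 : HasFDerivAt (φ ∘ (extChartAt 𝓘(ℝ, V) x).symm)
      (fderiv ℝ (φ ∘ (extChartAt 𝓘(ℝ, V) x).symm) (extChartAt 𝓘(ℝ, V) x x))
      (extChartAt 𝓘(ℝ, V) x x) :=
    ((coord_contDiffAt h.smooth).differentiableAt (by norm_num)).hasFDerivAt
  have h3 := (coord_fderiv h.smooth).self_of_nhds
    (mfderiv 𝓘(ℝ, V) 𝓘(ℝ, V) (extChartAt 𝓘(ℝ, V) x) x τ)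
  have h2 := tan_of_onQ B.symm h1 h.coord_onQ
    (mfderiv 𝓘(ℝ, V) 𝓘(ℝ, V) (extChartAt 𝓘(ℝ, V) x) x τ)
  have h4 := mfderivWithin_extChartAt_symm_comp_mfderiv_extChartAt' (I := 𝓘(ℝ, V))
    (mem_extChartAt_source (I := 𝓘(ℝ, V)) x)
  rw [modelWithCornersSelf_coe, range_id, mfderivWithin_univ] at h4
  have h5 := congrArg (fun L => L τ) h4
  have hx : (extChartAt 𝓘(ℝ, V) x).symm (extChartAt 𝓘(ℝ, V) x x) = x :=
    extChartAt_to_inv (I := 𝓘(ℝ, V)) x
  have h6 : mfderiv 𝓘(ℝ, V) 𝓘(ℝ, V) (extChartAt 𝓘(ℝ, V) x).symm (extChartAt 𝓘(ℝ, V) x x)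
      (mfderiv 𝓘(ℝ, V) 𝓘(ℝ, V) (extChartAt 𝓘(ℝ, V) x) x τ) = τ := h5
  rw [h3, h6] at h2
  simp only [Function.comp_apply] at h2
  rw [hx] at h2
  unfold Tan
  exact h2

theorem core_complete {W : Type*} [NormedAddCommGroup W] [NormedSpace ℝ W]
    [FiniteDimensional ℝ W]
    (B : Form W) (K : ℝ) (hdim : finrank ℝ W = finrank ℝ V + if K = 0 then 0 else 1)
    (hV : 1 ≤ finrank ℝ V)
    (g0 : TensorField V M) (hL : ∀ x, IsLorentzForm (g0 x))
    (hcc : ∀ p : M, ∃ φ : M → W, ContMDiffAt 𝓘(ℝ, V) 𝓘(ℝ, W) ∞ φ p ∧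
      ∀ᶠ x in 𝓝 p, OnQ B.b K (φ x) ∧ ∀ u v : TangentSpace 𝓘(ℝ, V) x,
        B.b (mfderiv 𝓘(ℝ, V) 𝓘(ℝ, W) φ x u)
          (mfderiv 𝓘(ℝ, V) 𝓘(ℝ, W) φ x v) = g0 x u v)
    {σ : M → ℝ} (hσ : ContMDiff 𝓘(ℝ, V) 𝓘(ℝ, ℝ) ∞ σ) {g : TensorField V M}
    (hg : ∀ x u v, g x u v = Real.exp (2 * σ x) * g0 x u v) : GeodesicallyComplete g := by
  obtain ⟨n, e, he1, -, he2⟩ := exists_embedding_euclidean_of_compact
    (I := 𝓘(ℝ, V)) (M := M)
  have hσ' : (mgx B K hdim g0 hL hcc).Smooth σ := mgx_smooth hσ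
  have he' : (mgx B K hdim g0 hL hcc).Smooth e := mgx_smooth he1
  have himm : (mgx B K hdim g0 hL hcc).Immersion e := by
    intro x φ ψ h w hw hw0
    exact mgx_immersion he1 (x := x)
      (fun u hu => he2 x (by rw [hu]; exact (map_zero _).symm)) h hw hw0
  have hT : (mgx B K hdim g0 hL hcc).TimeLike := by
    intro x φ ψ h
    exact IsCh.timeLike hL h
  have h1 : (mgx B K hdim g0 hL hcc).Complete (fun _ => 0) :=
    GX.complete_const he' himm hT (by rw [hdim]; omega)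
  have h4 : (mgx B K hdim g0 hL hcc).Complete σ := GX.main h1 hσ' he' himm
  intro s hs1 hs2 hs3 c hgeo
  obtain ⟨c', h2, h3⟩ := h4 s hs1 hs2 hs3 c (fun t ht =>
    (mgx_geo_iff hσ hg c t).1 (hgeo t ht))
  exact ⟨c', fun t => (mgx_geo_iff hσ hg c' t).2 (h2 t), h3⟩

omit [FiniteDimensional ℝ V] in
theorem one_le_finrank_of_lorentz [FiniteDimensional ℝ V] {q : V → V → ℝ}
    (hq : IsLorentzForm q) : 1 ≤ finrank ℝ V := by
  obtain ⟨τ, hτ, -⟩ := hq.signature
  have h0 : τ ≠ 0 := by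
    rintro rfl
    have := hq.map_smul 0 (0 : V) (0 : V)
    simp at this
    linarith
  have : Nontrivial V := ⟨τ, 0, h0⟩
  exact Module.finrank_pos

/-- A compact Lorentzian manifold which is conformal to a manifold of constant curvature is
geodesically complete. -/
theorem conformal_complete' (g : TensorField V M) (f : M → ℝ) (K : ℝ)
    (hg : IsLorentzMetric g) (hf : ContMDiff 𝓘(ℝ, V) 𝓘(ℝ, ℝ) ∞ f)
    (hK : HasConstantCurvature (fun x u v => Real.exp (2 * f x) * g x u v) K) :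
    GeodesicallyComplete g := by
  obtain ⟨q, hq, hcc⟩ := hK
  have hL : ∀ x, IsLorentzForm (fun u v => Real.exp (2 * f x) * g x u v) := fun x =>
    isLorentzForm_smul (hg.lorentz x) (Real.exp_pos _)
  have hσ : ContMDiff 𝓘(ℝ, V) 𝓘(ℝ, ℝ) ∞ (fun x => -f x) := hf.neg
  have hgσ : ∀ x u v, g x u v =
      Real.exp (2 * (-f x)) * (Real.exp (2 * f x) * g x u v) := by
    intro x u v
    rw [← mul_assoc, ← Real.exp_add]
    simp
  have hV : 1 ≤ finrank ℝ V := one_le_finrank_of_lorentz hq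
  by_cases h0 : K = 0
  · refine core_complete (lorForm hq) K (by simp [h0]) hV _ hL ?_ hσ hgσ
    intro p
    obtain ⟨φ, h1, h2⟩ := (hcc p).1 h0
    refine ⟨φ, h1, ?_⟩
    filter_upwards [h2] with x hx
    exact ⟨by simp [OnQ, h0, dl], fun u v => hx u v⟩
  · refine core_complete (ambForm hq h0) K (by simp [h0]) hV _ hL ?_ hσ hgσ
    intro p
    obtain ⟨φ, h1, h2⟩ := (hcc p).2 h0
    refine ⟨φ, h1, ?_⟩
    filter_upwards [h2] with x hx
    refine ⟨?_, fun u v => ?_⟩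
    · have h3 : (ambForm hq h0).b (φ x) (φ x) = 1 / K := (ambB_apply hq K _ _).trans hx.1
      unfold OnQ
      rw [h3, dl_ne h0]
      field_simp
      simp
    · exact (ambB_apply hq K _ _).trans (hx.2 u v)

end Pool.H1.Lor
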