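import Pool.Agent.H1.CK.C

/-! # Curved case: at most two walls, unblocked walls (module KN1) -/

namespace Pool.H1.Lor

open Filter Topology Set Module

variable {W : Type*} [NormedAddCommGroup W] [NormedSpace ℝ W]
  {F : Type*} [NormedAddCommGroup F] [InnerProductSpace ℝ F]

/-- The curved cases treated directly (`K > 0` in dimension two is `K < 0` for `-b`). -/
def GoodK (W : Type*) [NormedAddCommGroup W] [NormedSpace ℝ W] (K : ℝ) : Prop :=
  (K < 0 ∧ 3 ≤ finrank ℝ W) ∨ (0 < K ∧ 4 ≤ finrank ℝ W)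

/-! ## Elementary facts -/

theorem kn_quad (B : Form W) (p q : W) (s t : ℝ) :
    B.b (s • p + t • q) (s • p + t • q) =
      s ^ 2 * B.b p p + 2 * s * t * B.b p q + t ^ 2 * B.b q q := by
  simp only [map_add, map_smul, add_apply, smul_apply, smul_eq_mul]
  rw [B.symm q p]; ring

theorem kn_cc {τ A C : ℝ} (h0 : 0 ≤ τ) (h1 : τ ≤ 1) (hA : 0 < A) (hC : 0 < C) :
    0 < (1 - τ) * A + τ * C := by
  rcases h0.eq_or_lt with h | h
  · rw [← h]; linarith
  · have := mul_pos h hC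
    have := mul_nonneg (sub_nonneg.mpr h1) hA.le
    linarith

theorem kn_sq {t ω : ℝ} (hω : 0 < ω) : 0 < (1 - t) ^ 2 + t ^ 2 * ω := by
  by_cases h : t = 0
  · rw [h]; norm_num
  · have := mul_pos (pow_pos (abs_pos.mpr h) 2) hω
    rw [sq_abs] at this
    nlinarith [sq_nonneg (1 - t)]

theorem kn_seg {B : Form W} {K : ℝ} (hK : K ≠ 0) {y x : W} :
    segment ℝ y x ⊆ Om B.b K ↔ ∀ t ∈ Icc (0 : ℝ) 1,
      0 < K * ((1 - t) ^ 2 * B.b y y + 2 * (1 - t) * t * B.b y x + t ^ 2 * B.b x x) := by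
  rw [segment_eq_image]
  constructor
  · intro h t ht
    have := h ⟨t, ht, rfl⟩
    simp only [Om, mem_ofPred_eq, kn_quad, dl_ne hK, add_zero] at this
    exact this
  · rintro h _ ⟨t, ht, rfl⟩
    simp only [Om, mem_ofPred_eq, kn_quad, dl_ne hK, add_zero]
    exact h t ht

theorem kn_nrm {B : Form W} {K : ℝ} {y : W} (hy : OnQ B.b K y) : nrm B.b K y = y := by
  unfold OnQ at hy
  simp [nrm, nf, hy]

theorem kn_onQ {B : Form W} {K : ℝ} (hK : K ≠ 0) {y : W} (hy : OnQ B.b K y) :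
    K * B.b y y = 1 := by
  unfold OnQ at hy
  rwa [dl_ne hK, add_zero] at hy

namespace GX

variable {M : Type*} [TopologicalSpace M] [T2Space M] [FiniteDimensional ℝ W]
  {B : Form W} {K : ℝ} {G : GX M B K} {ξ : M → F}
  {f g : W → M} {y z a : W} {r L : ℝ}

/-- The visible set is a cone. -/
theorem Tools.vis_smul (T : G.Tools ξ r L) (hT : G.TimeLike) (hK : K ≠ 0) (hf : G.IsSec f y)
    (hz : z ∈ G.Vis f y) {c : ℝ} (hc : 0 < c) :
    c • z ∈ G.Vis f y ∧ G.Fm f y (c • z) = G.Fm f y z := by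
  obtain ⟨g, hg, hg'⟩ := (Fm_isSec (G := G) hz).smul hK
  have hsegV : segment ℝ y z ⊆ Om B.b K := fun p hp => Vis_subset_Om (Vis_segment hz hp)
  have hpos : ∀ p ∈ segment ℝ z (c • z), ∃ d : ℝ, 0 < d ∧ p = d • z := by
    intro p hp
    rw [segment_eq_image] at hp
    obtain ⟨t, ht, rfl⟩ := hp
    refine ⟨(1 - t) * 1 + t * c, kn_cc ht.1 ht.2 one_pos hc, ?_⟩
    module
  have hsub : convexHull ℝ {y, z, c • z} ⊆ Om B.b K := by
    intro p hp
    rw [convexHull_insert (by simp)] at hp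
    rw [mem_convexJoin] at hp
    obtain ⟨p1, hp1, p2, hp2, hp⟩ := hp
    rw [mem_singleton_iff] at hp1
    subst hp1
    rw [convexHull_pair] at hp2
    obtain ⟨d, hd, rfl⟩ := hpos p2 hp2
    rw [segment_eq_image] at hp
    obtain ⟨t, ht, rfl⟩ := hp
    have hD : 0 < (1 - t) * 1 + t * d := kn_cc ht.1 ht.2 one_pos hd
    set D := (1 - t) * 1 + t * d with hDdef
    have hmem : (1 - t * d / D) • p1 + (t * d / D) • z ∈ Om B.b K := by
      apply hsegV
      rw [segment_eq_image]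
      refine ⟨t * d / D, ⟨div_nonneg (mul_nonneg ht.1 hd.le) hD.le, ?_⟩, rfl⟩
      rw [div_le_one hD]
      have := ht.2
      linarith
    have := smul_mem_Om hK hD hmem
    have h2 : D • ((1 - t * d / D) • p1 + (t * d / D) • z) = (1 - t) • p1 + t • d • z := by
      rw [smul_add, smul_smul, smul_smul, smul_smul]
      congr 2
      · field_simp
        rw [hDdef]; ring
      · field_simp
    rwa [h2] at this
  have hp := T.path hT hf hz (z' := c • z) (g := g) (fun p hp => by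
    obtain ⟨d, hd, rfl⟩ := hpos p hp
    exact (hg' d hd).1) hg hsub
  refine ⟨hp.1, ?_⟩
  rw [hp.2.eq_of_nhds]
  exact (hg' c hc).2


/-! ## Moving wall points -/

omit [T2Space M] [FiniteDimensional ℝ W] in
theorem kn_wall_ne (hK : K ≠ 0) {ν : W} (hw : G.Wall f y ν a) : B.b ν y ≠ 0 := by
  have h1 := hw.ne
  have h2 : B.b ν a = 0 := (mul_eq_zero.mp hw.tan).resolve_left hK
  rwa [map_sub, h2, sub_zero] at h1

omit [T2Space M] [FiniteDimensional ℝ W] in
theorem kn_wall_seg (hw : ∃ ν, G.Wall f y ν a) : segment ℝ y a ⊆ Om B.b K := by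
  obtain ⟨ν, hw⟩ := hw
  rw [segment_eq_image]
  rintro _ ⟨t, ht, rfl⟩
  rcases ht.2.eq_or_lt with h | h
  · subst h
    simpa using hw.bd.om
  · have := Vis_subset_Om (hw.bd.vis t ⟨ht.1, h⟩)
    have h2 : y + t • (a - y) = (1 - t) • y + t • a := by module
    rwa [h2] at this

/-- Normalisation of the coordinate along `ν`. -/
theorem kn_H0 (T : G.Tools ξ r L) (hT : G.TimeLike) (hK : K ≠ 0) (hf : G.IsSec f y)
    (hy : OnQ B.b K y) {ν : W} (hw : G.Wall f y ν a) (hn : K * B.b ν y = 1) :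
    G.Wall f y ν (a - (K * B.b y a) • ν) := by
  have hyy := kn_onQ hK hy
  have hνa : B.b ν a = 0 := (mul_eq_zero.mp hw.tan).resolve_left hK
  have hνν := hw.null
  have hseg := (kn_seg hK).mp (kn_wall_seg ⟨ν, hw⟩)
  have haa : 0 < K * B.b a a := by
    have := hseg 1 (by simp)
    simpa using this
  refine T.spread hT hf hw (Γ := segment ℝ a (a - (K * B.b y a) • ν))
    (convex_segment _ _).isPreconnected (left_mem_segment _ _ _) ?_ _ (right_mem_segment _ _ _)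
  intro x hx
  rw [segment_eq_image] at hx
  obtain ⟨τ, hτ, rfl⟩ := hx
  have hx : (1 - τ) • a + τ • (a - (K * B.b y a) • ν) = a + (-(τ * (K * B.b y a))) • ν := by
    module
  simp only [hx]
  have e1 : B.b y (a + (-(τ * (K * B.b y a))) • ν) =
      B.b y a - τ * (K * B.b y a) * B.b ν y := by
    rw [map_add, map_smul, B.symm y ν, smul_eq_mul]; ring
  have e2 : B.b (a + (-(τ * (K * B.b y a))) • ν) (a + (-(τ * (K * B.b y a))) • ν) =
      B.b a a := by
    have := kn_quad B a ν 1 (-(τ * (K * B.b y a)))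
    rw [one_smul] at this
    rw [this, hνν, B.symm a ν, hνa]; ring
  refine ⟨(kn_seg hK).mpr fun t ht => ?_, ?_⟩
  · rw [e1, e2]
    have h1 := hseg t ht
    have h2 : 0 < (1 - t) ^ 2 + t ^ 2 * (K * B.b a a) := kn_sq haa
    have h3 := kn_cc hτ.1 hτ.2 h1 h2
    have h4 : (1 - τ) * (K * ((1 - t) ^ 2 * B.b y y + 2 * (1 - t) * t * B.b y a +
        t ^ 2 * B.b a a)) + τ * ((1 - t) ^ 2 + t ^ 2 * (K * B.b a a)) =
        K * ((1 - t) ^ 2 * B.b y y + 2 * (1 - t) * t *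
          (B.b y a - τ * (K * B.b y a) * B.b ν y) + t ^ 2 * B.b a a) := by
      linear_combination (-(τ * (1 - t) ^ 2)) * hyy +
        (2 * (1 - t) * t * τ * (K * B.b y a)) * hn
    rwa [h4] at h3
  · rw [add_sub_cancel_left, map_smul, hνν, smul_zero]

theorem kn_H1 (T : G.Tools ξ r L) (hT : G.TimeLike) (hK : K ≠ 0) (hf : G.IsSec f y)
    (hy : OnQ B.b K y) {ν w w' : W} (hw : G.Wall f y ν w) (hyw : B.b y w = 0)
    (hyw' : B.b y w' = 0) (hνw' : B.b ν w' = 0) (hpos : 0 < K * B.b w' w')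
    (hge : 0 ≤ K * B.b w w') : G.Wall f y ν w' := by
  have hyy := kn_onQ hK hy
  have hνw : B.b ν w = 0 := (mul_eq_zero.mp hw.tan).resolve_left hK
  have hseg := (kn_seg hK).mp (kn_wall_seg ⟨ν, hw⟩)
  have hww : 0 < K * B.b w w := by
    have := hseg 1 (by simp)
    simpa using this
  refine T.spread hT hf hw (Γ := segment ℝ w w')
    (convex_segment _ _).isPreconnected (left_mem_segment _ _ _) ?_ _ (right_mem_segment _ _ _)
  intro x hx
  rw [segment_eq_image] at hx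
  obtain ⟨τ, hτ, rfl⟩ := hx
  refine ⟨(kn_seg hK).mpr fun t ht => ?_, ?_⟩
  · have e1 : B.b y ((1 - τ) • w + τ • w') = 0 := by
      rw [map_add, map_smul, map_smul, hyw, hyw']; simp
    have e2 : 0 < K * B.b ((1 - τ) • w + τ • w') ((1 - τ) • w + τ • w') := by
      rw [kn_quad]
      have h3 : 0 < (1 - τ) ^ 2 * (K * B.b w w) + τ ^ 2 * (K * B.b w' w') := by
        rcases hτ.1.eq_or_lt with h | h
        · rw [← h]; simpa using hww
        · have := mul_pos (pow_pos h 2) hpos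
          have := mul_nonneg (sq_nonneg (1 - τ)) hww.le
          linarith
      have h4 : 0 ≤ 2 * (1 - τ) * τ * (K * B.b w w') :=
        mul_nonneg (mul_nonneg (mul_nonneg two_pos.le (sub_nonneg.mpr hτ.2)) hτ.1) hge
      nlinarith
    rw [e1]
    have h2 := kn_sq (t := t) e2
    have h4 : (1 - t) ^ 2 + t ^ 2 * (K * B.b ((1 - τ) • w + τ • w') ((1 - τ) • w + τ • w')) =
        K * ((1 - t) ^ 2 * B.b y y + 2 * (1 - t) * t * 0 +
          t ^ 2 * B.b ((1 - τ) • w + τ • w') ((1 - τ) • w + τ • w')) := by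
      linear_combination (-((1 - t) ^ 2)) * hyy
    rwa [h4] at h2
  · rw [map_sub, map_add, map_smul, map_smul, hνw, hνw']; simp

theorem kn_H2 (T : G.Tools ξ r L) (hT : G.TimeLike) (hK : K ≠ 0) (hf : G.IsSec f y)
    (hy : OnQ B.b K y) {ν w : W} (hn : K * B.b ν y = 1) (hw : G.Wall f y ν w)
    (hyw : B.b y w = 0) {c : ℝ} (hc : c ^ 2 < K * B.b w w) : G.Wall f y ν (w + c • ν) := by
  have hyy := kn_onQ hK hy
  have hνw : B.b ν w = 0 := (mul_eq_zero.mp hw.tan).resolve_left hK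
  have hνν := hw.null
  refine T.spread hT hf hw (Γ := segment ℝ w (w + c • ν))
    (convex_segment _ _).isPreconnected (left_mem_segment _ _ _) ?_ _ (right_mem_segment _ _ _)
  intro x hx
  rw [segment_eq_image] at hx
  obtain ⟨τ, hτ, rfl⟩ := hx
  have hx : (1 - τ) • w + τ • (w + c • ν) = w + (τ * c) • ν := by module
  simp only [hx]
  have e1 : B.b y (w + (τ * c) • ν) = τ * c * B.b ν y := by
    rw [map_add, map_smul, B.symm y ν, smul_eq_mul, hyw]; ring
  have e2 : B.b (w + (τ * c) • ν) (w + (τ * c) • ν) = B.b w w := by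
    have := kn_quad B w ν 1 (τ * c)
    rw [one_smul] at this
    rw [this, hνν, B.symm w ν, hνw]; ring
  refine ⟨(kn_seg hK).mpr fun t ht => ?_, ?_⟩
  · rw [e1, e2]
    have h1 : 0 < K * B.b w w - (τ * c) ^ 2 := by
      have : (τ * c) ^ 2 ≤ c ^ 2 := by
        rw [mul_pow]
        have h5 : τ ^ 2 ≤ 1 := pow_le_one₀ hτ.1 hτ.2
        nlinarith [sq_nonneg c]
      linarith
    have h2 : 0 < ((1 - t) + t * (τ * c)) ^ 2 + t ^ 2 * (K * B.b w w - (τ * c) ^ 2) := by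
      by_cases h : t = 0
      · rw [h]; norm_num
      · have := mul_pos (pow_pos (abs_pos.mpr h) 2) h1
        rw [sq_abs] at this
        nlinarith [sq_nonneg ((1 - t) + t * (τ * c))]
    have h4 : ((1 - t) + t * (τ * c)) ^ 2 + t ^ 2 * (K * B.b w w - (τ * c) ^ 2) =
        K * ((1 - t) ^ 2 * B.b y y + 2 * (1 - t) * t * (τ * c * B.b ν y) + t ^ 2 * B.b w w) := by
      linear_combination (-((1 - t) ^ 2)) * hyy - (2 * (1 - t) * t * (τ * c)) * hn
    rwa [h4] at h2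
  · rw [add_sub_cancel_left, map_smul, hνν, smul_zero]

theorem kn_H (T : G.Tools ξ r L) (hT : G.TimeLike) (hK : K ≠ 0) (hf : G.IsSec f y)
    (hy : OnQ B.b K y) {ν w e : W} (hn : K * B.b ν y = 1) (hw : G.Wall f y ν w)
    (hyw : B.b y w = 0) (hye : B.b y e = 0) (hee : 0 < K * B.b e e)
    (hge : 0 ≤ K * B.b w e) : G.Wall f y ν (e - (K * B.b ν e) • y) := by
  have hyy := kn_onQ hK hy
  have hνw : B.b ν w = 0 := (mul_eq_zero.mp hw.tan).resolve_left hK
  have hνν := hw.null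
  set w' := e + (K * B.b ν e) • (ν - y) with hw'
  have h1 : B.b y w' = 0 := by
    have : K * B.b y w' = 0 := by
      rw [hw']
      simp only [map_add, map_smul, map_sub, smul_eq_mul]
      rw [hye, B.symm y ν]
      linear_combination (K * B.b ν e) * hn - (K * B.b ν e) * hyy
    exact (mul_eq_zero.mp this).resolve_left hK
  have h2 : B.b ν w' = 0 := by
    rw [hw']
    simp only [map_add, map_smul, map_sub, smul_eq_mul]
    rw [hνν]
    linear_combination (-B.b ν e) * hn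
  have h3 : K * B.b w' w' = K * B.b e e + (K * B.b ν e) ^ 2 := by
    have hq := kn_quad B e (ν - y) 1 (K * B.b ν e)
    rw [one_smul] at hq
    rw [hw', hq]
    have q1 : B.b e (ν - y) = B.b ν e := by
      rw [map_sub, B.symm e ν, B.symm e y, hye, sub_zero]
    have q2 : K * B.b (ν - y) (ν - y) = -1 := by
      have hq2 := kn_quad B ν y 1 (-1)
      rw [one_smul, neg_one_smul, ← sub_eq_add_neg] at hq2
      rw [hq2, hνν]
      linear_combination (-2) * hn + hyy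
    rw [q1]
    linear_combination (K * B.b ν e) ^ 2 * q2
  have h4 : K * B.b w w' = K * B.b w e := by
    rw [hw']
    simp only [map_add, map_smul, map_sub, smul_eq_mul]
    rw [B.symm w ν, B.symm w y, hνw, hyw]; ring
  have h5 := kn_H1 T hT hK hf hy hw hyw h1 h2 (by rw [h3]; positivity) (by rw [h4]; exact hge)
  have h6 := kn_H2 T hT hK hf hy hn h5 h1 (c := -(K * B.b ν e)) (by rw [h3, neg_sq]; linarith)
  have h7 : w' + (-(K * B.b ν e)) • ν = e - (K * B.b ν e) • y := by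
    rw [hw']; module
  rwa [h7] at h6


/-! ## Comparing walls -/

theorem kn_lt (T : G.Tools ξ r L) (hT : G.TimeLike) (hK : K ≠ 0) (hf : G.IsSec f y)
    {e : W} {c₁ c₂ : ℝ} (h1 : G.Bd f y (e + c₁ • y)) (h2 : G.Bd f y (e + c₂ • y)) :
    ¬ c₁ < c₂ := by
  intro hlt
  set t : ℝ := 1 / (1 + (c₂ - c₁)) with ht
  have hd : 0 < 1 + (c₂ - c₁) := by linarith
  have ht0 : 0 < t := by positivity
  have ht1 : t < 1 := by
    rw [ht, div_lt_one hd]; linarith
  have hv := h1.vis t ⟨ht0.le, ht1⟩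
  have h3 := (T.vis_smul hT hK hf hv (c := t⁻¹) (inv_pos.mpr ht0)).1
  have h4 : t⁻¹ • (y + t • (e + c₁ • y - y)) = e + c₂ • y := by
    have h5 : t⁻¹ = 1 + (c₂ - c₁) := by rw [ht]; simp
    rw [smul_add, smul_smul, inv_mul_cancel₀ ht0.ne', one_smul, h5]
    module
  rw [h4] at h3
  exact h2.nmem h3

theorem kn_eq (T : G.Tools ξ r L) (hT : G.TimeLike) (hK : K ≠ 0) (hf : G.IsSec f y)
    {e ν₁ ν₂ : W} (hn1 : K * B.b ν₁ y = 1) (hn2 : K * B.b ν₂ y = 1)
    (h1 : G.Wall f y ν₁ (e - (K * B.b ν₁ e) • y)) (h2 : G.Wall f y ν₂ (e - (K * B.b ν₂ e) • y)) :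
    ν₁ = ν₂ := by
  have e1 : e - (K * B.b ν₁ e) • y = e + (-(K * B.b ν₁ e)) • y := by module
  have e2 : e - (K * B.b ν₂ e) • y = e + (-(K * B.b ν₂ e)) • y := by module
  have h3 := kn_lt T hT hK hf (e1 ▸ h1.bd) (e2 ▸ h2.bd)
  have h4 := kn_lt T hT hK hf (e2 ▸ h2.bd) (e1 ▸ h1.bd)
  have h5 : K * B.b ν₁ e = K * B.b ν₂ e := by
    have := le_antisymm (not_lt.mp h3) (not_lt.mp h4)
    linarith
  rw [← h5] at h2
  obtain ⟨c, hc, hcν⟩ := h1.unique h2
  have h6 : c = 1 := by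
    have h7 : K * B.b ν₂ y = c * (K * B.b ν₁ y) := by
      rw [hcν, map_smul, smul_apply, smul_eq_mul]; ring
    rw [hn1, hn2] at h7
    linarith
  rw [hcν, h6, one_smul]

omit [T2Space M] [FiniteDimensional ℝ W] in
theorem kn_lor (hf : G.IsSec f y) (hy : OnQ B.b K y) : LorAt B.b K y := by
  obtain ⟨_, φ, ψ, hc, hφ, _⟩ := hf
  have := G.lor hc
  rwa [hφ, kn_nrm hy] at this

/-- Same time cone. -/
theorem kn_two (T : G.Tools ξ r L) (hT : G.TimeLike) (hK : K ≠ 0) (hf : G.IsSec f y)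
    (hy : OnQ B.b K y) {ν₁ ν₂ w₁ w₂ : W} (hn1 : K * B.b ν₁ y = 1) (hn2 : K * B.b ν₂ y = 1)
    (h1 : G.Wall f y ν₁ w₁) (h2 : G.Wall f y ν₂ w₂) (hy1 : B.b y w₁ = 0) (hy2 : B.b y w₂ = 0)
    (hge : 0 ≤ K * B.b w₁ w₂) : ν₁ = ν₂ := by
  have hν1 : B.b ν₁ w₁ = 0 := (mul_eq_zero.mp h1.tan).resolve_left hK
  have hww : 0 < K * B.b w₁ w₁ := by
    have := (kn_seg hK).mp (kn_wall_seg ⟨ν₁, h1⟩) 1 (by simp)
    simpa using this
  refine kn_eq T hT hK hf (e := w₁) hn1 hn2 ?_ ?_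
  · rw [hν1, mul_zero, zero_smul, sub_zero]
    exact h1
  · exact kn_H T hT hK hf hy hn2 h2 hy2 hy1 hww (by rwa [B.symm w₂ w₁])

/-- For `K > 0` all walls are equal. -/
theorem kn_pos (T : G.Tools ξ r L) (hT : G.TimeLike) (hK : 0 < K) (hdim : 4 ≤ finrank ℝ W)
    (hf : G.IsSec f y)
    (hy : OnQ B.b K y) {ν₁ ν₂ w₁ w₂ : W} (hn1 : K * B.b ν₁ y = 1) (hn2 : K * B.b ν₂ y = 1)
    (h1 : G.Wall f y ν₁ w₁) (h2 : G.Wall f y ν₂ w₂) (hy1 : B.b y w₁ = 0) (hy2 : B.b y w₂ = 0) :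
    ν₁ = ν₂ := by
  rcases le_or_gt 0 (K * B.b w₁ w₂) with hge | hlt
  · exact kn_two T hT hK.ne' hf hy hn1 hn2 h1 h2 hy1 hy2 hge
  have hyy := kn_onQ hK.ne' hy
  have hν1 : B.b ν₁ w₁ = 0 := (mul_eq_zero.mp h1.tan).resolve_left hK.ne'
  -- a vector orthogonal to `y`, `ν₁`, `w₁`
  let ℓ : W →ₗ[ℝ] (Fin 3 → ℝ) := LinearMap.pi ![(B.b y).toLinearMap, (B.b ν₁).toLinearMap,
    (B.b w₁).toLinearMap]
  have hker : LinearMap.ker ℓ ≠ ⊥ := by
    apply LinearMap.ker_ne_bot_of_finrank_lt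
    rw [Module.finrank_fin_fun]
    omega
  obtain ⟨u, hu, hu0⟩ := (Submodule.ne_bot_iff _).mp hker
  have hu1 : B.b y u = 0 := by
    have := congrFun (LinearMap.mem_ker.mp hu) 0
    simpa [ℓ] using this
  have hu2 : B.b ν₁ u = 0 := by
    have := congrFun (LinearMap.mem_ker.mp hu) 1
    simpa [ℓ] using this
  have hu3 : B.b w₁ u = 0 := by
    have := congrFun (LinearMap.mem_ker.mp hu) 2
    simpa [ℓ] using this
  have hlor := kn_lor hf hy
  -- the timelike direction `ν₁ - y`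
  have hθθ : B.b (ν₁ - y) (ν₁ - y) < 0 := by
    have hq2 := kn_quad B ν₁ y 1 (-1)
    rw [one_smul, neg_one_smul, ← sub_eq_add_neg] at hq2
    have : K * B.b (ν₁ - y) (ν₁ - y) = -1 := by
      rw [hq2, h1.null]
      linear_combination (-2) * hn1 + hyy
    by_contra hcon
    have := mul_nonneg hK.le (not_lt.mp hcon)
    linarith
  have huu : 0 < B.b u u := by
    refine hlor (ν₁ - y) u ?_ ?_ hθθ ?_ hu0
    · show K * B.b y (ν₁ - y) = 0
      rw [map_sub, B.symm y ν₁]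
      linear_combination hn1 - hyy
    · show K * B.b y u = 0
      rw [hu1, mul_zero]
    · rw [map_sub, sub_apply, hu1, hu2, sub_zero]
  -- choose the sign
  obtain ⟨v, hv1, hv2, hv3, hvv, hvw⟩ : ∃ v : W, B.b y v = 0 ∧ B.b ν₁ v = 0 ∧ B.b w₁ v = 0 ∧
      0 < B.b v v ∧ 0 ≤ B.b v w₂ := by
    rcases le_or_gt 0 (B.b u w₂) with h | h
    · exact ⟨u, hu1, hu2, hu3, huu, h⟩
    · refine ⟨-u, by simp [hu1], by simp [hu2], by simp [hu3], by simpa using huu, ?_⟩
      rw [map_neg, neg_apply]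
      linarith
  have h3 := kn_H1 T hT hK.ne' hf hy h1 hy1 hv1 hv2 (mul_pos hK hvv) (by rw [hv3, mul_zero])
  exact kn_two T hT hK.ne' hf hy hn1 hn2 h3 h2 hv1 hy2 (mul_nonneg hK.le hvw)

theorem Tools.walls_le_two (T : G.Tools ξ r L) (hT : G.TimeLike) (hK : GoodK W K)
    (hf : G.IsSec f y) (hy : OnQ B.b K y) {ν a : Fin 3 → W} (hw : ∀ i, G.Wall f y (ν i) (a i))
    (hn : ∀ i, K * B.b (ν i) y = 1) : ∃ i j, i ≠ j ∧ ν i = ν j := by
  have hK0 : K ≠ 0 := by
    rcases hK with h | h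
    · exact h.1.ne
    · exact h.1.ne'
  have hyy := kn_onQ hK0 hy
  set w : Fin 3 → W := fun i => a i - (K * B.b y (a i)) • ν i with hwdef
  have hww : ∀ i, G.Wall f y (ν i) (w i) := fun i => kn_H0 T hT hK0 hf hy (hw i) (hn i)
  have hyw : ∀ i, B.b y (w i) = 0 := by
    intro i
    have : B.b y (w i) = B.b y (a i) - (K * B.b y (a i)) * B.b (ν i) y := by
      simp only [hwdef, map_sub, map_smul, smul_eq_mul]
      rw [B.symm y (ν i)]
    rw [this]
    linear_combination (-B.b y (a i)) * hn i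
  rcases hK with ⟨hK, hdim⟩ | ⟨hK, hdim⟩
  · have hneg : ∀ i, B.b (w i) (w i) < 0 := by
      intro i
      have h1 := (kn_seg hK0).mp (kn_wall_seg ⟨_, hww i⟩) 1 (by simp)
      have h2 : 0 < K * B.b (w i) (w i) := by simpa using h1
      by_contra hcon
      have := mul_nonpos_of_nonpos_of_nonneg hK.le (not_lt.mp hcon)
      linarith
    have hlor := kn_lor hf hy
    have key : ∀ i j, 0 ≤ K * B.b (w i) (w j) → ν i = ν j := fun i j h =>
      kn_two T hT hK0 hf hy (hn i) (hn j) (hww i) (hww j) (hyw i) (hyw j) h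
    by_contra hcon
    push Not at hcon
    have hpos : ∀ i j, i ≠ j → 0 < B.b (w i) (w j) := by
      intro i j hij
      by_contra h
      exact hcon i j hij (key i j (mul_nonneg_of_nonpos_of_nonpos hK.le (not_lt.mp h)))
    -- three timelike vectors with pairwise positive products
    have p01 := hpos 0 1 (by decide)
    have p02 := hpos 0 2 (by decide)
    have p12 := hpos 1 2 (by decide)
    set t := B.b (w 0) (w 1) / B.b (w 0) (w 2) with ht
    have ht0 : 0 < t := div_pos p01 p02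
    have h1 : B.b (w 0) (w 1 + (-t) • w 2) = 0 := by
      rw [map_add, map_smul, smul_eq_mul, ht]
      field_simp
      ring
    have h2 : B.b (w 1 + (-t) • w 2) (w 1 + (-t) • w 2) < 0 := by
      have := kn_quad B (w 1) (w 2) 1 (-t)
      rw [one_smul] at this
      rw [this]
      have q1 := hneg 1
      have q2 := mul_neg_of_pos_of_neg (pow_pos ht0 2) (hneg 2)
      have q3 := mul_pos ht0 p12
      nlinarith
    have h3 : w 1 + (-t) • w 2 ≠ 0 := by
      intro h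
      rw [h] at h2
      simp at h2
    have h4 := hlor (w 0) (w 1 + (-t) • w 2) (by
        show K * B.b y (w 0) = 0
        rw [hyw, mul_zero]) (by
        show K * B.b y (w 1 + (-t) • w 2) = 0
        rw [map_add, map_smul, hyw, hyw]; simp) (hneg 0) h1 h3
    linarith
  · exact ⟨0, 1, by decide, kn_pos T hT hK hdim hf hy (hn 0) (hn 1) (hww 0) (hww 1) (hyw 0)
      (hyw 1)⟩


/-! ## Unblocked walls -/

omit [FiniteDimensional ℝ W] in
theorem kn_mem_Om (hK : K ≠ 0) (hy : OnQ B.b K y) {ν : W} (hνν : B.b ν ν = 0)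
    (hn : K * B.b ν y = 1) {s : ℝ} (hs' : s < 1 / 2) : y - s • ν ∈ Om B.b K := by
  have hyy := kn_onQ hK hy
  have hq := kn_quad B y ν 1 (-s)
  rw [one_smul, neg_smul, ← sub_eq_add_neg] at hq
  show 0 < K * B.b (y - s • ν) (y - s • ν) + dl K
  rw [dl_ne hK, add_zero, hq, hνν, B.symm y ν]
  have : K * (1 ^ 2 * B.b y y + 2 * 1 * -s * B.b ν y + (-s) ^ 2 * 0) = 1 - 2 * s := by
    linear_combination hyy - 2 * s * hn
  rw [this]
  linarith

omit [T2Space M] [FiniteDimensional ℝ W] in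
theorem kn_vis_all (hf : G.IsSec f y) {ν : W} {s : ℝ} (h : y - s • ν ∈ G.Vis f y) {u : ℝ}
    (hu : u ∈ Icc (0 : ℝ) s) : y - u • ν ∈ G.Vis f y := by
  rcases (hu.1.trans hu.2).eq_or_lt with h0 | h0
  · have : u = 0 := le_antisymm (by rw [h0]; exact hu.2) hu.1
    rw [this, zero_smul, sub_zero]
    exact base_mem_Vis hf
  · refine Vis_segment h ?_
    rw [segment_eq_image]
    refine ⟨u / s, ⟨div_nonneg hu.1 h0.le, (div_le_one h0).mpr hu.2⟩, ?_⟩
    have h1 : (1 - u / s) • y + (u / s) • (y - s • ν) = y - (u / s * s) • ν := by module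
    simp only [h1]
    rw [div_mul_cancel₀ _ h0.ne']

theorem kn_step (T : G.Tools ξ r L) (hT : G.TimeLike) (hK : K ≠ 0) (hf : G.IsSec f y)
    (hy : OnQ B.b K y) {ν : W} (hνν : B.b ν ν = 0) (hn : K * B.b ν y = 1) {s : ℝ} (hs : 0 ≤ s)
    (hs' : s < 1 / 2) (hnv : y - s • ν ∉ G.Vis f y) :
    ∃ s₂ ν₂, 0 < s₂ ∧ s₂ ≤ s ∧ G.Wall f y ν₂ (y - s₂ • ν) ∧ K * B.b ν₂ y = 1 ∧
      s₂ * (K * B.b ν ν₂) = 1 := by
  have hs0 : 0 < s := by
    rcases hs.eq_or_lt with h | h
    · exfalso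
      apply hnv
      rw [← h, zero_smul, sub_zero]
      exact base_mem_Vis hf
    · exact h
  have hseg : segment ℝ y (y - s • ν) ⊆ Om B.b K := by
    rw [segment_eq_image]
    rintro _ ⟨t, ht, rfl⟩
    have h1 : (1 - t) • y + t • (y - s • ν) = y - (t * s) • ν := by module
    simp only [h1]
    refine kn_mem_Om hK hy hνν hn ?_
    have := mul_le_of_le_one_left hs ht.2
    linarith
  obtain ⟨t, ht, hbd⟩ := exists_Bd hf hnv hseg
  have h2 : y + t • (y - s • ν - y) = y - (t * s) • ν := by module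
  rw [h2] at hbd
  obtain ⟨ν', hw⟩ := T.exists_wall hT hf hbd
  have hne := mul_ne_zero hK (kn_wall_ne hK hw)
  have hw2 := hw.smul (inv_ne_zero hne)
  set ν₂ := (K * B.b ν' y)⁻¹ • ν' with hν₂
  have hn2 : K * B.b ν₂ y = 1 := by
    rw [hν₂, map_smul, smul_apply, smul_eq_mul, mul_left_comm, inv_mul_cancel₀ hne]
  clear_value ν₂
  refine ⟨t * s, ν₂, mul_pos ht.1 hs0, mul_le_of_le_one_left hs ht.2, hw2, hn2, ?_⟩
  have h3 := hw2.tan
  rw [map_sub, map_smul, smul_eq_mul, B.symm ν₂ ν] at h3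
  linear_combination hn2 - h3

theorem Tools.unblocked (T : G.Tools ξ r L) (hT : G.TimeLike) (hK : GoodK W K)
    (hf : G.IsSec f y) (hy : OnQ B.b K y) {ν : W} (hw : G.Wall f y ν a) {s : ℝ} (hs : 0 ≤ s)
    (hs' : s < 1 / 2) :
    ∃ ν' a', G.Wall f y ν' a' ∧ K * B.b ν' y = 1 ∧ B.b y a' = 0 ∧
      ∀ u ∈ Icc (0 : ℝ) s, y - u • ν' ∈ G.Vis f y := by
  have hK0 : K ≠ 0 := by
    rcases hK with h | h
    · exact h.1.ne
    · exact h.1.ne'
  have hyy := kn_onQ hK0 hy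
  -- normalisation
  have hne := mul_ne_zero hK0 (kn_wall_ne hK0 hw)
  have hw1 := hw.smul (inv_ne_zero hne)
  set ν₁ := (K * B.b ν y)⁻¹ • ν with hν₁
  have hn1 : K * B.b ν₁ y = 1 := by
    rw [hν₁, map_smul, smul_apply, smul_eq_mul, mul_left_comm, inv_mul_cancel₀ hne]
  have horth : ∀ {ν' b : W}, K * B.b ν' y = 1 → B.b y (b - (K * B.b y b) • ν') = 0 := by
    intro ν' b hn'
    rw [map_sub, map_smul, smul_eq_mul, B.symm y ν']
    linear_combination (-B.b y b) * hn'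
  by_cases hv1 : y - s • ν₁ ∈ G.Vis f y
  · exact ⟨ν₁, _, kn_H0 T hT hK0 hf hy hw1 hn1, hn1, horth hn1, fun u hu => kn_vis_all hf hv1 hu⟩
  obtain ⟨s₂, ν₂, hs2, hs2', hw2, hn2, hm2⟩ := kn_step T hT hK0 hf hy hw1.null hn1 hs hs' hv1
  have hW2 := kn_H0 T hT hK0 hf hy hw2 hn2
  by_cases hv2 : y - s • ν₂ ∈ G.Vis f y
  · exact ⟨ν₂, _, hW2, hn2, horth hn2, fun u hu => kn_vis_all hf hv2 hu⟩
  exfalso
  obtain ⟨s₃, ν₃, hs3, hs3', hw3, hn3, hm3⟩ := kn_step T hT hK0 hf hy hw2.null hn2 hs hs' hv2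
  have hW3 := kn_H0 T hT hK0 hf hy hw3 hn3
  have h12 : ν₁ ≠ ν₂ := by
    intro h
    rw [← h, hw1.null] at hm2
    simp at hm2
  have h23 : ν₂ ≠ ν₃ := by
    intro h
    rw [← h, hw2.null] at hm3
    simp at hm3
  obtain ⟨i, j, hij, hνij⟩ := T.walls_le_two hT hK hf hy (ν := ![ν₁, ν₂, ν₃])
    (a := ![a, y - s₂ • ν₁, y - s₃ • ν₂]) (by
      intro i
      fin_cases i
      · exact hw1
      · exact hw2
      · exact hw3) (by
      intro i
      fin_cases i
      · exact hn1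
      · exact hn2
      · exact hn3)
  have h13 : ν₁ = ν₃ := by
    fin_cases i <;> fin_cases j
    · exact absurd rfl hij
    · exact absurd hνij h12
    · exact hνij
    · exact absurd hνij.symm h12
    · exact absurd rfl hij
    · exact absurd hνij h23
    · exact hνij.symm
    · exact absurd hνij.symm h23
    · exact absurd rfl hij
  subst h13
  have hs23 : s₃ = s₂ := by
    rw [B.symm ν₂ ν₁] at hm3
    have hne' : K * B.b ν₁ ν₂ ≠ 0 := by
      intro h
      rw [h, mul_zero] at hm2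
      exact zero_ne_one hm2
    exact mul_right_cancel₀ hne' (hm3.trans hm2.symm)
  subst hs23
  have hx2 : K * B.b y (y - s₃ • ν₁) = 1 - s₃ := by
    rw [map_sub, map_smul, smul_eq_mul, B.symm y ν₁]
    linear_combination hyy - s₃ * hn1
  have hx3 : K * B.b y (y - s₃ • ν₂) = 1 - s₃ := by
    rw [map_sub, map_smul, smul_eq_mul, B.symm y ν₂]
    linear_combination hyy - s₃ * hn2
  have hy2 := horth (b := y - s₃ • ν₁) hn2
  have hy3 := horth (b := y - s₃ • ν₂) hn1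
  rw [hx2] at hW2 hy2
  rw [hx3] at hW3 hy3
  refine h23 (kn_two T hT hK0 hf hy hn2 hn3 hW2 hW3 hy2 hy3 ?_)
  have hval : s₃ * (K * B.b (y - s₃ • ν₁ - (1 - s₃) • ν₂) (y - s₃ • ν₂ - (1 - s₃) • ν₁)) =
      (1 - s₃) * (1 - 2 * s₃) := by
    have hν1 := hw1.null
    have hν2 := hw2.null
    simp only [map_sub, map_smul, sub_apply, smul_apply, smul_eq_mul]
    rw [B.symm y ν₁, B.symm y ν₂, B.symm ν₂ ν₁, hν1, hν2]
    linear_combination s₃ * hyy - s₃ * hn1 - s₃ * hn2 + (s₃ ^ 2 + (1 - s₃) ^ 2) * hm2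
  have h5 : 0 ≤ (1 - s₃) * (1 - 2 * s₃) := mul_nonneg (by linarith) (by linarith)
  rw [← hval] at h5
  exact (mul_nonneg_iff_of_pos_left hs3).mp h5

end GX

end Pool.H1.Lor
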