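import Pool.Agent.H1.CK.Defs

/-! # Curved case: the volume of the images under the expanding map (module KN2a, helper21) -/

namespace Pool.H1.Lor

open Filter Topology Set Module MeasureTheory
open scoped ENNReal

variable {W : Type*} [NormedAddCommGroup W] [NormedSpace ℝ W]

/-- The expanding map `z ↦ (z - s (K b(z,z) / K b(N,z)) N) / √(1-2s)`. -/
noncomputable def Tm (B : Form W) (K s : ℝ) (N z : W) : W :=
  (Real.sqrt (1 - 2 * s))⁻¹ • (z - (s * (K * B.b z z) / (K * B.b N z)) • N)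

namespace KN2a

variable {B : Form W} {K s : ℝ} {N z : W}

lemma Tm_eq (hK : K ≠ 0) : Tm B K s N z =
    (Real.sqrt (1 - 2 * s))⁻¹ • (z - (s * B.b z z / B.b N z) • N) := by
  unfold Tm
  congr 3
  rw [show s * (K * B.b z z) = K * (s * B.b z z) by ring, mul_div_mul_left _ _ hK]

lemma b_Tm (hK : K ≠ 0) (hN : B.b N N = 0) :
    B.b N (Tm B K s N z) = (Real.sqrt (1 - 2 * s))⁻¹ * B.b N z := by
  rw [Tm_eq hK]
  simp [hN]

lemma q_Tm (hK : K ≠ 0) (hN : B.b N N = 0) (hs' : s < 1 / 2) (hz : B.b N z ≠ 0) :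
    B.b (Tm B K s N z) (Tm B K s N z) = B.b z z := by
  have hc : 0 < 1 - 2 * s := by linarith
  have hsq : Real.sqrt (1 - 2 * s) ^ 2 = 1 - 2 * s := Real.sq_sqrt hc.le
  have hc0 : Real.sqrt (1 - 2 * s) ≠ 0 := (Real.sqrt_pos.2 hc).ne'
  rw [Tm_eq hK]
  simp only [map_smul, map_sub, ContinuousLinearMap.smul_apply, ContinuousLinearMap.sub_apply,
    smul_eq_mul, hN, B.symm z N]
  field_simp
  rw [hsq]
  ring

lemma injOn_Tm (hK : K ≠ 0) (hN : B.b N N = 0) (hs' : s < 1 / 2) {D : Set W}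
    (hD' : ∀ z ∈ D, B.b N z ≠ 0) : InjOn (Tm B K s N) D := by
  intro z hz w hw h
  have hc : 0 < 1 - 2 * s := by linarith
  have hc0 : Real.sqrt (1 - 2 * s) ≠ 0 := (Real.sqrt_pos.2 hc).ne'
  have h1 : B.b N z = B.b N w := by
    have := congrArg (fun v => B.b N v) h
    simp only [b_Tm hK hN] at this
    exact mul_left_cancel₀ (inv_ne_zero hc0) this
  have h2 : B.b z z = B.b w w := by
    have := congrArg (fun v => B.b v v) h
    simp only [q_Tm hK hN hs' (hD' z hz), q_Tm hK hN hs' (hD' w hw)] at this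
    exact this
  rw [Tm_eq hK, Tm_eq hK, h1, h2] at h
  have h3 := smul_right_injective W (inv_ne_zero hc0) h
  exact sub_left_injective h3

/-- The derivative of `Tm`. -/
noncomputable def dTm (B : Form W) (s : ℝ) (N z : W) : W →L[ℝ] W :=
  (Real.sqrt (1 - 2 * s))⁻¹ • (ContinuousLinearMap.id ℝ W -
    ((s * (2 / B.b N z)) • B.b z - (s * (B.b z z / (B.b N z) ^ 2)) • B.b N).smulRight N)

lemma hasFDerivAt_Tm (hK : K ≠ 0) (hz : B.b N z ≠ 0) :
    HasFDerivAt (Tm B K s N) (dTm B s N z) z := by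
  have hq : HasFDerivAt (fun y => B.b y y) ((2:ℝ) • B.b z) z := by
    have h1 : HasFDerivAt (fun y => B.b y y) _ z :=
      (B.b.hasFDerivAt (x := z)).clm_apply (hasFDerivAt_id z)
    refine h1.congr_fderiv ?_
    ext h
    simp [B.symm h z, two_mul]
  have hb : HasFDerivAt (fun y => B.b N y) (B.b N) z := (B.b N).hasFDerivAt
  have hb' : HasFDerivAt (fun y => (B.b N y)⁻¹) (-((B.b N z) ^ 2)⁻¹ • B.b N) z := by
    have := (hasDerivAt_inv hz).comp_hasFDerivAt z hb
    exact this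
  have hm : HasFDerivAt (fun y => s * B.b y y / B.b N y)
      ((s * (2 / B.b N z)) • B.b z - (s * (B.b z z / (B.b N z) ^ 2)) • B.b N) z := by
    have h2 := (hq.const_mul s).mul hb'
    refine (h2.congr_fderiv ?_).congr_of_eventuallyEq
      (Eventually.of_forall fun y => by simp only [div_eq_mul_inv, Pi.mul_apply])
    ext h
    simp only [ContinuousLinearMap.add_apply, ContinuousLinearMap.smul_apply, smul_eq_mul,
      ContinuousLinearMap.sub_apply]
    field_simp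
    ring
  have h3 := ((hasFDerivAt_id z).sub (hm.smul_const N)).const_smul (Real.sqrt (1 - 2 * s))⁻¹
  refine h3.congr_of_eventuallyEq (Eventually.of_forall fun y => ?_)
  simp only [Tm_eq hK]
  rfl

lemma det_dTm [FiniteDimensional ℝ W] (hN : B.b N N = 0) (hs' : s < 1 / 2) (hz : B.b N z ≠ 0) :
    (dTm B s N z).det = (1 - 2 * s) ^ (-(((finrank ℝ W : ℝ) - 2) / 2)) := by
  have hc : 0 < 1 - 2 * s := by linarith
  have hc0 : 0 < Real.sqrt (1 - 2 * s) := Real.sqrt_pos.2 hc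
  set l : W →L[ℝ] ℝ :=
    (s * (2 / B.b N z)) • B.b z - (s * (B.b z z / (B.b N z) ^ 2)) • B.b N with hl
  have h1 : ((dTm B s N z : W →L[ℝ] W) : W →ₗ[ℝ] W) =
      (Real.sqrt (1 - 2 * s))⁻¹ • LinearMap.transvection ((-l : W →L[ℝ] ℝ) : W →ₗ[ℝ] ℝ) N := by
    ext h
    simp [dTm, LinearMap.transvection.apply, ← hl, sub_eq_add_neg]
  have h2 : l N = 2 * s := by
    rw [hl]
    simp only [ContinuousLinearMap.sub_apply, ContinuousLinearMap.smul_apply, smul_eq_mul, hN,
      B.symm z N]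
    field_simp
    ring
  unfold ContinuousLinearMap.det
  rw [h1, LinearMap.det_smul, LinearMap.transvection.det]
  have h3 : (1 : ℝ) + ((-l : W →L[ℝ] ℝ) : W →ₗ[ℝ] ℝ) N = 1 - 2 * s := by
    rw [ContinuousLinearMap.coe_coe, ContinuousLinearMap.neg_apply, h2]; ring
  rw [h3, Real.sqrt_eq_rpow, ← Real.rpow_neg hc.le, ← Real.rpow_natCast, ← Real.rpow_mul hc.le]
  nth_rewrite 2 [← Real.rpow_one (1 - 2 * s)]
  rw [← Real.rpow_add hc]
  congr 1
  ring

end KN2a

open KN2a in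
/-- KN2a: the volume of the images under `Tm`. -/
theorem measure_Tm [FiniteDimensional ℝ W] [MeasurableSpace W] [BorelSpace W] (μ : Measure W)
    [μ.IsAddHaarMeasure] (B : Form W) {K : ℝ} (hK : K ≠ 0) {N : W} (hN : B.b N N = 0) {s : ℝ}
    (hs : 0 ≤ s) (hs' : s < 1 / 2) {D : Set W} (hD : MeasurableSet D)
    (hD' : ∀ z ∈ D, B.b N z ≠ 0) :
    MeasurableSet (Tm B K s N '' D) ∧ InjOn (Tm B K s N) D ∧
      μ (Tm B K s N '' D) =
        ENNReal.ofReal ((1 - 2 * s) ^ (-(((finrank ℝ W : ℝ) - 2) / 2))) * μ D := by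
  have _ := hs
  have hinj := injOn_Tm (B := B) (K := K) hK hN hs' hD'
  have hder : ∀ z ∈ D, HasFDerivWithinAt (Tm B K s N) (dTm B s N z) D z := fun z hz =>
    (hasFDerivAt_Tm hK (hD' z hz)).hasFDerivWithinAt
  refine ⟨measurable_image_of_fderivWithin hD hder hinj, hinj, ?_⟩
  rw [← lintegral_abs_det_fderiv_eq_addHaar_image μ hD hder hinj]
  have hc : 0 < 1 - 2 * s := by linarith
  have h1 : ∫⁻ z in D, ENNReal.ofReal |(dTm B s N z).det| ∂μ =
      ∫⁻ _ in D, ENNReal.ofReal ((1 - 2 * s) ^ (-(((finrank ℝ W : ℝ) - 2) / 2))) ∂μ := by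
    refine setLIntegral_congr_fun hD fun z hz => ?_
    rw [det_dTm hN hs' (hD' z hz), abs_of_pos (Real.rpow_pos_of_pos hc _)]
  rw [h1, setLIntegral_const]

end Pool.H1.Lor
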