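import Pool.Agent.H1.CK.KN1
import Pool.Agent.H1.CK.KN2a
import Pool.Agent.H84.KL.Vol

/-! # Curved case: the volume contradiction (module KN2, helper6) -/

namespace Pool.H1.Lor

open Filter Topology Set Module MeasureTheory
open scoped ENNReal

variable {W : Type*} [NormedAddCommGroup W] [NormedSpace ℝ W]
  {F : Type*} [NormedAddCommGroup F] [InnerProductSpace ℝ F]

namespace KN2b

lemma inj3 {α : Type*} {a b c : α} (h12 : a ≠ b) (h13 : a ≠ c) (h23 : b ≠ c) :
    Function.Injective ![a, b, c] := by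
  intro i j hij
  fin_cases i <;> fin_cases j <;> simp_all

lemma mem3 {α : Type*} {S : Finset α} {a b c : α} (ha : a ∈ S) (hb : b ∈ S) (hc : c ∈ S)
    (j : Fin 3) : ![a, b, c] j ∈ S := by
  fin_cases j <;> simpa

/-! ### Convex hulls of three points -/

lemma mem_conv3 {x y z p : W} (hp : p ∈ convexHull ℝ {x, y, z}) :
    ∃ a b c : ℝ, 0 ≤ a ∧ 0 ≤ b ∧ 0 ≤ c ∧ a + b + c = 1 ∧ p = a • x + b • y + c • z := by
  rw [convexHull_insert (by simp), convexHull_pair] at hp
  simp only [mem_convexJoin, mem_singleton_iff] at hp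
  obtain ⟨x', rfl, q, ⟨c, d, hc, hd, hcd, rfl⟩, ⟨a, b, ha, hb, hab, rfl⟩⟩ := hp
  refine ⟨a, b * c, b * d, ha, by positivity, by positivity, ?_, ?_⟩
  · rw [add_assoc, ← mul_add, hcd, mul_one, hab]
  · rw [smul_add, smul_smul, smul_smul, add_assoc]

lemma conv3_mem {x y z : W} {a b c : ℝ} (ha : 0 ≤ a) (hb : 0 ≤ b) (hc : 0 ≤ c)
    (h : a + b + c = 1) : a • x + b • y + c • z ∈ convexHull ℝ {x, y, z} := by
  have hx : x ∈ convexHull ℝ {x, y, z} := subset_convexHull ℝ _ (by simp)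
  have hy : y ∈ convexHull ℝ {x, y, z} := subset_convexHull ℝ _ (by simp)
  have hz : z ∈ convexHull ℝ {x, y, z} := subset_convexHull ℝ _ (by simp)
  have hcv := convex_convexHull ℝ ({x, y, z} : Set W)
  have h3 := hcv.sum_mem (t := Finset.univ) (w := ![a, b, c]) (z := ![x, y, z])
    (by intro i _; fin_cases i <;> simp [ha, hb, hc])
    (by simp [Fin.sum_univ_three, h])
    (by intro i _; fin_cases i <;> simpa)
  simpa [Fin.sum_univ_three] using h3

/-- The convex hull stays in an open set when the middle point moves a little. -/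
lemma eventually_conv3 {O : Set W} (hO : IsOpen O) {x y z : W}
    (h : convexHull ℝ {x, y, z} ⊆ O) : ∀ᶠ y' in 𝓝 y, convexHull ℝ {x, y', z} ⊆ O := by
  have hcomp : IsCompact (Icc (0 : ℝ) 1 ×ˢ Icc (0 : ℝ) 1) := isCompact_Icc.prod isCompact_Icc
  have h1 : ∀ t ∈ Icc (0 : ℝ) 1 ×ˢ Icc (0 : ℝ) 1, ∀ᶠ p : W × (ℝ × ℝ) in 𝓝 (y, t),
      p.2.1 • x + (1 - p.2.1) • (p.2.2 • p.1 + (1 - p.2.2) • z) ∈ O := by
    rintro ⟨t, u⟩ ⟨⟨ht0, ht1⟩, ⟨hu0, hu1⟩⟩
    have c : Continuous fun p : W × (ℝ × ℝ) =>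
        p.2.1 • x + (1 - p.2.1) • (p.2.2 • p.1 + (1 - p.2.2) • z) := by fun_prop
    refine (c.tendsto (y, (t, u))).eventually (hO.mem_nhds (h ?_))
    have e : t • x + (1 - t) • (u • y + (1 - u) • z) =
        t • x + ((1 - t) * u) • y + ((1 - t) * (1 - u)) • z := by
      rw [smul_add, smul_smul, smul_smul, add_assoc]
    simp only [e]
    refine conv3_mem ht0 (mul_nonneg (sub_nonneg.2 ht1) hu0)
      (mul_nonneg (sub_nonneg.2 ht1) (sub_nonneg.2 hu1)) (by ring)
  have h2 := hcomp.eventually_forall_of_forall_eventually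
    (P := fun (p : W) (t : ℝ × ℝ) => t.1 • x + (1 - t.1) • (t.2 • p + (1 - t.2) • z) ∈ O) h1
  filter_upwards [h2] with y' hy' p hp
  obtain ⟨a, b, c, ha, hb, hc, habc, rfl⟩ := mem_conv3 hp
  by_cases hbc : b + c = 0
  · have hb0 : b = 0 := by linarith
    have hc0 : c = 0 := by linarith
    have ha1 : a = 1 := by linarith
    have := hy' (1, 0) ⟨⟨by norm_num, le_refl _⟩, ⟨le_refl _, by norm_num⟩⟩
    simpa [hb0, hc0, ha1] using this
  · have hpos : 0 < b + c := lt_of_le_of_ne (by linarith) (Ne.symm hbc)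
    have := hy' (a, b / (b + c)) ⟨⟨ha, by linarith⟩, ⟨by positivity, by
      rw [div_le_one hpos]; linarith⟩⟩
    have e1 : 1 - a = b + c := by linarith
    have e2 : 1 - b / (b + c) = c / (b + c) := by field_simp; ring
    simp only [e1, e2, smul_add, smul_smul] at this
    rw [mul_div_cancel₀ _ hbc, mul_div_cancel₀ _ hbc] at this
    rwa [add_assoc]

/-- Segments with both endpoints moving. -/
lemma eventually_segment₂ {U : Set W} (hU : IsOpen U) {g : W → W} {q : W}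
    (hg : ContinuousAt g q) (h : segment ℝ (g q) q ⊆ U) :
    ∀ᶠ q' in 𝓝 q, segment ℝ (g q') q' ⊆ U := by
  have h1 : ∀ t ∈ Icc (0 : ℝ) 1, ∀ᶠ p : W × ℝ in 𝓝 (q, t), g p.1 + p.2 • (p.1 - g p.1) ∈ U := by
    intro t ht
    have hg' : ContinuousAt (fun p : W × ℝ => g p.1) (q, t) :=
      ContinuousAt.comp (f := Prod.fst) (g := g) (x := (q, t)) hg continuousAt_fst
    have c : ContinuousAt (fun p : W × ℝ => g p.1 + p.2 • (p.1 - g p.1)) (q, t) :=
      hg'.add (continuousAt_snd.smul (continuousAt_fst.sub hg'))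
    exact c.eventually (hU.mem_nhds (h (GX.mem_seg (g q) q ht)))
  have h2 := (isCompact_Icc (a := (0 : ℝ)) (b := 1)).eventually_forall_of_forall_eventually
    (P := fun (p : W) (t : ℝ) => g p + t • (p - g p) ∈ U) h1
  filter_upwards [h2] with q' hq' p hp
  rw [segment_eq_image'] at hp
  obtain ⟨t, ht, rfl⟩ := hp
  exact hq' t ht

/-! ### The expanding map -/

section
variable {B : Form W} {K s : ℝ} {N z : W}

lemma Tm_smul (hK : K ≠ 0) {c : ℝ} (hc : c ≠ 0) :
    Tm B K s N (c • z) = c • Tm B K s N z := by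
  rw [KN2a.Tm_eq hK, KN2a.Tm_eq hK, smul_comm c]
  congr 1
  rw [smul_sub, smul_smul]
  congr 2
  simp only [map_smul, ContinuousLinearMap.smul_apply, smul_eq_mul]
  field_simp

lemma nf_Tm (hK : K ≠ 0) (hN : B.b N N = 0) (hs' : s < 1 / 2) (hz : B.b N z ≠ 0) :
    nf B.b K (Tm B K s N z) = nf B.b K z := by
  unfold nf
  rw [KN2a.q_Tm hK hN hs' hz]

lemma onQ_Tm (hK : K ≠ 0) (hN : B.b N N = 0) (hs' : s < 1 / 2) (hz : B.b N z ≠ 0)
    (h : OnQ B.b K z) : OnQ B.b K (Tm B K s N z) := by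
  unfold OnQ at h ⊢
  rw [KN2a.q_Tm hK hN hs' hz]
  exact h

lemma continuousAt_Tm (hK : K ≠ 0) (hz : B.b N z ≠ 0) : ContinuousAt (Tm B K s N) z := by
  have h : Tm B K s N = fun z => (Real.sqrt (1 - 2 * s))⁻¹ • (z - (s * B.b z z / B.b N z) • N) := by
    funext z
    exact KN2a.Tm_eq hK
  rw [h]
  have h1 : ContinuousAt (fun z : W => s * B.b z z / B.b N z) z := by
    apply ContinuousAt.div _ _ hz
    · exact (by fun_prop : Continuous fun z : W => s * B.b z z).continuousAt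
    · exact (by fun_prop : Continuous fun z : W => B.b N z).continuousAt
  exact (continuousAt_id.sub (h1.smul continuousAt_const)).const_smul _

/-- `z` in terms of its image and the normalised null vector. -/
lemma Tm_back (hK : K ≠ 0) (hN : B.b N N = 0) (hs' : s < 1 / 2) (hz : B.b N z ≠ 0)
    (h : OnQ B.b K z) :
    z = Real.sqrt (1 - 2 * s) • Tm B K s N z +
      (s / Real.sqrt (1 - 2 * s)) • ((K * B.b N (Tm B K s N z))⁻¹ • N) := by
  have hc : 0 < Real.sqrt (1 - 2 * s) := Real.sqrt_pos.2 (by linarith)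
  have hQ : K * B.b z z = 1 := by
    unfold OnQ at h
    rwa [dl_ne hK, add_zero] at h
  rw [KN2a.b_Tm hK hN]
  unfold Tm
  generalize Real.sqrt (1 - 2 * s) = c at hc ⊢
  rw [hQ, smul_smul, mul_inv_cancel₀ hc.ne', one_smul, smul_smul]
  have e : s * 1 / (K * B.b N z) = s / c * (K * (c⁻¹ * B.b N z))⁻¹ := by
    field_simp
  rw [e]
  abel

end

end KN2b

namespace GX

variable {M : Type*} [TopologicalSpace M] [T2Space M] [FiniteDimensional ℝ W]
  {B : Form W} {K : ℝ} {G : GX M B K} {ξ : M → F}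
  {f g : W → M} {y z a : W} {r L : ℝ}

open KN2b

theorem GoodK.ne (h : GoodK W K) : K ≠ 0 := by
  rcases h with h | h
  · exact h.1.ne
  · exact h.1.ne'

theorem GoodK.dim (h : GoodK W K) : 3 ≤ finrank ℝ W := by
  rcases h with h | h
  · exact h.2
  · exact (by norm_num : 3 ≤ 4).trans h.2

/-- The walls of the germ at nearby points. -/
theorem Tools.wall_near (T : G.Tools ξ r L) (hT : G.TimeLike) (hf : G.IsSec f y) {ν : W}
    (hw : G.Wall f y ν a) : ∀ᶠ q in 𝓝 y, G.Wall f q ν a := by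
  have h0 : segment ℝ y a ⊆ Om B.b K := by
    intro p hp
    rw [segment_eq_image'] at hp
    obtain ⟨t, ht, rfl⟩ := hp
    rcases ht.2.lt_or_eq with h1 | h1
    · exact Vis_subset_Om (hw.bd.vis t ⟨ht.1, h1⟩)
    · simp only [h1, one_smul, add_sub_cancel]
      exact hw.bd.om
  have h1 : convexHull ℝ {y, y, a} ⊆ Om B.b K := by
    rw [insert_eq_of_mem (by simp : y ∈ ({y, a} : Set W)), convexHull_pair]
    exact h0
  have h2 := eventually_conv3 (isOpen_Om B.b K) h1
  have h3 : ∀ᶠ q in 𝓝 y, 0 < B.b ν (q - a) * B.b ν (y - a) := by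
    have hc : Continuous fun q : W => B.b ν (q - a) * B.b ν (y - a) := by fun_prop
    refine (hc.tendsto y).eventually (lt_mem_nhds ?_)
    exact mul_self_pos.2 hw.ne
  filter_upwards [h2, h3, (isOpen_Vis G f y).mem_nhds (base_mem_Vis hf),
    (Fm_base hf).eventually_nhds] with q e1 e2 e3 e4
  exact (T.wall_move hT hf hw e3 e1 e2).congr e4

/-- The local pieces. -/
theorem Tools.piece (T : G.Tools ξ r L) (hT : G.TimeLike) (hK : GoodK W K)
    {q : W} (hf : G.IsSec f q) (hq : OnQ B.b K q) {ν : W} (hw : G.Wall f q ν a) {s : ℝ}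
    (hs : 0 ≤ s) (hs' : s < 1 / 2) :
    ∃ N a', B.b N N = 0 ∧ ∀ᶠ q' in 𝓝 q, B.b N q' ≠ 0 ∧
      segment ℝ (Tm B K s N q') q' ⊆ G.Vis f q ∧
      G.Wall (G.Fm f q) (Tm B K s N q') N a' ∧ G.Fm f q =ᶠ[𝓝 q'] f := by
  have hK0 := GoodK.ne hK
  obtain ⟨N, a', hw', hN1, hqa, hvis⟩ := T.unblocked hT hK hf hq hw hs hs'
  have hN := hw'.null
  have hNa : B.b N a' = 0 := (mul_eq_zero.1 hw'.tan).resolve_left hK0
  have hNq : B.b N q ≠ 0 := by
    intro h
    rw [h, mul_zero] at hN1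
    exact zero_ne_one hN1
  have hQ : K * B.b q q = 1 := by
    have := hq
    unfold OnQ at this
    rwa [dl_ne hK0, add_zero] at this
  have hc : 0 < Real.sqrt (1 - 2 * s) := Real.sqrt_pos.2 (by linarith)
  have hTq : Tm B K s N q = (Real.sqrt (1 - 2 * s))⁻¹ • (q - s • N) := by
    unfold Tm
    rw [hQ, hN1, mul_one, div_one]
  have hv : Tm B K s N q ∈ G.Vis f q := by
    rw [hTq]
    exact (T.vis_smul hT hK0 hf (hvis s ⟨hs, le_refl _⟩) (inv_pos.2 hc)).1
  have hseg : segment ℝ (Tm B K s N q) q ⊆ G.Vis f q := by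
    rw [segment_symm]
    exact Vis_segment hv
  have hcont := continuousAt_Tm (s := s) hK0 hNq
  have hNT : B.b N (Tm B K s N q) = (Real.sqrt (1 - 2 * s))⁻¹ * B.b N q := KN2a.b_Tm hK0 hN
  -- the triangle q, Tq, a'
  have htri : convexHull ℝ {q, Tm B K s N q, a'} ⊆ Om B.b K := by
    intro p hp
    obtain ⟨c1, c2, c3, h1, h2, h3, h4, rfl⟩ := mem_conv3 hp
    have haa : 0 < K * B.b a' a' := by
      have := hw'.bd.om
      unfold Om at this
      simpa [dl_ne hK0] using this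
    have hTT : K * B.b (Tm B K s N q) (Tm B K s N q) = 1 := by
      rw [KN2a.q_Tm hK0 hN hs' hNq]
      exact hQ
    have haq : B.b a' q = 0 := by rw [B.symm]; exact hqa
    have haT : B.b a' (Tm B K s N q) = 0 := by
      rw [hTq]
      simp only [map_smul, map_sub, smul_eq_mul]
      rw [haq, B.symm a' N, hNa]
      ring
    have hqT : K * B.b q (Tm B K s N q) = (Real.sqrt (1 - 2 * s))⁻¹ * (1 - s) := by
      rw [hTq]
      simp only [map_smul, map_sub, smul_eq_mul]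
      rw [B.symm q N]
      linear_combination (Real.sqrt (1 - 2 * s))⁻¹ * hQ - (Real.sqrt (1 - 2 * s))⁻¹ * s * hN1
    unfold Om
    simp only [mem_ofPred_eq, dl_ne hK0, add_zero]
    have e : K * B.b (c1 • q + c2 • Tm B K s N q + c3 • a') (c1 • q + c2 • Tm B K s N q + c3 • a') =
        c1 ^ 2 + 2 * c1 * c2 * ((Real.sqrt (1 - 2 * s))⁻¹ * (1 - s)) + c2 ^ 2 +
          c3 ^ 2 * (K * B.b a' a') := by
      simp only [map_add, map_smul, add_apply, smul_apply, smul_eq_mul]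
      rw [B.symm (Tm B K s N q) q, B.symm q a', B.symm (Tm B K s N q) a', haq, haT]
      linear_combination c1 ^ 2 * hQ + c2 ^ 2 * hTT + 2 * c1 * c2 * hqT
    rw [e]
    have h5 : 0 ≤ 2 * c1 * c2 * ((Real.sqrt (1 - 2 * s))⁻¹ * (1 - s)) := by
      have : 0 ≤ (Real.sqrt (1 - 2 * s))⁻¹ * (1 - s) :=
        mul_nonneg (inv_pos.2 hc).le (by linarith)
      positivity
    rcases lt_or_eq_of_le h1 with h6 | h6
    · have : 0 < c1 ^ 2 := by positivity
      have : 0 ≤ c3 ^ 2 * (K * B.b a' a') := by positivity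
      nlinarith [sq_nonneg c2]
    · rcases lt_or_eq_of_le h2 with h7 | h7
      · have : 0 < c2 ^ 2 := by positivity
        have : 0 ≤ c3 ^ 2 * (K * B.b a' a') := by positivity
        nlinarith [sq_nonneg c1]
      · have : c3 = 1 := by rw [← h6, ← h7] at h4; linarith
        rw [this, ← h6, ← h7]
        simpa using haa
  have hpos : ∀ᶠ p in 𝓝 (Tm B K s N q), 0 < B.b N (p - a') * B.b N (q - a') := by
    have hc' : Continuous fun p : W => B.b N (p - a') * B.b N (q - a') := by fun_prop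
    refine (hc'.tendsto _).eventually (lt_mem_nhds ?_)
    simp only [map_sub, hNa, sub_zero, hNT]
    rw [mul_assoc]
    exact mul_pos (inv_pos.2 hc) (mul_self_pos.2 hNq)
  refine ⟨N, a', hN, ?_⟩
  have hcN : ∀ᶠ q' in 𝓝 q, B.b N q' ≠ 0 := by
    have hc' : Continuous fun p : W => B.b N p := by fun_prop
    exact (hc'.tendsto _).eventually (isOpen_ne.mem_nhds hNq)
  filter_upwards [hcN, eventually_segment₂ (isOpen_Vis G f q) hcont hseg,
    hcont.eventually (eventually_conv3 (isOpen_Om B.b K) htri), hcont.eventually hpos,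
    hcont.eventually ((isOpen_Vis G f q).mem_nhds hv), (Fm_base hf).eventually_nhds]
    with q' e1 e2 e3 e4 e5 e6
  exact ⟨e1, e2, T.wall_move hT hf hw' e5 e3 e4, e6⟩

/-- The multiplicity is at most two. -/
theorem Tools.mult (T : G.Tools ξ r L) (hT : G.TimeLike) (hK : GoodK W K) {s : ℝ}
    (hs' : s < 1 / 2) {x : M} {g : Fin 3 → W → M} {q N a : Fin 3 → W}
    (hQ : ∀ j, OnQ B.b K (q j)) (hN : ∀ j, B.b (N j) (N j) = 0) (hNq : ∀ j, B.b (N j) (q j) ≠ 0)
    (hseg : ∀ j, ∀ p ∈ segment ℝ (Tm B K s (N j) (q j)) (q j), G.IsSec (g j) p)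
    (hw : ∀ j, G.Wall (g j) (Tm B K s (N j) (q j)) (N j) (a j))
    (hx : ∀ j, g j (Tm B K s (N j) (q j)) = x) :
    ∃ i j, i ≠ j ∧ g i (q i) = g j (q j) := by
  have hK0 := GoodK.ne hK
  obtain ⟨φ, ψ, hch⟩ := G.exists_chart x
  have hc : 0 < Real.sqrt (1 - 2 * s) := Real.sqrt_pos.2 (by linarith)
  set p : Fin 3 → W := fun j => Tm B K s (N j) (q j) with hp
  have hpQ : ∀ j, OnQ B.b K (p j) := fun j => onQ_Tm hK0 (hN j) hs' (hNq j) (hQ j)
  have hNp : ∀ j, K * B.b (N j) (p j) ≠ 0 := by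
    intro j
    have : B.b (N j) (p j) = _ := KN2a.b_Tm (s := s) (z := q j) hK0 (hN j)
    rw [this]
    exact mul_ne_zero hK0 (mul_ne_zero (inv_ne_zero hc.ne') (hNq j))
  have hsec : ∀ j, G.IsSec (g j) (p j) := fun j => hseg j _ (left_mem_segment ℝ _ _)
  have hA : ∀ j, ∃ A : Iso B.b K, φ x = A.act (p j) ∧
      g j =ᶠ[𝓝 (p j)] fun z' => ψ (nrm B.b K (A.act z')) := by
    intro j
    obtain ⟨A, h1, h2⟩ := (hsec j).eq_chart (φ := φ) (ψ := ψ) (by rw [hx j]; exact hch)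
    refine ⟨A, ?_, h2⟩
    rw [hx j, nrm_onQ (hpQ j)] at h1
    exact h1
  choose A hA1 hA2 using hA
  have hgerm : ∀ j, (g j ∘ (A j).inv) =ᶠ[𝓝 (φ x)] ψ := by
    intro j
    have t1 : Tendsto (A j).inv (𝓝 (φ x)) (𝓝 (p j)) := by
      have := (A j).continuous_inv.tendsto ((A j).act (p j))
      rw [(A j).inv_act] at this
      rw [hA1 j]
      exact this
    filter_upwards [t1.eventually (hA2 j), G.right_inv hch] with w h1 h2
    simp only [Function.comp_apply]
    rw [h1, (A j).act_inv, h2.2]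
  set ν : Fin 3 → W := fun j => (K * B.b (N j) (p j))⁻¹ • N j with hν
  have hwall : ∀ j, G.Wall ψ (φ x) ((A j).L (ν j)) ((A j).act (a j)) := by
    intro j
    have h1 := ((hw j).smul (inv_ne_zero (hNp j))).act (A j)
    have h2 : (A j).act (Tm B K s (N j) (q j)) = φ x := (hA1 j).symm
    rw [h2] at h1
    exact h1.congr (hgerm j)
  have hact : ∀ j w, (A j).act w = (A j).L w := by
    intro j w
    unfold Iso.act
    rw [(A j).a_eq_zero hK0, add_zero]
  have hnorm : ∀ j, K * B.b ((A j).L (ν j)) (φ x) = 1 := by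
    intro j
    rw [hA1 j, hact j, (A j).isom, hν]
    simp only [map_smul, smul_apply, smul_eq_mul]
    rw [mul_left_comm]
    exact inv_mul_cancel₀ (hNp j)
  obtain ⟨i, j, hij, he⟩ := T.walls_le_two hT hK (isSec_chart hch) (G.onQ hch) hwall hnorm
  refine ⟨i, j, hij, ?_⟩
  have hqj : ∀ j, (A j).act (q j) = Real.sqrt (1 - 2 * s) • φ x +
      (s / Real.sqrt (1 - 2 * s)) • (A j).L (ν j) := by
    intro j
    have h1 := Tm_back (s := s) hK0 (hN j) hs' (hNq j) (hQ j)
    have h2 : q j = Real.sqrt (1 - 2 * s) • p j + (s / Real.sqrt (1 - 2 * s)) • ν j := h1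
    rw [h2, hact j, map_add, map_smul, map_smul, ← hact j (p j), ← hA1 j]
  have hQeq : (A i).act (q i) = (A j).act (q j) := by rw [hqj i, hqj j, he]
  have hsecs : ∀ j, ∀ w ∈ segment ℝ (φ x) ((A j).act (q j)), G.IsSec (g j ∘ (A j).inv) w := by
    intro j w hw
    rw [hA1 j, ← act_segment] at hw
    obtain ⟨w', hw', rfl⟩ := hw
    exact (hseg j w' hw').act (A j)
  have huniq := IsSec.uniq (G := G) (convex_segment (φ x) ((A i).act (q i))).isPreconnected
    (hsecs i) (by rw [hQeq]; exact hsecs j) (left_mem_segment ℝ _ _)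
    ((hgerm i).trans (hgerm j).symm) _ (right_mem_segment ℝ _ _)
  have := huniq.self_of_nhds
  simp only [Function.comp_apply, (A i).inv_act] at this
  rw [this, hQeq, (A j).inv_act]

theorem Tools.volume_bound [CompactSpace M] [MeasurableSpace W] [BorelSpace W] (μ : Measure W)
    [μ.IsAddHaarMeasure] (T : G.Tools ξ r L) (hT : G.TimeLike) (hK : GoodK W K)
    (hf : G.IsSec f y) (hy : OnQ B.b K y) {ν : W} (hw : G.Wall f y ν a) :
    ∃ (K₀ : Set W) (C : ℝ≥0∞), C ≠ ∞ ∧ K₀ ∈ 𝓝 y ∧ ∀ s : ℝ, 0 ≤ s → s < 1 / 2 →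
      ENNReal.ofReal ((1 - 2 * s) ^ (-(((finrank ℝ W : ℝ) - 2) / 2))) * μ K₀ ≤ C := by
  classical
  have : ProperSpace W := FiniteDimensional.proper ℝ W
  have hK0 := GoodK.ne hK
  obtain ⟨C, hC, hVL⟩ := vol_lemma (G := G) μ 2
  obtain ⟨hyO, φ₀, ψ₀, hch, hφy, hfy⟩ := id hf
  have hny : nrm B.b K y = y := nrm_onQ hy
  have tn : Tendsto (nrm B.b K) (𝓝 y) (𝓝 y) := by
    have := continuousAt_nrm (b := B.b) (K := K) hyO
    unfold ContinuousAt at this
    rwa [hny] at this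
  have hinj : ∀ᶠ q in 𝓝 y, OnQ B.b K q → φ₀ (f q) = q := by
    have t1 : Tendsto (nrm B.b K) (𝓝 y) (𝓝 (φ₀ (f y))) := by
      rw [hφy, hny]; exact tn
    filter_upwards [hfy, t1.eventually (G.right_inv hch)] with q h1 h2 h3
    rw [h1, h2.1, nrm_onQ h3, nrm_onQ h3]
  have hgood : ∀ᶠ z in 𝓝 y, (G.IsSec f (nrm B.b K z) ∧ G.Wall f (nrm B.b K z) ν a ∧
      (OnQ B.b K (nrm B.b K z) → φ₀ (f (nrm B.b K z)) = nrm B.b K z)) ∧ z ∈ Om B.b K ∧
      nf B.b K z ≤ 2 := by
    have h1 : ∀ᶠ z in 𝓝 y, nf B.b K z ≤ 2 := by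
      have hc := continuousAt_nf (b := B.b) (K := K) (z := y)
      have h2 : nf B.b K y < 2 := by rw [nf_onQ hy]; norm_num
      exact (hc.eventually (gt_mem_nhds h2)).mono fun z hz => hz.le
    filter_upwards [tn.eventually hf.eventually, tn.eventually (T.wall_near hT hf hw),
      tn.eventually hinj, (isOpen_Om B.b K).mem_nhds hyO, h1] with z e1 e2 e3 e4 e5
    exact ⟨⟨e1, e2, e3⟩, e4, e5⟩
  obtain ⟨r₀, hr₀, hball⟩ := Metric.nhds_basis_closedBall.mem_iff.1 hgood
  set K₀ := Metric.closedBall y r₀ with hK₀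
  refine ⟨K₀, C, hC, Metric.closedBall_mem_nhds y hr₀, fun s hs hs' => ?_⟩
  have hpiece : ∀ z ∈ K₀, ∃ N a', B.b N N = 0 ∧ ∀ᶠ q' in 𝓝 (nrm B.b K z), B.b N q' ≠ 0 ∧
      segment ℝ (Tm B K s N q') q' ⊆ G.Vis f (nrm B.b K z) ∧
      G.Wall (G.Fm f (nrm B.b K z)) (Tm B K s N q') N a' ∧
      G.Fm f (nrm B.b K z) =ᶠ[𝓝 q'] f := by
    intro z hz
    obtain ⟨⟨h1, h2, h3⟩, h4, h5⟩ := hball hz
    exact T.piece hT hK h1 (onQ_nrm h4) h2 hs hs'
  choose! N a' hN hev using hpiece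
  set P : W → W → Prop := fun z z' => B.b (N z) (nrm B.b K z') ≠ 0 ∧
      segment ℝ (Tm B K s (N z) (nrm B.b K z')) (nrm B.b K z') ⊆ G.Vis f (nrm B.b K z) ∧
      G.Wall (G.Fm f (nrm B.b K z)) (Tm B K s (N z) (nrm B.b K z')) (N z) (a' z) ∧
      G.Fm f (nrm B.b K z) =ᶠ[𝓝 (nrm B.b K z')] f with hP
  set U : W → Set W := fun z => interior {z' | P z z'} with hU
  have hUn : ∀ z ∈ K₀, U z ∈ 𝓝 z := by
    intro z hz
    refine interior_mem_nhds.2 ?_
    exact (continuousAt_nrm (b := B.b) (K := K) (hball hz).2.1).eventually (hev z hz)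
  obtain ⟨t, ht, hcov⟩ := (isCompact_closedBall y r₀).elim_nhds_subcover U hUn
  set e : Fin t.card ≃ t := t.equivFin.symm with he
  set c : Fin t.card → W := fun i => (e i : W) with hc
  have hcK : ∀ i, c i ∈ K₀ := fun i => ht _ (e i).2
  set D : Fin t.card → Set W := fun i => {z | z ∈ K₀ ∧ z ∈ U (c i) ∧ ∀ j < i, z ∉ U (c j)}
    with hD
  have hDmeas : ∀ i, MeasurableSet (D i) := by
    intro i
    have h1 : D i = K₀ ∩ (U (c i) ∩ ⋂ j : Fin t.card, ⋂ (_ : j < i), (U (c j))ᶜ) := by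
      ext z
      simp only [hD, mem_ofPred_eq, mem_inter_iff, mem_iInter, mem_compl_iff]
    rw [h1]
    refine Metric.isClosed_closedBall.measurableSet.inter
      (isOpen_interior.measurableSet.inter ?_)
    exact MeasurableSet.iInter fun j => MeasurableSet.iInter fun _ =>
      isOpen_interior.measurableSet.compl
  have hDdisj : Pairwise (Function.onFun Disjoint D) := by
    have key : ∀ i j, i < j → Disjoint (D i) (D j) := by
      intro i j hij
      rw [Set.disjoint_left]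
      intro z hz hz'
      exact hz'.2.2 i hij hz.2.1
    intro i j hij
    rcases lt_or_gt_of_ne hij with h | h
    · exact key i j h
    · exact (key j i h).symm
  have hDunion : (⋃ i, D i) = K₀ := by
    apply Subset.antisymm
    · intro z hz
      obtain ⟨i, hi⟩ := mem_iUnion.1 hz
      exact hi.1
    · intro z hz
      have h1 := hcov hz
      simp only [mem_iUnion] at h1
      obtain ⟨w, hwt, hzw⟩ := h1
      have hne : {i : Fin t.card | z ∈ U (c i)}.Nonempty := by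
        refine ⟨e.symm ⟨w, hwt⟩, ?_⟩
        simp only [mem_ofPred_eq, hc, Equiv.apply_symm_apply]
        exact hzw
      obtain ⟨i, hi, hmin⟩ := wellFounded_lt.has_min _ hne
      exact mem_iUnion.2 ⟨i, hz, hi, fun j hj hj' => hmin j hj' hj⟩
  have hsum : ∑ i, μ (D i) = μ K₀ := by
    rw [← hDunion, measure_iUnion hDdisj hDmeas, tsum_fintype]
  have hPD : ∀ i, ∀ z ∈ D i, P (c i) z := fun i z hz =>
    interior_subset (s := {z' | P (c i) z'}) hz.2.1
  have hnfz : ∀ i, ∀ z ∈ D i, 0 < nf B.b K z := fun i z hz => nf_pos (hball hz.1).2.1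
  have hzq : ∀ i, ∀ z ∈ D i, nf B.b K z • nrm B.b K z = z := by
    intro i z hz
    unfold nrm
    rw [smul_smul, mul_inv_cancel₀ (hnfz i z hz).ne', one_smul]
  have hNz : ∀ i, ∀ z ∈ D i, B.b (N (c i)) z ≠ 0 := by
    intro i z hz h0
    apply (hPD i z hz).1
    unfold nrm
    rw [map_smul, smul_eq_mul, h0, mul_zero]
  have hTm : ∀ i, ∀ z ∈ D i, Tm B K s (N (c i)) z =
      nf B.b K z • Tm B K s (N (c i)) (nrm B.b K z) := by
    intro i z hz
    rw [← Tm_smul hK0 (hnfz i z hz).ne', hzq i z hz]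
  have hvis : ∀ i, ∀ z ∈ D i, Tm B K s (N (c i)) z ∈ G.Vis f (nrm B.b K (c i)) ∧
      G.Fm f (nrm B.b K (c i)) (Tm B K s (N (c i)) z) =
        G.Fm f (nrm B.b K (c i)) (Tm B K s (N (c i)) (nrm B.b K z)) := by
    intro i z hz
    rw [hTm i z hz]
    exact T.vis_smul hT hK0 (hball (hcK i)).1.1
      ((hPD i z hz).2.1 (left_mem_segment ℝ _ _)) (hnfz i z hz)
  have hnfT : ∀ i, ∀ z ∈ D i, nf B.b K (Tm B K s (N (c i)) z) = nf B.b K z := fun i z hz =>
    nf_Tm hK0 (hN _ (hcK i)) hs' (hNz i z hz)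
  have hvol := hVL (Fin t.card) (fun i => G.Fm f (nrm B.b K (c i)))
    (fun i => Tm B K s (N (c i)) '' D i)
    (fun i => (measure_Tm μ B hK0 (hN _ (hcK i)) hs hs' (hDmeas i) (hNz i)).1) ?_ ?_
  · have h1 : ∑ i, μ (Tm B K s (N (c i)) '' D i) =
        ENNReal.ofReal ((1 - 2 * s) ^ (-(((finrank ℝ W : ℝ) - 2) / 2))) * μ K₀ := by
      rw [← hsum, Finset.mul_sum]
      exact Finset.sum_congr rfl fun i _ =>
        (measure_Tm μ B hK0 (hN _ (hcK i)) hs hs' (hDmeas i) (hNz i)).2.2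
    rw [← h1]
    exact hvol
  · rintro i _ ⟨z, hz, rfl⟩
    refine ⟨Fm_isSec (hvis i z hz).1, ?_⟩
    rw [hnfT i z hz]
    exact (hball hz.1).2.2
  · intro x ρ S hS
    by_contra hlt
    rw [not_le, Finset.two_lt_card] at hlt
    obtain ⟨a₁, ha₁, a₂, ha₂, a₃, ha₃, h12, h13, h23⟩ := hlt
    set p : Fin 3 → Fin t.card × W := ![a₁, a₂, a₃] with hp
    have hpS : ∀ j, p j ∈ S := mem3 ha₁ ha₂ ha₃
    have hpinj : Function.Injective p := inj3 h12 h13 h23
    have hex : ∀ j, ∃ z ∈ D (p j).1, Tm B K s (N (c (p j).1)) z = (p j).2 := by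
      intro j
      exact (hS (p j) (hpS j)).1
    choose zz hzD hzT using hex
    have hfx : ∀ j, G.Fm f (nrm B.b K (c (p j).1)) (p j).2 = x := fun j =>
      (hS (p j) (hpS j)).2.1
    have hρ : ∀ j, nf B.b K (zz j) = ρ := by
      intro j
      rw [← hnfT _ _ (hzD j), hzT j]
      exact (hS (p j) (hpS j)).2.2
    obtain ⟨i, j, hij, heq⟩ := T.mult hT hK hs' (x := x)
      (g := fun j => G.Fm f (nrm B.b K (c (p j).1))) (q := fun j => nrm B.b K (zz j))
      (N := fun j => N (c (p j).1)) (a := fun j => a' (c (p j).1))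
      (fun j => onQ_nrm (hball (hzD j).1).2.1) (fun j => hN _ (hcK _))
      (fun j => (hPD _ _ (hzD j)).1)
      (fun j w hw' => Fm_isSec ((hPD _ _ (hzD j)).2.1 hw'))
      (fun j => (hPD _ _ (hzD j)).2.2.1)
      (fun j => by rw [← (hvis _ _ (hzD j)).2, hzT j]; exact hfx j)
    have hval : ∀ j, G.Fm f (nrm B.b K (c (p j).1)) (nrm B.b K (zz j)) = f (nrm B.b K (zz j)) :=
      fun j => (hPD _ _ (hzD j)).2.2.2.self_of_nhds
    rw [hval i, hval j] at heq
    have hback : ∀ j, φ₀ (f (nrm B.b K (zz j))) = nrm B.b K (zz j) := fun j =>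
      (hball (hzD j).1).1.2.2 (onQ_nrm (hball (hzD j).1).2.1)
    have hqq : nrm B.b K (zz i) = nrm B.b K (zz j) := by
      rw [← hback i, ← hback j, heq]
    have hzz : zz i = zz j := by
      rw [← hzq _ _ (hzD i), ← hzq _ _ (hzD j), hqq, hρ i, hρ j]
    have hidx : (p i).1 = (p j).1 := by
      by_contra hne
      have h1 := hDdisj hne
      exact Set.disjoint_left.1 h1 (hzD i) (by rw [hzz]; exact hzD j)
    apply hij
    apply hpinj
    apply Prod.ext hidx
    rw [← hzT i, ← hzT j, hzz, hidx]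

theorem Tools.no_wall [CompactSpace M] (T : G.Tools ξ r L) (hT : G.TimeLike)
    (hK : GoodK W K) (hf : G.IsSec f y) (hy : OnQ B.b K y) {ν : W} :
    ¬ G.Wall f y ν a := by
  intro hw
  have : ProperSpace W := FiniteDimensional.proper ℝ W
  let : MeasurableSpace W := borel W
  have : BorelSpace W := ⟨rfl⟩
  obtain ⟨K₀, C, hC, hKn, hb⟩ := T.volume_bound (Measure.addHaar : Measure W) hT hK hf hy hw
  have hdim : (3 : ℝ) ≤ finrank ℝ W := by exact_mod_cast GoodK.dim hK
  set d : ℝ := ((finrank ℝ W : ℝ) - 2) / 2 with hd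
  have hd0 : 0 < d := by rw [hd]; linarith
  have hμ : (Measure.addHaar : Measure W) K₀ ≠ 0 := (Measure.measure_pos_of_mem_nhds _ hKn).ne'
  have hfin : C / (Measure.addHaar : Measure W) K₀ ≠ ∞ := ENNReal.div_ne_top hC hμ
  set c : ℝ := (C / (Measure.addHaar : Measure W) K₀).toReal + 1 with hc
  have hc1 : 1 ≤ c := by
    have : 0 ≤ (C / (Measure.addHaar : Measure W) K₀).toReal := ENNReal.toReal_nonneg
    linarith
  have hc0 : 0 < c := by linarith
  have hlt : C / (Measure.addHaar : Measure W) K₀ < ENNReal.ofReal c := by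
    rw [← ENNReal.ofReal_toReal hfin]
    exact (ENNReal.ofReal_lt_ofReal_iff hc0).2 (by linarith)
  have hx0 : 0 < c ^ (-(1 / d)) := Real.rpow_pos_of_pos hc0 _
  have hx1 : c ^ (-(1 / d)) ≤ 1 := by
    apply Real.rpow_le_one_of_one_le_of_nonpos hc1
    have : 0 < 1 / d := by positivity
    linarith
  have h1 := hb ((1 - c ^ (-(1 / d))) / 2) (by linarith) (by linarith)
  have h2 : (1 - 2 * ((1 - c ^ (-(1 / d))) / 2)) = c ^ (-(1 / d)) := by ring
  rw [h2, ← Real.rpow_mul hc0.le] at h1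
  have h3 : -(1 / d) * -d = 1 := by field_simp
  rw [h3, Real.rpow_one] at h1
  have h4 : C < ENNReal.ofReal c * (Measure.addHaar : Measure W) K₀ := by
    by_cases htop : (Measure.addHaar : Measure W) K₀ = ∞
    · rw [htop, ENNReal.mul_top (by simpa using hc0)]
      exact lt_of_le_of_ne le_top hC
    · rwa [ENNReal.div_lt_iff (Or.inl hμ) (Or.inl htop)] at hlt
  exact absurd h1 (not_le.2 h4)

end GX

end Pool.H1.Lor
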