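import Pool.Agent.H1.CK.Defs

/-! # Sections and visible sets: basic facts (helper1) -/

namespace Pool.H1.Lor

open Filter Topology Set

variable {W : Type*} [NormedAddCommGroup W] [NormedSpace ℝ W]
  {F : Type*} [NormedAddCommGroup F] [InnerProductSpace ℝ F]

theorem isOpen_Om (b : W →L[ℝ] W →L[ℝ] ℝ) (K : ℝ) : IsOpen (Om b K) :=
  isOpen_lt continuous_const continuous_form

theorem Om_zero (b : W →L[ℝ] W →L[ℝ] ℝ) : Om b 0 = univ := by
  ext z; simp [Om, dl_zero]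

theorem smul_mem_Om {b : W →L[ℝ] W →L[ℝ] ℝ} {K : ℝ} (hK : K ≠ 0) {z : W} {c : ℝ} (hc : 0 < c)
    (hz : z ∈ Om b K) : c • z ∈ Om b K := by
  unfold Om at hz ⊢
  simp only [mem_ofPred_eq, dl_ne hK, add_zero, map_smul, smul_apply, smul_eq_mul] at hz ⊢
  have : K * (c * (c * b z z)) = c ^ 2 * (K * b z z) := by ring
  rw [this]; positivity

theorem nrm_nrm {b : W →L[ℝ] W →L[ℝ] ℝ} {K : ℝ} {z : W} (hz : 0 < K * b z z + dl K) :
    nrm b K (nrm b K z) = nrm b K z := nrm_onQ (onQ_nrm hz)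

theorem onQ_mem_Om {b : W →L[ℝ] W →L[ℝ] ℝ} {K : ℝ} {y : W} (hy : OnQ b K y) : y ∈ Om b K :=
  hy.pos

theorem Iso.act_mem_Om {b : W →L[ℝ] W →L[ℝ] ℝ} {K : ℝ} (A : Iso b K) {z : W}
    (hz : z ∈ Om b K) : A.act z ∈ Om b K := by
  unfold Om at hz ⊢
  rw [mem_ofPred_eq, A.Kb_act]; exact hz

theorem Iso.inv_mem_Om {b : W →L[ℝ] W →L[ℝ] ℝ} {K : ℝ} (A : Iso b K) {z : W}
    (hz : z ∈ Om b K) : A.inv z ∈ Om b K := by
  unfold Om at hz ⊢
  rw [mem_ofPred_eq, A.Kb_inv]; exact hz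

theorem Iso.act_add_smul {b : W →L[ℝ] W →L[ℝ] ℝ} {K : ℝ} (A : Iso b K) (y z : W) (t : ℝ) :
    A.act (y + t • (z - y)) = A.act y + t • (A.act z - A.act y) := by
  unfold Iso.act
  simp only [map_add, map_smul, map_sub, smul_sub, smul_add]
  abel

theorem Iso.act_sub {b : W →L[ℝ] W →L[ℝ] ℝ} {K : ℝ} (A : Iso b K) (y z : W) :
    A.act z - A.act y = A.L (z - y) := by
  unfold Iso.act
  simp only [map_sub]
  abel

theorem Iso.id_of_eventually {b : W →L[ℝ] W →L[ℝ] ℝ} {K : ℝ} (A : Iso b K) {p : W}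
    (h : ∀ᶠ z in 𝓝 p, A.act z = z) (z : W) : A.act z = z := by
  have hp : A.act p = p := h.self_of_nhds
  -- take a point p + ε (z - p)
  have h1 : Tendsto (fun ε : ℝ => p + ε • (z - p)) (𝓝 0) (𝓝 p) := by
    have : Continuous fun ε : ℝ => p + ε • (z - p) := by fun_prop
    simpa using this.tendsto 0
  obtain ⟨ε, h2, h3⟩ := ((h1.eventually h).filter_mono nhdsWithin_le_nhds |>.and
    (self_mem_nhdsWithin : ∀ᶠ ε : ℝ in 𝓝[>] 0, ε ∈ Ioi (0 : ℝ))).exists
  have h3' : (0 : ℝ) < ε := h3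
  rw [A.act_add_smul, hp] at h2
  have h4 : ε • (A.act z - p) = ε • (z - p) := add_left_cancel h2
  have h5 := smul_right_injective W h3'.ne' h4
  simpa using h5

theorem Iso.id_of_nrm {b : W →L[ℝ] W →L[ℝ] ℝ} {K : ℝ} (A : Iso b K) {p : W} (hp : p ∈ Om b K)
    (h : ∀ᶠ z in 𝓝 p, A.act (nrm b K z) = nrm b K z) (z : W) : A.act z = z := by
  refine A.id_of_eventually (p := p) ?_ z
  by_cases hK : K = 0
  · subst hK
    simpa [nrm_zero] using h
  · filter_upwards [h, (isOpen_Om b K).mem_nhds hp] with z hz hz'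
    have h1 : nf b K z ≠ 0 := (nf_pos hz').ne'
    have h2 : z = nf b K z • nrm b K z := by
      unfold nrm; rw [smul_smul, mul_inv_cancel₀ h1, one_smul]
    have h3 : A.act z = nf b K z • A.act (nrm b K z) := by
      conv_lhs => rw [h2]
      unfold Iso.act
      rw [A.a_eq_zero hK, add_zero, add_zero, map_smul]
    rw [h3, hz, ← h2]

namespace GX

variable {M : Type*} [TopologicalSpace M] {B : Form W} {K : ℝ} {G : GX M B K} {ξ : M → F}
  {f g : W → M} {y z a : W}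

theorem IsSec.congr (h : G.IsSec f z) (hg : g =ᶠ[𝓝 z] f) : G.IsSec g z := by
  obtain ⟨h1, φ, ψ, h2, h3, h4⟩ := h
  have e : g z = f z := hg.self_of_nhds
  exact ⟨h1, φ, ψ, by rwa [e], by rwa [e], hg.trans h4⟩

theorem IsSec.eventually (h : G.IsSec f z) : ∀ᶠ z' in 𝓝 z, G.IsSec f z' := by
  obtain ⟨h1, φ, ψ, h2, h3, h4⟩ := h
  have t1 : Tendsto (nrm B.b K) (𝓝 z) (𝓝 (φ (f z))) := by
    rw [h3]; exact continuousAt_nrm h1
  filter_upwards [h4.eventually_nhds, t1.eventually (G.eventually_good h2),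
    (isOpen_Om B.b K).mem_nhds h1] with z' e1 e2 e3
  have e4 : f z' = ψ (nrm B.b K z') := e1.self_of_nhds
  refine ⟨e3, φ, ψ, ?_, ?_, e1⟩
  · rw [e4]; exact e2.1
  · rw [e4, e2.2.1, nrm_nrm e3]

theorem IsSec.continuousAt (h : G.IsSec f z) : ContinuousAt f z := by
  obtain ⟨h1, φ, ψ, h2, h3, h4⟩ := h
  have c1 : ContinuousAt ψ (nrm B.b K z) := by rw [← h3]; exact G.cont_inv h2
  have c2 : ContinuousAt (fun z' => ψ (nrm B.b K z')) z :=
    ContinuousAt.comp (g := ψ) c1 (continuousAt_nrm h1)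
  exact c2.congr h4.symm

theorem isSec_chart {x : M} {φ : M → W} {ψ : W → M} (h : G.chart x φ ψ) :
    G.IsSec ψ (φ x) := by
  refine ⟨(G.onQ h).pos, φ, ψ, ?_, ?_, ?_⟩
  · rw [G.left_inv h]; exact h
  · rw [G.left_inv h, nrm_onQ (G.onQ h)]
  · filter_upwards [G.right_inv h] with z hz using hz.2.symm

/-- A section in terms of any chart at its value. -/
theorem IsSec.eq_chart (h : G.IsSec f z) {φ : M → W} {ψ : W → M} (h' : G.chart (f z) φ ψ) :
    ∃ A : Iso B.b K, φ (f z) = A.act (nrm B.b K z) ∧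
      f =ᶠ[𝓝 z] (fun z' => ψ (nrm B.b K (A.act z'))) := by
  obtain ⟨h1, φ₀, ψ₀, h2, h3, h4⟩ := h
  obtain ⟨A, hA⟩ := G.rigid h2 h'
  have e : φ (f z) = A.act (nrm B.b K z) := by rw [hA.self_of_nhds, h3]
  refine ⟨A, e, ?_⟩
  have t1 : Tendsto (fun z' => nrm B.b K (A.act z')) (𝓝 z) (𝓝 (φ (f z))) := by
    have c : ContinuousAt (fun z' => A.act (nrm B.b K z')) z :=
      ContinuousAt.comp (g := A.act) A.continuous_act.continuousAt (continuousAt_nrm h1)
    rw [e]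
    have e2 : (fun z' => nrm B.b K (A.act z')) = fun z' => A.act (nrm B.b K z') := by
      funext z'; exact A.nrm_act z'
    rw [e2]
    exact c
  filter_upwards [h4, t1.eventually (G.inv_trans h2 h' hA)] with z' e1 e2
  rw [e1, e2, A.nrm_act, A.inv_act]

/-- Sections are constant along rays. -/
theorem IsSec.smul (hK : K ≠ 0) (h : G.IsSec f z) : ∃ g : W → M, g =ᶠ[𝓝 z] f ∧
    ∀ c : ℝ, 0 < c → G.IsSec g (c • z) ∧ g (c • z) = f z := by
  obtain ⟨h1, φ, ψ, h2, h3, h4⟩ := h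
  refine ⟨fun z' => ψ (nrm B.b K z'), h4.symm, fun c hc => ?_⟩
  have e1 : ψ (nrm B.b K (c • z)) = f z := by
    rw [nrm_smul hK hc, ← h3, G.left_inv h2]
  refine ⟨⟨smul_mem_Om hK hc h1, φ, ψ, ?_, ?_, EventuallyEq.rfl⟩, e1⟩
  · show G.chart (ψ (nrm B.b K (c • z))) φ ψ
    rw [e1]; exact h2
  · show φ (ψ (nrm B.b K (c • z))) = _
    rw [e1, h3, nrm_smul hK hc]

theorem IsSec.act (h : G.IsSec f z) (A : Iso B.b K) : G.IsSec (f ∘ A.inv) (A.act z) := by
  obtain ⟨h1, φ, ψ, h2, h3, h4⟩ := h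
  have e : (f ∘ A.inv) (A.act z) = f z := by simp
  refine ⟨A.act_mem_Om h1, A.act ∘ φ, ψ ∘ A.inv, ?_, ?_, ?_⟩
  · rw [e]; exact G.comp h2 A
  · rw [e, Function.comp_apply, h3, A.nrm_act]
  · have t1 : Tendsto A.inv (𝓝 (A.act z)) (𝓝 z) := by
      have := A.continuous_inv.tendsto (A.act z)
      rwa [A.inv_act] at this
    filter_upwards [t1.eventually h4] with z' hz'
    simp only [Function.comp_apply]
    rw [hz', A.nrm_inv]

theorem IsSec.act_iff (A : Iso B.b K) : G.IsSec (f ∘ A.inv) (A.act z) ↔ G.IsSec f z := by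
  refine ⟨fun h => ?_, fun h => h.act A⟩
  have h1 := h.act A.symm
  rw [A.symm_act, A.inv_act] at h1
  have e : (f ∘ A.inv) ∘ A.symm.inv = f := by
    funext z'; simp [A.symm_inv]
  rwa [e] at h1

/-- Uniqueness of sections. -/
theorem IsSec.uniq [T2Space M] {S : Set W} (hS : IsPreconnected S) (hf : ∀ p ∈ S, G.IsSec f p)
    (hg : ∀ p ∈ S, G.IsSec g p) (hz : z ∈ S) (h : f =ᶠ[𝓝 z] g) : ∀ p ∈ S, f =ᶠ[𝓝 p] g := by
  set U : Set W := {p | f =ᶠ[𝓝 p] g} with hU
  have hUo : IsOpen U := by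
    rw [isOpen_iff_mem_nhds]
    intro p hp
    exact eventually_eventually_nhds.2 hp
  have hcl : closure U ∩ S ⊆ U := by
    rintro p ⟨hp, hpS⟩
    have hfr : ∃ᶠ p' in 𝓝 p, p' ∈ U := mem_closure_iff_frequently.1 hp
    have hfp := hf p hpS
    have hgp := hg p hpS
    have heq : f p = g p := tendsto_nhds_unique_of_frequently_eq hfp.continuousAt
      hgp.continuousAt (hfr.mono fun x hx => hx.self_of_nhds)
    obtain ⟨h1, φ, ψ, h2, h3, h4⟩ := hfp
    obtain ⟨A, hA1, hA2⟩ := hgp.eq_chart (φ := φ) (ψ := ψ) (by rw [← heq]; exact h2)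
    have t1 : Tendsto (nrm B.b K) (𝓝 p) (𝓝 (φ (f p))) := by
      rw [h3]; exact continuousAt_nrm h1
    have t2 : Tendsto (fun z' => nrm B.b K (A.act z')) (𝓝 p) (𝓝 (φ (f p))) := by
      have c : ContinuousAt (fun z' => A.act (nrm B.b K z')) p :=
        ContinuousAt.comp (g := A.act) A.continuous_act.continuousAt (continuousAt_nrm h1)
      rw [heq, hA1]
      have e2 : (fun z' => nrm B.b K (A.act z')) = fun z' => A.act (nrm B.b K z') := by
        funext z'; exact A.nrm_act z'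
      rw [e2]
      exact c
    have ev : ∀ᶠ p' in 𝓝 p, f p' = ψ (nrm B.b K p') ∧ g p' = ψ (nrm B.b K (A.act p')) ∧
        φ (ψ (nrm B.b K p')) = nrm B.b K (nrm B.b K p') ∧
        φ (ψ (nrm B.b K (A.act p'))) = nrm B.b K (nrm B.b K (A.act p')) ∧ p' ∈ Om B.b K := by
      filter_upwards [h4, hA2, t1.eventually (G.eventually_good h2),
        t2.eventually (G.eventually_good h2), (isOpen_Om B.b K).mem_nhds h1] with p' e1 e2 e3 e4 e5
      exact ⟨e1, e2, e3.2.1, e4.2.1, e5⟩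
    obtain ⟨p', hp'U, hp'⟩ := (hfr.and_eventually ev.eventually_nhds).exists
    have hfix : ∀ᶠ z' in 𝓝 p', A.act (nrm B.b K z') = nrm B.b K z' := by
      filter_upwards [hp'U, hp'] with z' e0 e1
      obtain ⟨e1, e2, e3, e4, e5⟩ := e1
      rw [← e1, e0, e2, e4, nrm_nrm e5, nrm_nrm (A.act_mem_Om e5), A.nrm_act] at e3
      exact e3
    have hid := A.id_of_nrm hp'.self_of_nhds.2.2.2.2 hfix
    show f =ᶠ[𝓝 p] g
    filter_upwards [h4, hA2] with z' e1 e2
    rw [e1, e2, hid]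
  exact hS.subset_of_closure_inter_subset hUo ⟨z, hz, h⟩ hcl

theorem isOpen_isSec (G : GX M B K) (f : W → M) : IsOpen {p | G.IsSec f p} := by
  rw [isOpen_iff_mem_nhds]
  intro p hp
  exact IsSec.eventually hp

theorem mem_seg (y z : W) {t : ℝ} (ht : t ∈ Icc (0 : ℝ) 1) : y + t • (z - y) ∈ segment ℝ y z := by
  rw [segment_eq_image']; exact ⟨t, ht, rfl⟩

/-- Segments from `y` vary continuously. -/
theorem eventually_segment {U : Set W} (hU : IsOpen U) (h : segment ℝ y z ⊆ U) :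
    ∀ᶠ z' in 𝓝 z, segment ℝ y z' ⊆ U := by
  have h1 : ∀ t ∈ Icc (0 : ℝ) 1, ∀ᶠ p : W × ℝ in 𝓝 (z, t), y + p.2 • (p.1 - y) ∈ U := by
    intro t ht
    have c : Continuous fun p : W × ℝ => y + p.2 • (p.1 - y) := by fun_prop
    exact (c.tendsto (z, t)).eventually (hU.mem_nhds (h (mem_seg y z ht)))
  have h2 := (isCompact_Icc (a := (0 : ℝ)) (b := 1)).eventually_forall_of_forall_eventually
    (x₀ := z) (P := fun z' t => y + t • (z' - y) ∈ U) h1
  filter_upwards [h2] with z' hz'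
  rw [segment_eq_image']
  rintro _ ⟨t, ht, rfl⟩
  exact hz' t ht

theorem isOpen_Vis (G : GX M B K) (f : W → M) (y : W) : IsOpen (G.Vis f y) := by
  rw [isOpen_iff_mem_nhds]
  rintro z ⟨g, hg, h⟩
  filter_upwards [eventually_segment (isOpen_isSec G g) h] with z' hz'
  exact ⟨g, hg, hz'⟩

theorem segment_subset_segment {p : W} (hp : p ∈ segment ℝ y z) :
    segment ℝ y p ⊆ segment ℝ y z :=
  (convex_segment y z).segment_subset (left_mem_segment ℝ y z) hp

theorem Vis_segment (hz : z ∈ G.Vis f y) : segment ℝ y z ⊆ G.Vis f y := by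
  obtain ⟨g, hg, h⟩ := hz
  intro p hp
  exact ⟨g, hg, fun q hq => h q (segment_subset_segment hp hq)⟩

theorem Vis_subset_Om (hz : z ∈ G.Vis f y) : z ∈ Om B.b K := by
  obtain ⟨g, hg, h⟩ := hz
  exact (h z (right_mem_segment ℝ y z)).1

theorem isSec_of_mem_Vis (hz : z ∈ G.Vis f y) : G.IsSec f y := by
  obtain ⟨g, hg, h⟩ := hz
  exact (h y (left_mem_segment ℝ y z)).congr hg.symm

theorem base_mem_Vis (h : G.IsSec f y) : y ∈ G.Vis f y := by
  refine ⟨f, EventuallyEq.rfl, fun p hp => ?_⟩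
  rw [segment_same] at hp
  rw [mem_singleton_iff.1 hp]; exact h

theorem Fm_eq_val [T2Space M] (hg : g =ᶠ[𝓝 y] f) (h : ∀ p ∈ segment ℝ y z, G.IsSec g p) :
    G.Fm f y z = g z := by
  have hz : z ∈ G.Vis f y := ⟨g, hg, h⟩
  unfold Fm
  rw [dif_pos hz]
  have h1 := hz.choose_spec
  have h2 := IsSec.uniq (G := G) (convex_segment y z).isPreconnected h1.2 h
    (left_mem_segment ℝ y z) (h1.1.trans hg.symm) z (right_mem_segment ℝ y z)
  exact h2.self_of_nhds

theorem Fm_eq [T2Space M] (hg : g =ᶠ[𝓝 y] f) (h : ∀ p ∈ segment ℝ y z, G.IsSec g p) :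
    G.Fm f y =ᶠ[𝓝 z] g := by
  filter_upwards [eventually_segment (isOpen_isSec G g) h] with z' hz'
  exact Fm_eq_val hg hz'

/-- The extension of the germ is a section. -/
theorem Fm_isSec [T2Space M] (hz : z ∈ G.Vis f y) : G.IsSec (G.Fm f y) z := by
  obtain ⟨g, hg, h⟩ := hz
  exact (h z (right_mem_segment ℝ y z)).congr (Fm_eq hg h)

theorem Fm_base [T2Space M] (h : G.IsSec f y) : G.Fm f y =ᶠ[𝓝 y] f := by
  refine Fm_eq EventuallyEq.rfl fun p hp => ?_
  rw [segment_same] at hp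
  rw [mem_singleton_iff.1 hp]; exact h

theorem Vis_congr (h : f =ᶠ[𝓝 y] g) : G.Vis f y = G.Vis g y := by
  ext z
  constructor
  · rintro ⟨k, hk, h'⟩; exact ⟨k, hk.trans h, h'⟩
  · rintro ⟨k, hk, h'⟩; exact ⟨k, hk.trans h.symm, h'⟩

theorem Fm_congr [T2Space M] (h : f =ᶠ[𝓝 y] g) (hz : z ∈ G.Vis f y) :
    G.Fm f y =ᶠ[𝓝 z] G.Fm g y := by
  obtain ⟨k, hk, h'⟩ := hz
  exact (Fm_eq hk h').trans (Fm_eq (hk.trans h) h').symm

/-- Extension along a segment. -/
theorem Vis_ext [T2Space M] (hvis : ∀ t ∈ Ico (0 : ℝ) 1, y + t • (a - y) ∈ G.Vis f y) {t₀ : ℝ}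
    (ht₀ : t₀ ∈ Ico (0 : ℝ) 1) (hg : ∀ p ∈ segment ℝ (y + t₀ • (a - y)) a, G.IsSec g p)
    (h : g =ᶠ[𝓝 (y + t₀ • (a - y))] G.Fm f y) : a ∈ G.Vis f y ∧ G.Fm f y =ᶠ[𝓝 a] g := by
  classical
  have hy : y ∈ G.Vis f y := by simpa using hvis 0 (by simp)
  have hfy : G.IsSec f y := isSec_of_mem_Vis hy
  by_cases hay : a = y
  · subst hay
    refine ⟨hy, ?_⟩
    simpa using h.symm
  obtain ⟨l, hl⟩ : ∃ l : W →L[ℝ] ℝ, l (a - y) = 1 := by
    obtain ⟨l, -, hl⟩ := exists_dual_vector ℝ (a - y) (norm_ne_zero_iff.2 (sub_ne_zero.2 hay))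
    refine ⟨(‖a - y‖)⁻¹ • l, ?_⟩
    rw [smul_apply, hl]
    have : ‖a - y‖ ≠ 0 := norm_ne_zero_iff.2 (sub_ne_zero.2 hay)
    simp [this]
  set k : W → M := fun p => if l (p - y) < t₀ then G.Fm f y p else g p with hk
  have hcont : Continuous fun p : W => l (p - y) := by fun_prop
  have hlt : ∀ t : ℝ, l ((y + t • (a - y)) - y) = t := by
    intro t
    rw [add_sub_cancel_left, map_smul, hl, smul_eq_mul, mul_one]
  have k1 : ∀ t : ℝ, t < t₀ → k =ᶠ[𝓝 (y + t • (a - y))] G.Fm f y := by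
    intro t ht
    have : ∀ᶠ p in 𝓝 (y + t • (a - y)), l (p - y) < t₀ := by
      refine (hcont.tendsto _).eventually (gt_mem_nhds ?_)
      rw [hlt]; exact ht
    filter_upwards [this] with p hp
    simp only [hk, if_pos hp]
  have k2 : ∀ t : ℝ, t₀ < t → k =ᶠ[𝓝 (y + t • (a - y))] g := by
    intro t ht
    have : ∀ᶠ p in 𝓝 (y + t • (a - y)), t₀ < l (p - y) := by
      refine (hcont.tendsto _).eventually (lt_mem_nhds ?_)
      rw [hlt]; exact ht
    filter_upwards [this] with p hp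
    simp only [hk, if_neg (not_lt.2 hp.le)]
  have k3 : k =ᶠ[𝓝 (y + t₀ • (a - y))] g := by
    filter_upwards [h] with p hp
    simp only [hk]
    split_ifs
    · exact hp.symm
    · rfl
  have hsec : ∀ p ∈ segment ℝ y a, G.IsSec k p := by
    rw [segment_eq_image']
    rintro _ ⟨t, ht, rfl⟩
    show G.IsSec k (y + t • (a - y))
    rcases lt_trichotomy t t₀ with h1 | h1 | h1
    · exact (Fm_isSec (hvis t ⟨ht.1, h1.trans ht₀.2⟩)).congr (k1 t h1)
    · subst h1
      exact (hg _ (left_mem_segment ℝ _ _)).congr k3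
    · refine (hg _ ?_).congr (k2 t h1)
      have h2 : 0 < 1 - t₀ := by linarith [ht₀.2]
      rw [segment_eq_image']
      refine ⟨(t - t₀) / (1 - t₀), ⟨div_nonneg (by linarith) h2.le, ?_⟩, ?_⟩
      · rw [div_le_one h2]; linarith [ht.2]
      · have e1 : a - (y + t₀ • (a - y)) = (1 - t₀) • (a - y) := by
          rw [sub_smul, one_smul]; abel
        simp only [e1, smul_smul, div_mul_cancel₀ _ h2.ne']
        rw [sub_smul]; abel
  have hky : k =ᶠ[𝓝 y] f := by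
    rcases eq_or_lt_of_le ht₀.1 with h1 | h1
    · subst h1
      have e : y + (0 : ℝ) • (a - y) = y := by simp
      rw [e] at h k3
      exact (k3.trans h).trans (Fm_base hfy)
    · have := k1 0 h1
      rw [zero_smul, add_zero] at this
      exact this.trans (Fm_base hfy)
  refine ⟨⟨k, hky, hsec⟩, ?_⟩
  have h4 := k2 1 ht₀.2
  have e : y + (1 : ℝ) • (a - y) = a := by simp
  rw [e] at h4
  exact (Fm_eq hky hsec).trans h4

/-- The first invisible point on a segment. -/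
theorem exists_Bd (hf : G.IsSec f y) (hz : z ∉ G.Vis f y) (hs : segment ℝ y z ⊆ Om B.b K) :
    ∃ t ∈ Ioc (0 : ℝ) 1, G.Bd f y (y + t • (z - y)) := by
  set T : Set ℝ := {t | t ∈ Icc (0 : ℝ) 1 ∧ y + t • (z - y) ∉ G.Vis f y} with hT
  have hc : Continuous fun t : ℝ => y + t • (z - y) := by fun_prop
  have hTc : IsClosed T := by
    have : T = Icc 0 1 ∩ (fun t : ℝ => y + t • (z - y)) ⁻¹' (G.Vis f y)ᶜ := by
      ext t; simp [hT]
    rw [this]
    exact isClosed_Icc.inter ((isOpen_Vis G f y).isClosed_compl.preimage hc)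
  have hTb : BddBelow T := ⟨0, fun t ht => ht.1.1⟩
  have h1T : (1 : ℝ) ∈ T := by
    refine ⟨by simp, ?_⟩
    rw [one_smul, add_sub_cancel]; exact hz
  have hTn : T.Nonempty := ⟨1, h1T⟩
  have hmem : sInf T ∈ T := hTc.csInf_mem hTn hTb
  have hpos : 0 < sInf T := by
    rcases eq_or_lt_of_le hmem.1.1 with h | h
    · exfalso
      apply hmem.2
      rw [← h, zero_smul, add_zero]
      exact base_mem_Vis hf
    · exact h
  refine ⟨sInf T, ⟨hpos, hmem.1.2⟩, hs (mem_seg y z hmem.1), hmem.2, ?_⟩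
  intro t ht
  by_contra hcon
  have e : y + t • (y + sInf T • (z - y) - y) = y + (t * sInf T) • (z - y) := by
    rw [add_sub_cancel_left, smul_smul]
  rw [e] at hcon
  have h2 : t * sInf T < sInf T := by nlinarith [ht.2]
  have h3 : t * sInf T ∈ T := ⟨⟨mul_nonneg ht.1 hpos.le, h2.le.trans hmem.1.2⟩, hcon⟩
  exact absurd (csInf_le hTb h3) (not_le.2 h2)

theorem Bd.ne_base (h : G.Bd f y a) : a ≠ y := by
  intro e
  have := h.vis 0 (by simp)
  rw [zero_smul, add_zero] at this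
  exact h.nmem (by rw [e]; exact this)

theorem Bd.isSec (h : G.Bd f y a) : G.IsSec f y := by
  have := h.vis 0 (by simp)
  exact isSec_of_mem_Vis this

/-- Covariance. -/
theorem act_segment (A : Iso B.b K) (y z : W) :
    A.act '' segment ℝ y z = segment ℝ (A.act y) (A.act z) := by
  rw [segment_eq_image', segment_eq_image', image_image]
  exact image_congr fun t _ => A.act_add_smul y z t

theorem mem_Vis_act (A : Iso B.b K) (hz : z ∈ G.Vis f y) :
    A.act z ∈ G.Vis (f ∘ A.inv) (A.act y) := by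
  obtain ⟨g, hg, h⟩ := hz
  refine ⟨g ∘ A.inv, ?_, ?_⟩
  · have t1 : Tendsto A.inv (𝓝 (A.act y)) (𝓝 y) := by
      have := A.continuous_inv.tendsto (A.act y)
      rwa [A.inv_act] at this
    exact t1.eventually hg
  · rw [← act_segment]
    rintro _ ⟨p, hp, rfl⟩
    exact (h p hp).act A

theorem Vis_act (A : Iso B.b K) : G.Vis (f ∘ A.inv) (A.act y) = A.act '' G.Vis f y := by
  ext z
  constructor
  · intro hz
    refine ⟨A.inv z, ?_, A.act_inv z⟩
    have h1 := mem_Vis_act A.symm hz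
    rw [A.symm_act, A.symm_act, A.inv_act] at h1
    have e : (f ∘ A.inv) ∘ A.symm.inv = f := by
      funext z'; simp [A.symm_inv]
    rwa [e] at h1
  · rintro ⟨z, hz, rfl⟩
    exact mem_Vis_act A hz

theorem Fm_act [T2Space M] (A : Iso B.b K) (hz : z ∈ G.Vis f y) :
    G.Fm (f ∘ A.inv) (A.act y) (A.act z) = G.Fm f y z := by
  obtain ⟨g, hg, h⟩ := hz
  rw [Fm_eq_val hg h]
  have h1 : g ∘ A.inv =ᶠ[𝓝 (A.act y)] f ∘ A.inv := by
    have t1 : Tendsto A.inv (𝓝 (A.act y)) (𝓝 y) := by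
      have := A.continuous_inv.tendsto (A.act y)
      rwa [A.inv_act] at this
    exact t1.eventually hg
  rw [Fm_eq_val h1 ?_]
  · simp
  · rw [← act_segment]
    rintro _ ⟨p, hp, rfl⟩
    exact (h p hp).act A

theorem Bd.act (h : G.Bd f y a) (A : Iso B.b K) : G.Bd (f ∘ A.inv) (A.act y) (A.act a) := by
  refine ⟨A.act_mem_Om h.om, ?_, ?_⟩
  · rw [Vis_act]
    rintro ⟨z, hz, hz'⟩
    have : z = a := by rw [← A.inv_act z, hz', A.inv_act]
    exact h.nmem (this ▸ hz)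
  · intro t ht
    rw [Vis_act, ← A.act_add_smul]
    exact ⟨_, h.vis t ht, rfl⟩

theorem Wall.act {ν : W} (h : G.Wall f y ν a) (A : Iso B.b K) :
    G.Wall (f ∘ A.inv) (A.act y) (A.L ν) (A.act a) := by
  refine ⟨h.bd.act A, ?_, ?_, ?_, ?_⟩
  · rw [A.isom]; exact h.null
  · by_cases hK : K = 0
    · exact mul_eq_zero_of_left hK _
    · unfold Iso.act
      rw [A.a_eq_zero hK, add_zero, A.isom]; exact h.tan
  · rw [A.act_sub, A.isom]; exact h.ne
  · have t1 : Tendsto A.inv (𝓝 (A.act a)) (𝓝 a) := by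
      have := A.continuous_inv.tendsto (A.act a)
      rwa [A.inv_act] at this
    filter_upwards [t1.eventually h.loc] with c hc
    have e1 : B.b (A.L ν) (c - A.act a) = B.b ν (A.inv c - a) := by
      have : c = A.act (A.inv c) := (A.act_inv c).symm
      conv_lhs => rw [this, A.act_sub, A.isom]
    rw [e1, A.act_sub, A.isom, ← hc, Vis_act]
    constructor
    · rintro ⟨z, hz, rfl⟩; rw [A.inv_act]; exact hz
    · intro h'; exact ⟨_, h', A.act_inv c⟩

/-- A wall at a given point determines the null direction. -/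
theorem Wall.unique {ν ν' : W} (h : G.Wall f y ν a) (h' : G.Wall f y ν' a) :
    ∃ c : ℝ, c ≠ 0 ∧ ν' = c • ν := by
  set s := B.b ν (y - a) with hs
  set s' := B.b ν' (y - a) with hs'
  have hs0 : s ≠ 0 := h.ne
  have hs0' : s' ≠ 0 := h'.ne
  have key : ∀ w : W, (0 < B.b ν w * s ↔ 0 < B.b ν' w * s') := by
    intro w
    have h1 : Tendsto (fun ε : ℝ => a + ε • w) (𝓝 0) (𝓝 a) := by
      have : Continuous fun ε : ℝ => a + ε • w := by fun_prop
      simpa using this.tendsto 0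
    obtain ⟨ε, h2, h3⟩ := ((h1.eventually (h.loc.and h'.loc)).filter_mono nhdsWithin_le_nhds
      |>.and (self_mem_nhdsWithin : ∀ᶠ ε : ℝ in 𝓝[>] 0, ε ∈ Ioi (0 : ℝ))).exists
    have h3' : (0 : ℝ) < ε := h3
    have h4 := h2.1.symm.trans h2.2
    rw [add_sub_cancel_left, map_smul, map_smul, smul_eq_mul, smul_eq_mul, mul_assoc,
      mul_assoc] at h4
    rw [mul_pos_iff_of_pos_left h3', mul_pos_iff_of_pos_left h3'] at h4
    exact h4
  have hker : ∀ w, B.b ν w = 0 → B.b ν' w = 0 := by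
    intro w hw
    have k1 := key w
    have k2 := key (-w)
    rw [hw, zero_mul] at k1
    rw [map_neg, hw, neg_zero, zero_mul, map_neg] at k2
    have k3 : ¬ 0 < B.b ν' w * s' := fun hh => absurd (k1.2 hh) (lt_irrefl _)
    have k4 : ¬ 0 < -(B.b ν' w) * s' := fun hh => absurd (k2.2 hh) (lt_irrefl _)
    have k5 : B.b ν' w * s' = 0 := by
      have := not_lt.1 k3
      have := not_lt.1 k4
      linarith
    exact (mul_eq_zero.1 k5).resolve_right hs0'
  refine ⟨s' / s, div_ne_zero hs0' hs0, ?_⟩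
  refine B.eq_of_forall fun w => ?_
  have h5 : B.b ν (w - (B.b ν w / s) • (y - a)) = 0 := by
    rw [map_sub, map_smul, smul_eq_mul, ← hs]
    field_simp
    ring
  have h6 := hker _ h5
  rw [map_sub, map_smul, smul_eq_mul, ← hs', sub_eq_zero] at h6
  rw [h6, map_smul, smul_apply, smul_eq_mul]
  ring

theorem Wall.smul {ν : W} (h : G.Wall f y ν a) {c : ℝ} (hc : c ≠ 0) :
    G.Wall f y (c • ν) a := by
  have e : ∀ w, B.b (c • ν) w = c * B.b ν w := fun w => by
    rw [map_smul, smul_apply, smul_eq_mul]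
  refine ⟨h.bd, ?_, ?_, ?_, ?_⟩
  · rw [map_smul, e, h.null]; simp
  · rw [e]; linear_combination c * h.tan
  · rw [e]; exact mul_ne_zero hc h.ne
  · filter_upwards [h.loc] with p hp
    have hc2 : 0 < c ^ 2 := by positivity
    rw [hp, e, e, show c * B.b ν (p - a) * (c * B.b ν (y - a)) =
      c ^ 2 * (B.b ν (p - a) * B.b ν (y - a)) by ring, mul_pos_iff_of_pos_left hc2]

theorem Wall.congr {ν : W} (h : G.Wall f y ν a) (hg : f =ᶠ[𝓝 y] g) : G.Wall g y ν a := by
  have e := Vis_congr (G := G) hg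
  refine ⟨⟨h.bd.om, e ▸ h.bd.nmem, fun t ht => e ▸ h.bd.vis t ht⟩, h.null, h.tan, h.ne, ?_⟩
  rw [← e]; exact h.loc

/-! Facts on `Nn`. -/

omit [TopologicalSpace M] in
theorem Nn_nonneg (hz : z ∈ Om B.b K) (w : W) : 0 ≤ Nn B K ξ f z w :=
  add_nonneg (norm_nonneg _) (div_nonneg (abs_nonneg _) (le_of_lt hz))

omit [TopologicalSpace M] in
theorem Nn_add_le (hz : z ∈ Om B.b K) (v w : W) :
    Nn B K ξ f z (v + w) ≤ Nn B K ξ f z v + Nn B K ξ f z w := by
  have hz' : 0 < K * B.b z z + dl K := hz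
  unfold Nn
  rw [map_add, map_add, mul_add]
  have h1 := norm_add_le (fderiv ℝ (ξ ∘ f) z v) (fderiv ℝ (ξ ∘ f) z w)
  have h2 : |K * B.b z v + K * B.b z w| / (K * B.b z z + dl K) ≤
      |K * B.b z v| / (K * B.b z z + dl K) + |K * B.b z w| / (K * B.b z z + dl K) := by
    rw [← add_div]
    exact div_le_div_of_nonneg_right (abs_add_le _ _) hz'.le
  linarith

omit [TopologicalSpace M] in
theorem Nn_smul (z : W) (c : ℝ) (w : W) :
    Nn B K ξ f z (c • w) = |c| * Nn B K ξ f z w := by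
  unfold Nn
  rw [map_smul, map_smul, norm_smul, Real.norm_eq_abs, smul_eq_mul,
    show K * (c * B.b z w) = c * (K * B.b z w) by ring, abs_mul]
  ring

omit [TopologicalSpace M] in
theorem Nn_zero (z : W) : Nn B K ξ f z 0 = 0 := by
  have := Nn_smul (B := B) (K := K) (ξ := ξ) (f := f) z 0 0
  simpa using this

omit [TopologicalSpace M] in
theorem Nn_congr (h : f =ᶠ[𝓝 z] g) (w : W) : Nn B K ξ f z w = Nn B K ξ g z w := by
  unfold Nn
  have : (ξ ∘ f) =ᶠ[𝓝 z] (ξ ∘ g) := h.fun_comp ξ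
  rw [this.fderiv_eq]

end GX

end Pool.H1.Lor
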